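import Pool.Agent.R435.Cu.Data

open Set Metric Filter Topology MeasureTheory Real
open scoped ENNReal NNReal

namespace Pool.Agent.R435.Cu

lemma gl_lip_at {c : ℝ} {f g : ℝ → ℝ} (h : f c = g c) {x : ℝ} (hf : LipAt f (min x c))
    (hg : LipAt g (max x c)) : LipAt (gl c f g) x := by
  have e : gl c f g = fun x => f (min x c) + g (max x c) - g c := by
    funext x
    rcases le_or_gt x c with hx | hx
    · rw [gl_le hx, min_eq_left hx, max_eq_right hx]; ring
    · rw [gl_gt hx, min_eq_right hx.le, max_eq_left hx.le, h]; ring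
  rw [e]
  have hid : LipAt (fun y : ℝ => y) x := LipschitzWith.lipAt LipschitzWith.id x
  have h1 : LipAt (fun y : ℝ => f (min y c)) x :=
    LipAt.comp (g := f) (f := fun y => min y c) hf (hid.min (lipAt_const c))
  have h2 : LipAt (fun y : ℝ => g (max y c)) x :=
    LipAt.comp (g := g) (f := fun y => max y c) hg (hid.max (lipAt_const c))
  exact (h1.add h2).sub (lipAt_const _)

lemma gl_LB_at {c : ℝ} {f g : ℝ → ℝ} {x : ℝ} (hf : x ≤ c → LB f (𝓝 x)) (hg : c ≤ x → LB g (𝓝 x)) :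
    LB (gl c f g) (𝓝 x) := by
  rcases lt_trichotomy x c with h | h | h
  · refine (hf h.le).congr ?_
    filter_upwards [gt_mem_nhds h] with y hy
    exact (gl_le hy.le).symm
  · obtain ⟨M1, h1⟩ := hf h.le
    obtain ⟨M2, h2⟩ := hg h.ge
    refine ⟨max M1 M2, ?_⟩
    filter_upwards [h1, h2] with y hy1 hy2
    rcases le_or_gt y c with hy | hy
    · rw [gl_le hy]; exact hy1.trans (le_max_left _ _)
    · rw [gl_gt hy]; exact hy2.trans (le_max_right _ _)
  · refine (hg h.le).congr ?_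
    filter_upwards [lt_mem_nhds h] with y hy
    exact (gl_gt hy).symm

lemma log_div_mono {L l : ℝ} (hL : 1 ≤ L) (hl : L ≤ l) :
    (1 + Real.log l) / l ≤ (1 + Real.log L) / L := by
  have hL0 : 0 < L := by linarith
  have hl0 : 0 < l := by linarith
  rw [div_le_div_iff₀ hl0 hL0]
  have h1 : Real.log l = Real.log L + Real.log (l / L) := by
    rw [Real.log_div hl0.ne' hL0.ne']; ring
  have h2 := Real.log_le_sub_one_of_pos (show 0 < l / L by positivity)
  have h3 : L * (l / L) = l := by field_simp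
  have h4 := Real.log_nonneg hL
  have h5 : L * (1 + Real.log l) ≤ L * (Real.log L + l / L) := by
    apply mul_le_mul_of_nonneg_left _ hL0.le
    linarith
  have h6 : L * (Real.log L + l / L) = L * Real.log L + l := by rw [mul_add, h3]
  nlinarith [mul_nonneg (sub_nonneg.mpr hl) h4]

lemma HH_le {lam L l : ℝ} (hlam : 0 < lam) (hL : 1 ≤ L) (hl : L ≤ l) :
    HH lam L l ≤ -lam * Real.log (l / L) := by
  unfold HH
  have := log_div_mono hL hl
  nlinarith

lemma HH_ge {lam L l : ℝ} (hlam : 0 < lam) (hL : 1 ≤ L) (hl : L ≤ l) :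
    -lam * Real.log (l / L) - lam ≤ HH lam L l := by
  unfold HH
  have hL0 : 0 < L := by linarith
  have hl0 : 0 < l := by linarith
  have h1 : 0 ≤ (1 + Real.log l) / l := by
    have := Real.log_nonneg (hL.trans hl)
    positivity
  have h2 : (1 + Real.log L) / L ≤ 1 := by
    rw [div_le_one hL0]
    have := Real.log_le_sub_one_of_pos hL0
    linarith
  nlinarith

lemma HH_self {lam L : ℝ} (hL : 0 < L) : HH lam L L = 0 := by
  unfold HH
  rw [div_self hL.ne', Real.log_one]; ring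

namespace Par
variable (p : Par)

noncomputable def tau : ℝ → ℝ := gl p.x1 (gl (-p.L) (tau1 p.s p.lam p.L) p.tau2) p.tau3
noncomputable def dtau : ℝ → ℝ :=
  gl p.x1 (gl (-p.L) (dtau1 p.s p.lam p.L) (fun _ => p.kap)) p.dtau3
noncomputable def Th : ℝ → ℝ := gl p.x1 (gl (-p.L) (th1 p.s p.lam p.L) p.th2) (fun _ => p.ang)
noncomputable def dTh : ℝ → ℝ := gl p.x1 (gl (-p.L) (dth1 p.s p.lam p.L) p.dth2) (fun _ => 0)
noncomputable def Ph : ℝ → ℝ := gl p.x1 p.phi1 (fun _ => p.ang)
noncomputable def dPh : ℝ → ℝ := gl p.x1 p.dphi1 (fun _ => 0)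

lemma tau_match1 : tau1 p.s p.lam p.L (-p.L) = p.tau2 (-p.L) := by
  unfold tau1 tau2
  rw [neg_neg, HH_self p.L0]
  norm_num

lemma cc_half : p.cc (1/2 * Real.log 2) = √2 / 2 := by
  have h : (1/2 * Real.log 2 : ℝ) = Real.log (√2) := by
    rw [Real.log_sqrt (by norm_num)]; ring
  rw [h, p.cc_eq (by positivity)]
  have h1 := Real.sq_sqrt (show (0:ℝ) ≤ 2 by norm_num)
  have h2 := p.nσ
  have h3 := p.m_pos
  rw [div_eq_div_iff (by positivity) (by norm_num)]
  linear_combination 2 * h2 + (2 * p.σ - 2 * p.m) * h1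

lemma th_match1 : th1 p.s p.lam p.L (-p.L) = p.th2 (-p.L) := by
  unfold th1 th2 tau2
  rw [neg_neg, HH_self p.L0]
  have h1 : -p.L + p.L = 0 := by ring
  rw [h1, mul_zero, mul_zero, add_zero, Real.exp_zero, Real.arctan_one, p.cc_half,
    ← Real.cos_pi_div_four, Real.arccos_cos (by positivity) (by linarith [Real.pi_pos])]

lemma tau2_x1 : p.tau2 p.x1 = Real.log p.t1 := by
  unfold tau2 kap
  have : p.x1 + p.L ≠ 0 := by linarith [p.Lx1]
  field_simp
  ring

lemma tau_match2 : gl (-p.L) (tau1 p.s p.lam p.L) p.tau2 p.x1 = p.tau3 p.x1 := by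
  rw [gl_gt p.Lx1, p.tau2_x1]
  unfold tau3 t1
  rw [p.exp_x1]

lemma th_match2 : gl (-p.L) (th1 p.s p.lam p.L) p.th2 p.x1 = (fun _ => p.ang) p.x1 := by
  rw [gl_gt p.Lx1]
  show Real.arccos (p.cc (p.tau2 p.x1)) = Real.arccos (p.σ * p.r1 / 2)
  rw [p.tau2_x1]
  unfold t1
  rw [p.cc_far le_rfl]

lemma ph_match : p.phi1 p.x1 = (fun _ => p.ang) p.x1 := by
  show Real.arccos (p.σ * Real.exp p.x1 / 2) = Real.arccos (p.σ * p.r1 / 2)
  rw [p.exp_x1]

lemma neg_of_le {x : ℝ} (h : x ≤ -p.L) : x < 0 := by linarith [p.L0]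

lemma lip_tau1 {x : ℝ} (h : x ≤ -p.L) : LipAt (tau1 p.s p.lam p.L) x :=
  lipAt_of_deriv (df := dtau1 p.s p.lam p.L)
    (by filter_upwards [gt_mem_nhds (p.neg_of_le h)] with y hy using tau1_deriv p.L0 hy)
    (LB.of_cont (dtau1_cont p.L0 (p.neg_of_le h)))

lemma lip_th1 {x : ℝ} (h : x ≤ -p.L) : LipAt (th1 p.s p.lam p.L) x :=
  lipAt_of_deriv (df := dth1 p.s p.lam p.L)
    (by filter_upwards [gt_mem_nhds (p.neg_of_le h)] with y hy using th1_deriv p.L0 hy)
    (LB.of_cont (dth1_cont p.L0 (p.neg_of_le h)))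

lemma lip_tau2 (x : ℝ) : LipAt p.tau2 x :=
  lipAt_of_deriv (df := fun _ => p.kap) (Eventually.of_forall fun y => p.tau2_deriv y) (LB.const _)

lemma lip_th2 {x : ℝ} (h1 : -p.L ≤ x) (h2 : x ≤ p.x1) : LipAt p.th2 x :=
  lipAt_of_deriv (df := p.dth2)
    (by filter_upwards [p.ev_cc h1 h2] with y hy using (p.cc_ne hy).1)
    (LB.of_cont (p.cc_ne (p.ev_cc h1 h2).self_of_nhds).2)

lemma lip_tau3 {x : ℝ} (h : p.x1 ≤ x) : LipAt p.tau3 x :=
  lipAt_of_deriv (df := p.dtau3)
    (by filter_upwards [p.ev_rad h] with y hy using (p.tau3_all hy).1)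
    (LB.of_cont (p.tau3_all (p.rad_x h)).2)

lemma lip_phi1 {x : ℝ} (h : x ≤ p.x1) : LipAt p.phi1 x :=
  lipAt_of_deriv (df := p.dphi1)
    (by filter_upwards [p.ev_phi h] with y hy using (p.phi1_all hy).1)
    (LB.of_cont (p.phi1_all (p.ex_lt h)).2)

lemma max_le_x1 {x : ℝ} (h : x ≤ p.x1) : max x (-p.L) ≤ p.x1 := max_le h p.Lx1.le

lemma lip_tau (x : ℝ) : LipAt p.tau x := by
  apply gl_lip_at p.tau_match2
  · apply gl_lip_at p.tau_match1
    · exact p.lip_tau1 (min_le_right _ _)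
    · exact p.lip_tau2 _
  · exact p.lip_tau3 (le_max_right _ _)

lemma lip_Th (x : ℝ) : LipAt p.Th x := by
  apply gl_lip_at p.th_match2
  · apply gl_lip_at p.th_match1
    · exact p.lip_th1 (min_le_right _ _)
    · exact p.lip_th2 (le_max_right _ _) (p.max_le_x1 (min_le_right _ _))
  · exact lipAt_const _

lemma lip_Ph (x : ℝ) : LipAt p.Ph x := by
  apply gl_lip_at p.ph_match
  · exact p.lip_phi1 (min_le_right _ _)
  · exact lipAt_const _

lemma one_le_neg {x : ℝ} (h : x ≤ -p.L) : 1 ≤ -x := by linarith [p.hL]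

lemma mono_tau1 : StrictMonoOn (tau1 p.s p.lam p.L) (Iic (-p.L)) := by
  apply strictMonoOn_of_deriv_pos (convex_Iic _)
  · intro x hx
    exact (tau1_deriv p.L0 (p.neg_of_le hx)).continuousAt.continuousWithinAt
  · intro x hx
    rw [interior_Iic] at hx
    rw [(tau1_deriv p.L0 (p.neg_of_le (le_of_lt hx))).deriv]
    exact dtau1_pos p.hs p.hlam (p.one_le_neg (le_of_lt hx))

lemma mono_tau3 : StrictMonoOn p.tau3 (Ici p.x1) := by
  apply strictMonoOn_of_deriv_pos (convex_Ici _)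
  · intro x hx
    exact (p.tau3_all (p.rad_x hx)).1.continuousAt.continuousWithinAt
  · intro x hx
    rw [interior_Ici] at hx
    rw [(p.tau3_all (p.rad_x (le_of_lt hx))).1.deriv]
    exact p.dtau3_pos (le_of_lt hx)

lemma mono_tau : StrictMono p.tau := by
  apply gl_mono p.tau_match2 _ p.mono_tau3
  apply StrictMono.strictMonoOn
  apply gl_mono p.tau_match1 p.mono_tau1
  intro x _ y _ hxy
  unfold tau2
  have := p.kap_pos
  nlinarith

lemma tau_top : Tendsto p.tau atTop atTop := by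
  have h1 : Tendsto (fun x : ℝ => x + Real.log (p.m / 2)) atTop atTop :=
    tendsto_atTop_add_const_right _ _ tendsto_id
  refine tendsto_atTop_mono' _ ?_ h1
  filter_upwards [eventually_gt_atTop p.x1] with x hx
  show _ ≤ gl _ _ _ x
  rw [gl_gt hx]
  unfold tau3
  have hm := p.m_pos
  have h2 : Real.exp x * (p.m / 2) ≤ p.far (Real.exp x) := by
    unfold far
    have := Real.sqrt_nonneg ((Real.exp x * p.m)^2 - 4 * p.σ * p.n)
    linarith
  have h3 := Real.log_le_log (by positivity) h2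
  rw [Real.log_mul (Real.exp_pos x).ne' (by positivity), Real.log_exp] at h3
  exact h3

lemma tau_bot : Tendsto p.tau atBot atBot := by
  have h1 : Tendsto (fun x : ℝ => -(p.lam * Real.log (-x / p.L)) + 1/2 * Real.log 2) atBot atBot := by
    apply tendsto_atBot_add_const_right
    apply tendsto_neg_atTop_atBot.comp
    apply Tendsto.const_mul_atTop p.hlam
    apply Real.tendsto_log_atTop.comp
    apply Tendsto.atTop_div_const p.L0
    exact tendsto_neg_atBot_atTop
  refine tendsto_atBot_mono' _ ?_ h1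
  filter_upwards [eventually_le_atBot (-p.L)] with x hx
  show gl _ _ _ x ≤ _
  rw [gl_le (hx.trans p.Lx1.le), gl_le hx]
  unfold tau1
  have h2 := HH_le p.hlam p.hL (show p.L ≤ -x by linarith)
  have hlog : 0 ≤ Real.log (-x / p.L) := Real.log_nonneg (by
    rw [le_div_iff₀ p.L0]; linarith)
  have h3 : HH p.lam p.L (-x) ≤ 0 := h2.trans (by nlinarith [p.hlam])
  have h4 : Real.exp (2 * p.s * HH p.lam p.L (-x)) ≤ 1 := by
    apply Real.exp_le_one_iff.mpr
    nlinarith [p.hs]
  have h5 : Real.log (1 + Real.exp (2 * p.s * HH p.lam p.L (-x))) ≤ Real.log 2 :=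
    Real.log_le_log (by positivity) (by linarith)
  linarith

lemma ang_range : 0 < p.ang ∧ p.ang < π := by
  have h := p.ex_lt le_rfl
  rw [p.exp_x1] at h
  unfold ang
  exact ⟨Real.arccos_pos.mpr h.2, by
    rw [← Real.arccos_neg_one]
    exact Real.strictAntiOn_arccos ⟨le_rfl, by norm_num⟩ ⟨h.1.le, h.2.le⟩ h.1⟩

lemma arccos_range {c : ℝ} (h : -1 < c ∧ c < 1) : 0 < Real.arccos c ∧ Real.arccos c < π :=
  ⟨Real.arccos_pos.mpr h.2, by
    rw [← Real.arccos_neg_one]
    exact Real.strictAntiOn_arccos ⟨le_rfl, by norm_num⟩ ⟨h.1.le, h.2.le⟩ h.1⟩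

lemma Ph_range (x : ℝ) : 0 < p.Ph x ∧ p.Ph x < π :=
  gl_mem (p := fun y => 0 < y ∧ y < π) (fun x hx => arccos_range (p.ex_lt hx)) (fun _ _ => p.ang_range) x

lemma Th_range (x : ℝ) : 0 < p.Th x ∧ p.Th x < π := by
  apply gl_mem (p := fun y => 0 < y ∧ y < π) _ (fun _ _ => p.ang_range) x
  intro x hx
  rcases le_or_gt x (-p.L) with h | h
  · rw [gl_le h]
    unfold th1
    have h1 := Real.arctan_lt_pi_div_two (Real.exp (p.s * HH p.lam p.L (-x)))
    exact ⟨Real.arctan_pos.mpr (Real.exp_pos _), by linarith [Real.pi_pos]⟩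
  · rw [gl_gt h]
    have hr := p.tau2_range h.le hx
    exact arccos_range (p.cc_bd hr.1 hr.2)

noncomputable def dat : Dat where
  τ := p.tau
  Φ := p.Ph
  Θ := p.Th
  hτ := p.mono_tau
  τc := cont_of_lipAt p.lip_tau
  τtop := p.tau_top
  τbot := p.tau_bot
  Φc := cont_of_lipAt p.lip_Ph
  Θc := cont_of_lipAt p.lip_Th
  Φ0 := fun x => (p.Ph_range x).1
  Φ1 := fun x => (p.Ph_range x).2
  Θ0 := fun x => (p.Th_range x).1
  Θ1 := fun x => (p.Th_range x).2

noncomputable def reg : Reg p.dat where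
  E := {p.x1, -p.L}
  Ec := (Set.toFinite _).countable
  dτ := p.dtau
  dΦ := p.dPh
  dΘ := p.dTh
  hτ' := by
    intro x hx
    simp only [mem_insert_iff, mem_singleton_iff, not_or] at hx
    apply gl_hd hx.1
    · intro _
      apply gl_hd hx.2
      · intro h2
        exact tau1_deriv p.L0 (p.neg_of_le h2.le)
      · intro _; exact p.tau2_deriv x
    · intro h; exact (p.tau3_all (p.rad_x h.le)).1
  hΦ' := by
    intro x hx
    simp only [mem_insert_iff, mem_singleton_iff, not_or] at hx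
    apply gl_hd hx.1
    · intro h; exact (p.phi1_all (p.ex_lt h.le)).1
    · intro _; exact hasDerivAt_const x _
  hΘ' := by
    intro x hx
    simp only [mem_insert_iff, mem_singleton_iff, not_or] at hx
    apply gl_hd hx.1
    · intro h
      apply gl_hd hx.2
      · intro h2
        exact th1_deriv p.L0 (p.neg_of_le h2.le)
      · intro h2; exact (p.cc_ne (p.ev_cc h2.le h.le).self_of_nhds).1
    · intro _; exact hasDerivAt_const x _
  lτ := p.lip_tau
  lΦ := p.lip_Ph
  lΘ := p.lip_Th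
  pos := by
    intro x _
    show 0 < p.dtau x
    unfold dtau
    rcases le_or_gt x p.x1 with h | h
    · rw [gl_le h]
      rcases le_or_gt x (-p.L) with h2 | h2
      · rw [gl_le h2]; exact dtau1_pos p.hs p.hlam (p.one_le_neg h2)
      · rw [gl_gt h2]; exact p.kap_pos
    · rw [gl_gt h]; exact p.dtau3_pos h.le

lemma loc (x : ℝ) : LB p.dtau (𝓝 x) ∧ LB p.dPh (𝓝 x) ∧ LB p.dTh (𝓝 x) ∧
    LB (fun y => (p.dtau y)⁻¹) (𝓝 x) := by
  refine ⟨?_, ?_, ?_, ?_⟩
  · apply gl_LB_at
    · intro _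
      apply gl_LB_at
      · intro h; exact LB.of_cont (dtau1_cont p.L0 (p.neg_of_le h))
      · intro _; exact LB.const _
    · intro h; exact LB.of_cont (p.tau3_all (p.rad_x h)).2
  · apply gl_LB_at
    · intro h; exact LB.of_cont (p.phi1_all (p.ex_lt h)).2
    · intro _; exact LB.const _
  · apply gl_LB_at
    · intro h
      apply gl_LB_at
      · intro h; exact LB.of_cont (dth1_cont p.L0 (p.neg_of_le h))
      · intro h2; exact LB.of_cont (p.cc_ne (p.ev_cc h2 h).self_of_nhds).2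
    · intro _; exact LB.const _
  · have e : (fun y => (p.dtau y)⁻¹) = gl p.x1 (gl (-p.L) (fun y => (dtau1 p.s p.lam p.L y)⁻¹)
        (fun _ => (p.kap)⁻¹)) (fun y => (p.dtau3 y)⁻¹) := by
      funext y
      unfold dtau
      rcases le_or_gt y p.x1 with h | h
      · rw [gl_le h, gl_le h]
        rcases le_or_gt y (-p.L) with h2 | h2
        · rw [gl_le h2, gl_le h2]
        · rw [gl_gt h2, gl_gt h2]
      · rw [gl_gt h, gl_gt h]
    rw [e]
    apply gl_LB_at
    · intro _
      apply gl_LB_at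
      · intro h
        exact LB.of_cont ((dtau1_cont p.L0 (p.neg_of_le h)).inv₀
          (dtau1_pos p.hs p.hlam (p.one_le_neg h)).ne')
      · intro _; exact LB.const _
    · intro h; exact LB.of_cont ((p.tau3_all (p.rad_x h)).2.inv₀ (p.dtau3_pos h).ne')

end Par

end Pool.Agent.R435.Cu
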