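import Pool.Agent.R435.Cu.Glue

open Set Metric Filter Topology MeasureTheory Real
open scoped ENNReal NNReal

namespace Pool.Agent.R435.Cu

structure Par where
  s : ℝ
  lam : ℝ
  L : ℝ
  σ : ℝ
  r1 : ℝ
  hs : 0 < s
  hlam : 0 < lam
  hL : 1 ≤ L
  hσ : σ = 1 ∨ σ = -1
  hr0 : 1 ≤ r1
  hr2 : r1 < 2
  hrad : 0 < (r1 * (s + 1 + σ))^2 - 4 * σ * (2 * s + 2)
  ht1 : √2 < (r1 * (s + 1 + σ) + √((r1 * (s + 1 + σ))^2 - 4 * σ * (2 * s + 2))) / 2
  hC : ∀ t, √2 ≤ t → t ≤ (r1 * (s + 1 + σ) + √((r1 * (s + 1 + σ))^2 - 4 * σ * (2 * s + 2))) / 2 →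
    -1 < ((2 * s + 2) + σ * t^2) / (2 * (s + 1 + σ) * t) ∧
    ((2 * s + 2) + σ * t^2) / (2 * (s + 1 + σ) * t) < 1

namespace Par
variable (p : Par)

noncomputable def m : ℝ := p.s + 1 + p.σ
noncomputable def n : ℝ := 2 * p.s + 2

lemma σσ : p.σ * p.σ = 1 := by rcases p.hσ with h | h <;> rw [h] <;> norm_num
lemma m_pos : 0 < p.m := by
  have := p.hs
  unfold m
  rcases p.hσ with h | h <;> rw [h] <;> linarith
lemma n_pos : 0 < p.n := by have := p.hs; unfold n; linarith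
lemma L0 : 0 < p.L := by linarith [p.hL]
lemma abs_σ : |p.σ| = 1 := by rcases p.hσ with h | h <;> rw [h] <;> simp
lemma nσ : p.n + 2 * p.σ = 2 * p.m := by unfold n m; ring

/-- far radius -/
noncomputable def far (r : ℝ) : ℝ := (r * p.m + √((r * p.m)^2 - 4 * p.σ * p.n)) / 2

noncomputable def t1 : ℝ := p.far p.r1
noncomputable def x1 : ℝ := Real.log p.r1
noncomputable def kap : ℝ := (Real.log p.t1 - 1/2 * Real.log 2) / (p.x1 + p.L)
noncomputable def cc (u : ℝ) : ℝ := (p.n * Real.exp (-u) + p.σ * Real.exp u) / (2 * p.m)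

lemma x1_nonneg : 0 ≤ p.x1 := Real.log_nonneg p.hr0
lemma Lx1 : -p.L < p.x1 := by linarith [p.x1_nonneg, p.L0]
lemma exp_x1 : Real.exp p.x1 = p.r1 := Real.exp_log (by linarith [p.hr0])

lemma ht1' : √2 < p.t1 := p.ht1
lemma t1_pos : 0 < p.t1 := lt_trans (by positivity) p.ht1'
lemma rad {r : ℝ} (hr : p.r1 ≤ r) : 0 < (r * p.m)^2 - 4 * p.σ * p.n := by
  have h1 : 0 < (p.r1 * p.m)^2 - 4 * p.σ * p.n := p.hrad
  have h2 : p.r1 * p.m ≤ r * p.m := mul_le_mul_of_nonneg_right hr p.m_pos.le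
  have h3 : 0 ≤ p.r1 * p.m := mul_nonneg (by linarith [p.hr0]) p.m_pos.le
  have h4 : (p.r1 * p.m)^2 ≤ (r * p.m)^2 := pow_le_pow_left₀ h3 h2 2
  linarith

lemma far_pos {r : ℝ} (hr : p.r1 ≤ r) : 0 < p.far r := by
  unfold far
  have := p.m_pos
  have := p.hr0
  have : 0 < r := by linarith
  positivity

lemma far_eq {r : ℝ} (hr : p.r1 ≤ r) : (p.far r)^2 + p.σ * p.n = r * p.m * p.far r := by
  have h := Real.sq_sqrt (p.rad hr).le
  unfold far
  nlinarith [h]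

lemma cc_eq {t : ℝ} (ht : 0 < t) : p.cc (Real.log t) = (p.n + p.σ * t^2) / (2 * p.m * t) := by
  unfold cc
  have := p.m_pos
  rw [Real.exp_neg, Real.exp_log ht]
  field_simp

lemma cc_far {r : ℝ} (hr : p.r1 ≤ r) : p.cc (Real.log (p.far r)) = p.σ * r / 2 := by
  rw [p.cc_eq (p.far_pos hr)]
  have h1 := p.far_eq hr
  have h2 := p.far_pos hr
  have h3 := p.m_pos
  have h4 := p.σσ
  rw [div_eq_div_iff (by positivity) (by norm_num)]
  linear_combination 2 * p.σ * h1 - 2 * p.n * h4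

lemma cc_bd {u : ℝ} (h1 : 1/2 * Real.log 2 ≤ u) (h2 : u ≤ Real.log p.t1) :
    -1 < p.cc u ∧ p.cc u < 1 := by
  have e : u = Real.log (Real.exp u) := (Real.log_exp u).symm
  rw [e, p.cc_eq (Real.exp_pos u)]
  apply p.hC
  · rw [show √2 = Real.exp (1/2 * Real.log 2) by
      rw [mul_comm, Real.exp_mul, Real.exp_log (by norm_num), Real.sqrt_eq_rpow]]
    exact Real.exp_le_exp.mpr h1
  · have h3 := Real.exp_le_exp.mpr h2
    rw [Real.exp_log p.t1_pos] at h3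
    exact h3

noncomputable def tau2 (x : ℝ) : ℝ := 1/2 * Real.log 2 + p.kap * (x + p.L)
noncomputable def th2 (x : ℝ) : ℝ := Real.arccos (p.cc (p.tau2 x))
noncomputable def dth2 (x : ℝ) : ℝ := -(1 / √(1 - (p.cc (p.tau2 x))^2)) *
  ((-p.n * Real.exp (-p.tau2 x) + p.σ * Real.exp (p.tau2 x)) / (2 * p.m) * p.kap)
noncomputable def tau3 (x : ℝ) : ℝ := Real.log (p.far (Real.exp x))
noncomputable def dtau3 (x : ℝ) : ℝ := p.m * Real.exp x / √((Real.exp x * p.m)^2 - 4 * p.σ * p.n)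
noncomputable def ang : ℝ := Real.arccos (p.σ * p.r1 / 2)
noncomputable def phi1 (x : ℝ) : ℝ := Real.arccos (p.σ * Real.exp x / 2)
noncomputable def dphi1 (x : ℝ) : ℝ := -(1 / √(1 - (p.σ * Real.exp x / 2)^2)) * (p.σ * Real.exp x / 2)

lemma kap_pos : 0 < p.kap := by
  unfold kap
  apply div_pos _ (by linarith [p.Lx1])
  have h1 : Real.log (√2) < Real.log p.t1 := Real.log_lt_log (by positivity) p.ht1'
  rw [Real.log_sqrt (by norm_num)] at h1
  linarith

lemma tau2_deriv (x : ℝ) : HasDerivAt p.tau2 p.kap x := by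
  unfold tau2
  have := (((hasDerivAt_id x).add_const p.L).const_mul p.kap).const_add (1/2 * Real.log 2)
  simpa using this

lemma cc_deriv (u : ℝ) : HasDerivAt p.cc ((-p.n * Real.exp (-u) + p.σ * Real.exp u) / (2 * p.m)) u := by
  unfold cc
  have h1 : HasDerivAt (fun u : ℝ => Real.exp (-u)) (Real.exp (-u) * (-1)) u :=
    (hasDerivAt_neg u).exp
  have h2 := ((h1.const_mul p.n).add ((Real.hasDerivAt_exp u).const_mul p.σ)).div_const (2 * p.m)
  refine h2.congr_deriv ?_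
  ring

lemma tau2_range {x : ℝ} (h1 : -p.L ≤ x) (h2 : x ≤ p.x1) :
    1/2 * Real.log 2 ≤ p.tau2 x ∧ p.tau2 x ≤ Real.log p.t1 := by
  unfold tau2
  have hk := p.kap_pos
  constructor
  · nlinarith
  · have h3 : p.kap * (p.x1 + p.L) = Real.log p.t1 - 1/2 * Real.log 2 := by
      unfold kap
      have : p.x1 + p.L ≠ 0 := by linarith [p.Lx1]
      field_simp
    nlinarith

lemma cc_ne {x : ℝ} (h : -1 < p.cc (p.tau2 x) ∧ p.cc (p.tau2 x) < 1) :
    HasDerivAt p.th2 (p.dth2 x) x ∧ ContinuousAt p.dth2 x := by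
  have h1 := (p.cc_deriv (p.tau2 x)).comp x (p.tau2_deriv x)
  have h2 := (Real.hasDerivAt_arccos h.1.ne' h.2.ne).comp x h1
  refine ⟨h2, ?_⟩
  have hne : √(1 - (p.cc (p.tau2 x))^2) ≠ 0 := by
    apply ne_of_gt
    apply Real.sqrt_pos.mpr
    nlinarith
  have hc1 : ContinuousAt (fun x => p.cc (p.tau2 x)) x := h1.continuousAt
  have hc2 : ContinuousAt p.tau2 x := (p.tau2_deriv x).continuousAt
  unfold dth2
  exact (continuousAt_const.div ((continuousAt_const.sub (hc1.pow 2)).sqrt) hne).neg.mul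
    ((((continuousAt_const.mul hc2.neg.rexp).add (continuousAt_const.mul hc2.rexp)).div_const _).mul
      continuousAt_const)

lemma ev_cc {x : ℝ} (h1 : -p.L ≤ x) (h2 : x ≤ p.x1) :
    ∀ᶠ y in 𝓝 x, -1 < p.cc (p.tau2 y) ∧ p.cc (p.tau2 y) < 1 := by
  have hr := p.tau2_range h1 h2
  have h := p.cc_bd hr.1 hr.2
  have hc : ContinuousAt (fun x => p.cc (p.tau2 x)) x :=
    ((p.cc_deriv (p.tau2 x)).comp x (p.tau2_deriv x)).continuousAt
  exact (hc.eventually (lt_mem_nhds h.1)).and (hc.eventually (gt_mem_nhds h.2))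

lemma tau3_all {x : ℝ} (h : 0 < (Real.exp x * p.m)^2 - 4 * p.σ * p.n) :
    HasDerivAt p.tau3 (p.dtau3 x) x ∧ ContinuousAt p.dtau3 x := by
  have hS : 0 < √((Real.exp x * p.m)^2 - 4 * p.σ * p.n) := Real.sqrt_pos.mpr h
  have hm := p.m_pos
  have he := Real.exp_pos x
  have h1 : HasDerivAt (fun x => Real.exp x * p.m) (Real.exp x * p.m) x :=
    (Real.hasDerivAt_exp x).mul_const p.m
  have h1' : HasDerivAt (fun x => (Real.exp x * p.m)^2)
      (2 * (Real.exp x * p.m) * (Real.exp x * p.m)) x := by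
    have := h1.pow 2
    refine this.congr_deriv ?_
    simp
  have h2 : HasDerivAt (fun x => √((Real.exp x * p.m)^2 - 4 * p.σ * p.n))
      ((2 * (Real.exp x * p.m) * (Real.exp x * p.m)) /
        (2 * √((Real.exp x * p.m)^2 - 4 * p.σ * p.n))) x := (h1'.sub_const (4 * p.σ * p.n)).sqrt h.ne'
  have h3 : HasDerivAt p.tau3 (((Real.exp x * p.m + (2 * (Real.exp x * p.m) * (Real.exp x * p.m)) /
        (2 * √((Real.exp x * p.m)^2 - 4 * p.σ * p.n))) / 2) /
        ((Real.exp x * p.m + √((Real.exp x * p.m)^2 - 4 * p.σ * p.n)) / 2)) x :=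
    ((h1.add h2).div_const 2).log (by
    apply ne_of_gt
    apply div_pos _ (by norm_num)
    show 0 < Real.exp x * p.m + √((Real.exp x * p.m)^2 - 4 * p.σ * p.n)
    positivity)
  constructor
  · refine h3.congr_deriv ?_
    unfold dtau3
    generalize √((Real.exp x * p.m)^2 - 4 * p.σ * p.n) = S at hS
    have : Real.exp x * p.m + S ≠ 0 := by positivity
    field_simp
    ring
  · unfold dtau3
    have hc : ContinuousAt (fun x => √((Real.exp x * p.m)^2 - 4 * p.σ * p.n)) x := h2.continuousAt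
    exact (continuousAt_const.mul Real.continuous_exp.continuousAt).div hc hS.ne'

lemma rad_x {x : ℝ} (h : p.x1 ≤ x) : 0 < (Real.exp x * p.m)^2 - 4 * p.σ * p.n := by
  apply p.rad
  rw [← p.exp_x1]
  exact Real.exp_le_exp.mpr h

lemma ev_rad {x : ℝ} (h : p.x1 ≤ x) : ∀ᶠ y in 𝓝 x, 0 < (Real.exp y * p.m)^2 - 4 * p.σ * p.n := by
  have hc : Continuous (fun x => (Real.exp x * p.m)^2 - 4 * p.σ * p.n) := by fun_prop
  exact hc.continuousAt.eventually (lt_mem_nhds (p.rad_x h))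

lemma dtau3_pos {x : ℝ} (h : p.x1 ≤ x) : 0 < p.dtau3 x := by
  unfold dtau3
  exact div_pos (mul_pos p.m_pos (Real.exp_pos x)) (Real.sqrt_pos.mpr (p.rad_x h))

lemma ex_lt {x : ℝ} (h : x ≤ p.x1) : -1 < p.σ * Real.exp x / 2 ∧ p.σ * Real.exp x / 2 < 1 := by
  have h1 : Real.exp x ≤ p.r1 := by rw [← p.exp_x1]; exact Real.exp_le_exp.mpr h
  have h2 := p.hr2
  have h3 := Real.exp_pos x
  rcases p.hσ with h | h <;> rw [h] <;> constructor <;> linarith

lemma phi1_all {x : ℝ} (h : -1 < p.σ * Real.exp x / 2 ∧ p.σ * Real.exp x / 2 < 1) :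
    HasDerivAt p.phi1 (p.dphi1 x) x ∧ ContinuousAt p.dphi1 x := by
  have h1 : HasDerivAt (fun x => p.σ * Real.exp x / 2) (p.σ * Real.exp x / 2) x :=
    ((Real.hasDerivAt_exp x).const_mul p.σ).div_const 2
  have h2 := (Real.hasDerivAt_arccos h.1.ne' h.2.ne).comp x h1
  refine ⟨h2, ?_⟩
  have hne : √(1 - (p.σ * Real.exp x / 2)^2) ≠ 0 := by
    apply ne_of_gt
    apply Real.sqrt_pos.mpr
    nlinarith
  unfold dphi1
  have hc := h1.continuousAt
  exact (continuousAt_const.div ((continuousAt_const.sub (hc.pow 2)).sqrt) hne).neg.mul hc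

lemma ev_phi {x : ℝ} (h : x ≤ p.x1) :
    ∀ᶠ y in 𝓝 x, -1 < p.σ * Real.exp y / 2 ∧ p.σ * Real.exp y / 2 < 1 := by
  have hc : ContinuousAt (fun x => p.σ * Real.exp x / 2) x := by fun_prop
  exact (hc.eventually (lt_mem_nhds (p.ex_lt h).1)).and (hc.eventually (gt_mem_nhds (p.ex_lt h).2))

end Par

end Pool.Agent.R435.Cu
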