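import Pool.Agent.R435.Cu.Geo

open Set Metric Filter Topology MeasureTheory Real
open scoped ENNReal NNReal ContDiff

namespace Pool.Agent.R435.Cu

/-! ## translation -/

lemma locInt_translate {F : Type*} [NormedAddCommGroup F] {g : ℂ → F} (hg : LocallyIntegrable g)
    (c : ℂ) : LocallyIntegrable (fun z => g (z + c)) := by
  intro z
  obtain ⟨s, hs, hI⟩ := hg (z + c)
  refine ⟨(fun y => y + c) ⁻¹' s, (continuous_add_const c).continuousAt.preimage_mem_nhds hs, ?_⟩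
  exact ((measurePreserving_add_right volume c).integrableOn_comp_preimage
    (Homeomorph.addRight c).measurableEmbedding).mpr hI

lemma ae_translate {q : ℂ → Prop} (h : ∀ᵐ z : ℂ, q z) (c : ℂ) : ∀ᵐ z : ℂ, q (z + c) :=
  (measurePreserving_add_right volume c).quasiMeasurePreserving.ae h

lemma weak_translate {f : ℂ → ℂ} {G : ℂ → ℂ →L[ℝ] ℂ} (h : HasWeakDeriv f G) (c : ℂ) :
    HasWeakDeriv (fun z => f (z + c)) (fun z => G (z + c)) := by
  intro φ hφ hφc v
  have h1 := h (fun y => φ (y - c)) (hφ.comp (contDiff_id.sub contDiff_const))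
    (hφc.comp_homeomorph (Homeomorph.subRight c)) v
  have e1 : ∫ x, φ x • G (x + c) v = ∫ y, φ (y - c) • G y v := by
    rw [← integral_add_right_eq_self (fun y => φ (y - c) • G y v) c]
    simp
  have e2 : ∫ x, (fderiv ℝ φ x v) • f (x + c) = ∫ y, (fderiv ℝ (fun y => φ (y - c)) y v) • f y := by
    rw [← integral_add_right_eq_self (fun y => (fderiv ℝ (fun y => φ (y - c)) y v) • f y) c]
    simp only [fderiv_comp_sub]
    simp
  rw [e1, e2]
  exact h1

namespace Par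
variable (p : Par)

lemma weakP : HasWeakDeriv p.dat.P (fderiv ℝ p.dat.P) :=
  weak_main p.dat.P_cont p.reg.P_locLip (fun x => (p.ctl.fderiv_locInt x).norm)

lemma ae_dist : ∀ᵐ z : ℂ, ‖fderiv ℝ p.dat.P z‖^2 ≤ Kf p.dat.P z * (fderiv ℝ p.dat.P z).det := by
  filter_upwards [p.reg.ae_good] with z ⟨h0, h1, h2⟩
  obtain ⟨hdet, _, _⟩ := p.reg.good_bounds h0 h1 h2
  unfold Kf
  rw [if_pos hdet, div_mul_cancel₀ _ hdet.ne']

lemma in_ball_phi (hσ : p.σ = 1) {z : ℂ} (hz : z ≠ 0) (hb : z ∈ ball (1:ℂ) 1) :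
    |Complex.arg z| < p.dat.Φ (Real.log ‖z‖) := by
  rw [mem_ball_one hz, one_mul] at hb
  have hp : 0 < ‖z‖ := norm_pos_iff.mpr hz
  have h2 : ‖z‖ / 2 < 1 := hb.trans_le (Real.cos_le_one _)
  have h3 := (lt_cos_iff (z := z) (c := ‖z‖ / 2) ⟨by linarith, h2⟩).1.mp hb
  show _ < p.Ph _
  have he : Real.exp (Real.log ‖z‖) = ‖z‖ := Real.exp_log hp
  unfold Ph
  rcases le_or_gt (Real.log ‖z‖) p.x1 with h | h
  · rw [gl_le h]
    unfold phi1
    rwa [hσ, he, one_mul]
  · rw [gl_gt h]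
    refine h3.trans_le ?_
    unfold ang
    rw [hσ, one_mul]
    apply Real.antitone_arccos
    have : p.r1 ≤ ‖z‖ := by
      rw [← p.exp_x1, ← he]; exact Real.exp_le_exp.mpr h.le
    linarith

lemma qc_bound (hσ : p.σ = 1) (hk : p.s * p.lam = 1) :
    ∃ M : ℝ, ∀ᵐ z : ℂ, z ∈ ball (1:ℂ) 1 → Kf p.dat.P z ≤ M := by
  obtain ⟨M, hM⟩ := bdd_of_LB (fun x => (p.ctl.kloc x).1) (p.kin_bot hk) (Real.log 2)
  refine ⟨M, ?_⟩
  filter_upwards [p.reg.ae_good] with z ⟨h0, h1, h2⟩ hb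
  obtain ⟨_, hK, _⟩ := p.reg.good_bounds h0 h1 h2
  have h3 := p.in_ball_phi hσ h0 hb
  have h4 : ‖z‖ ≤ 2 := by
    have h5 : ‖z - 1‖ < 1 := by rwa [mem_ball, dist_eq_norm] at hb
    have h6 := norm_add_le (z - 1) 1
    rw [sub_add_cancel, norm_one] at h6
    linarith
  have h5 : Real.log ‖z‖ ≤ Real.log 2 := Real.log_le_log (norm_pos_iff.mpr h0) h4
  rcases hK with ⟨_, hK⟩ | ⟨hc, _⟩
  · exact hK.trans ((le_abs_self _).trans (hM _ h5))
  · exact absurd h3 (not_lt.mpr hc.le)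

end Par

/-! ## instances -/

lemma exp_two_le : Real.exp 2 ≤ 7.5 := by
  have h1 := Real.exp_one_lt_d9
  have h2 : Real.exp 2 = Real.exp 1 * Real.exp 1 := by rw [← Real.exp_add]; norm_num
  have h3 := Real.exp_pos 1
  rw [h2]
  nlinarith

lemma sqrt_rad {s : ℝ} (hs : 0 < s) :
    √((√2 * (s + 1 + 1))^2 - 4 * 1 * (2 * s + 2)) = √2 * s := by
  have h2 := Real.sq_sqrt (show (0:ℝ) ≤ 2 by norm_num)
  have : (√2 * (s + 1 + 1))^2 - 4 * 1 * (2 * s + 2) = (√2 * s)^2 := by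
    rw [mul_pow, mul_pow, h2]; ring
  rw [this, Real.sqrt_sq (by positivity)]

noncomputable def parOm (s lam L : ℝ) (hs : 0 < s) (hlam : 0 < lam) (hL : 1 ≤ L) : Par where
  s := s
  lam := lam
  L := L
  σ := 1
  r1 := √2
  hs := hs
  hlam := hlam
  hL := hL
  hσ := Or.inl rfl
  hr0 := by
    rw [← Real.sqrt_one]; exact Real.sqrt_le_sqrt (by norm_num)
  hr2 := by
    rw [Real.sqrt_lt' (by norm_num)]; norm_num
  hrad := by
    have h2 := Real.sq_sqrt (show (0:ℝ) ≤ 2 by norm_num)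
    have : (√2 * (s + 1 + 1))^2 - 4 * 1 * (2 * s + 2) = 2 * s^2 := by
      rw [mul_pow, h2]; ring
    rw [this]; positivity
  ht1 := by
    rw [sqrt_rad hs]
    have : 0 < √2 := by positivity
    nlinarith
  hC := by
    intro t ht1 ht2
    rw [sqrt_rad hs] at ht2
    have h2 := Real.sq_sqrt (show (0:ℝ) ≤ 2 by norm_num)
    have hs2 : 0 < √2 := by positivity
    have hlt : √2 < 2 := by rw [Real.sqrt_lt' (by norm_num)]; norm_num
    have ht : 0 < t := by linarith
    have ht3 : t ≤ √2 * (s + 1) := by linarith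
    have key : t^2 + (2 * s + 2) ≤ √2 * (s + 2) * t := by
      nlinarith [mul_nonneg (sub_nonneg.mpr ht1) (sub_nonneg.mpr ht3)]
    constructor
    · have : 0 < (2 * s + 2 + 1 * t^2) / (2 * (s + 1 + 1) * t) := by positivity
      linarith
    · rw [div_lt_one (by positivity)]
      have h5 : √2 * (s + 2) * t < 2 * (s + 2) * t := by
        have : 0 < (s + 2) * t := by positivity
        nlinarith
      linarith

noncomputable def parG (s lam L : ℝ) (hs : 0 < s) (hlam : 0 < lam) (hL : 1 ≤ L) : Par where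
  s := s
  lam := lam
  L := L
  σ := -1
  r1 := 1
  hs := hs
  hlam := hlam
  hL := hL
  hσ := Or.inr rfl
  hr0 := le_rfl
  hr2 := by norm_num
  hrad := by
    have : (1 * (s + 1 + -1))^2 - 4 * -1 * (2 * s + 2) = s^2 + 8 * s + 8 := by ring
    rw [this]; positivity
  ht1 := by
    have e : (1 * (s + 1 + -1))^2 - 4 * -1 * (2 * s + 2) = s^2 + 8 * s + 8 := by ring
    rw [e]
    have h2 := Real.sq_sqrt (show (0:ℝ) ≤ 2 by norm_num)
    have hs2 : 0 < √2 := by positivity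
    have h3 : 2 * √2 - s < √(s^2 + 8 * s + 8) := by
      apply Real.lt_sqrt_of_sq_lt
      nlinarith [mul_pos hs hs2]
    linarith
  hC := by
    intro t ht1 ht2
    have e : (1 * (s + 1 + -1))^2 - 4 * -1 * (2 * s + 2) = s^2 + 8 * s + 8 := by ring
    rw [e] at ht2
    have h2 := Real.sq_sqrt (show (0:ℝ) ≤ 2 by norm_num)
    have hs2 : 0 < √2 := by positivity
    have hgt : 1 < √2 := by rw [Real.lt_sqrt (by norm_num)]; norm_num
    have ht : 1 < t := by linarith
    have ht0 : 0 < t := by linarith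
    have hS := Real.sq_sqrt (show 0 ≤ s^2 + 8 * s + 8 by positivity)
    have hS0 := Real.sqrt_nonneg (s^2 + 8 * s + 8)
    have hSs : s ≤ √(s^2 + 8 * s + 8) := by
      apply Real.le_sqrt_of_sq_le; nlinarith
    set S := √(s^2 + 8 * s + 8) with hSdef
    have hden : 0 < 2 * (s + 1 + -1) * t := by
      have : s + 1 + -1 = s := by ring
      rw [this]; positivity
    have key : t^2 - s * t - (2 * s + 2) ≤ 0 := by
      nlinarith [mul_nonneg (show 0 ≤ S - (2 * t - s) by linarith) (show 0 ≤ S + (2 * t - s) by linarith)]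
    constructor
    · rw [lt_div_iff₀ hden]
      nlinarith [mul_pos hs ht0]
    · rw [div_lt_one hden]
      have : 2 ≤ t^2 := by nlinarith
      nlinarith [mul_pos hs ht0]

noncomputable def LL (s : ℝ) : ℝ := 11 * (1 + 2 / s) * (1 + s)

lemma LL_ge {s : ℝ} (hs : 0 < s) : 1 ≤ LL s := by
  unfold LL
  have : 0 < 2 / s := by positivity
  nlinarith

lemma LL_sq {s : ℝ} (hs : 0 < s) : 16 * (1 + s) * (2 / s)^2 * Real.exp 2 ≤ (LL s)^2 := by
  unfold LL
  have h0 : 0 < 2 / s := by positivity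
  have h1 := exp_two_le
  generalize 2 / s = a at h0
  have h2 : 16 * (1 + s) * a^2 * Real.exp 2 ≤ 16 * (1 + s) * a^2 * 7.5 := by gcongr
  refine h2.trans ?_
  have h3 : a^2 ≤ (1 + a)^2 := by nlinarith
  have h4 : (1 + s) ≤ (1 + s)^2 := by nlinarith
  have h5 : (1 + s) * a^2 ≤ (1 + s)^2 * (1 + a)^2 := by gcongr
  nlinarith [mul_pos (show 0 < 1 + s by linarith) (pow_pos h0 2)]

lemma image_ball {f : ℂ ≃ₜ ℂ} {A B : Set ℂ} (h : ∀ z, z ∈ A ↔ f z ∈ B) : f '' A = B := by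
  ext w
  constructor
  · rintro ⟨z, hz, rfl⟩; exact (h z).mp hz
  · intro hw
    refine ⟨f.symm w, ?_, f.apply_symm_apply w⟩
    rw [h, f.apply_symm_apply]; exact hw

end Pool.Agent.R435.Cu
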