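import Pool.Agent.R435.Cu.Near

open Set Metric Filter Topology MeasureTheory Real
open scoped ENNReal NNReal

namespace Pool.Agent.R435.Cu

lemma cos_abs_arg (z : ℂ) : Real.cos |Complex.arg z| = Real.cos (Complex.arg z) := Real.cos_abs _

lemma arccos_cos_arg (z : ℂ) : Real.arccos (Real.cos (Complex.arg z)) = |Complex.arg z| := by
  rw [← cos_abs_arg, Real.arccos_cos (abs_nonneg _) (Complex.abs_arg_le_pi z)]

lemma lt_cos_iff {z : ℂ} {c : ℝ} (h : -1 < c ∧ c < 1) :
    (c < Real.cos (Complex.arg z) ↔ |Complex.arg z| < Real.arccos c) ∧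
    (Real.cos (Complex.arg z) < c ↔ Real.arccos c < |Complex.arg z|) := by
  have h1 : Real.cos (Complex.arg z) ∈ Icc (-1:ℝ) 1 := ⟨Real.neg_one_le_cos _, Real.cos_le_one _⟩
  have h2 : c ∈ Icc (-1:ℝ) 1 := ⟨h.1.le, h.2.le⟩
  rw [← arccos_cos_arg z]
  exact ⟨(Real.strictAntiOn_arccos.lt_iff_gt h1 h2).symm, (Real.strictAntiOn_arccos.lt_iff_gt h2 h1).symm⟩

lemma re_eq (z : ℂ) : z.re = ‖z‖ * Real.cos (Complex.arg z) := (Complex.norm_mul_cos_arg z).symm

namespace Par
variable (p : Par)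

lemma P_log' {z : ℂ} (hz : z ≠ 0) : Real.log ‖p.dat.P z‖ = p.tau (Real.log ‖z‖) := p.dat.P_log hz

lemma src {z : ℂ} (hz : z ≠ 0) (hx : Real.log ‖z‖ ≤ p.x1) :
    (p.σ * ‖z‖ / 2 < Real.cos (Complex.arg z) ↔ |Complex.arg (p.dat.P z)| < p.Th (Real.log ‖z‖)) ∧
    (Real.cos (Complex.arg z) < p.σ * ‖z‖ / 2 ↔ p.Th (Real.log ‖z‖) < |Complex.arg (p.dat.P z)|) := by
  have he : Real.exp (Real.log ‖z‖) = ‖z‖ := Real.exp_log (norm_pos_iff.mpr hz)
  have h1 := p.ex_lt hx
  have h2 := lt_cos_iff (z := z) h1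
  have h3 : Real.arccos (p.σ * Real.exp (Real.log ‖z‖) / 2) = p.Ph (Real.log ‖z‖) := by
    unfold Ph; rw [gl_le hx]; rfl
  rw [h3, he] at h2
  have h4 := p.dat.th_abs (x := Real.log ‖z‖) (Complex.neg_pi_lt_arg z) (Complex.arg_le_pi z)
  rw [← p.dat.P_arg hz] at h4
  refine ⟨h2.1.trans h4.1, ?_⟩
  rw [h2.2]
  have h5 := not_congr h4.2
  rw [not_le, not_le] at h5
  exact h5

lemma Th_ge {x : ℝ} (h1 : -p.L ≤ x) (h2 : x ≤ p.x1) : p.Th x = Real.arccos (p.cc (p.tau x)) := by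
  unfold Th tau
  rw [gl_le h2, gl_le h2, gl_ge p.th_match1 h1, gl_ge p.tau_match1 h1]; rfl

lemma tau_ge {x : ℝ} (h1 : -p.L ≤ x) (h2 : x ≤ p.x1) : p.tau x = p.tau2 x := by
  unfold tau
  rw [gl_le h2, gl_ge p.tau_match1 h1]

lemma far_case {z : ℂ} (hz : z ≠ 0) (hx : -p.L ≤ Real.log ‖z‖) :
    (p.σ * ‖z‖ / 2 < Real.cos (Complex.arg z) ↔
      p.cc (Real.log ‖p.dat.P z‖) < Real.cos (Complex.arg (p.dat.P z))) ∧
    (Real.cos (Complex.arg z) < p.σ * ‖z‖ / 2 ↔
      Real.cos (Complex.arg (p.dat.P z)) < p.cc (Real.log ‖p.dat.P z‖)) := by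
  rw [p.P_log' hz]
  rcases le_or_gt (Real.log ‖z‖) p.x1 with h | h
  · have h1 := p.src hz h
    rw [p.Th_ge hx h] at h1
    have h2 := p.tau2_range hx h
    have h3 := p.cc_bd h2.1 h2.2
    rw [← p.tau_ge hx h] at h3
    have h4 := lt_cos_iff (z := p.dat.P z) h3
    exact ⟨h1.1.trans h4.1.symm, h1.2.trans h4.2.symm⟩
  · have he : Real.exp (Real.log ‖z‖) = ‖z‖ := Real.exp_log (norm_pos_iff.mpr hz)
    have h1 : p.tau (Real.log ‖z‖) = Real.log (p.far ‖z‖) := by
      unfold tau; rw [gl_gt h]; unfold tau3; rw [he]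
    have h2 : p.r1 ≤ ‖z‖ := by
      rw [← p.exp_x1, ← he]; exact Real.exp_le_exp.mpr h.le
    rw [h1, p.cc_far h2]
    have h3 : Complex.arg (p.dat.P z) = Complex.arg z := by
      rw [p.dat.P_arg hz]
      have e1 : p.dat.Φ (Real.log ‖z‖) = p.ang := by
        show p.Ph _ = _; unfold Ph; rw [gl_gt h]
      have e2 : p.dat.Θ (Real.log ‖z‖) = p.ang := by
        show p.Th _ = _; unfold Th; rw [gl_gt h]
      have e3 : p.dat.aa (Real.log ‖z‖) = 1 := by
        unfold Dat.aa; rw [e1, e2]; exact div_self p.ang_range.1.ne'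
      have e4 : p.dat.bb (Real.log ‖z‖) = 1 := by
        unfold Dat.bb; rw [e1, e2]; exact div_self (by linarith [p.ang_range.2])
      unfold Dat.th; rw [e3, e4]; ring
    rw [h3]
    exact ⟨Iff.rfl, Iff.rfl⟩

lemma near_case {z : ℂ} (hz : z ≠ 0) (hx : Real.log ‖z‖ < -p.L) :
    (p.σ * ‖z‖ / 2 < Real.cos (Complex.arg z) ↔
      |Complex.arg (p.dat.P z)| < Real.arctan (p.uu (Real.log ‖z‖))) ∧
    (Real.cos (Complex.arg z) < p.σ * ‖z‖ / 2 ↔
      Real.arctan (p.uu (Real.log ‖z‖)) < |Complex.arg (p.dat.P z)|) := by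
  have h1 := p.src hz (hx.le.trans p.Lx1.le)
  rwa [p.Th_eq hx.le] at h1

/-- size of the image in the near case: `‖P z‖² = h²(1+u²)` with `u = h^s`, `0 < h < 1` -/
lemma near_norm {z : ℂ} (hz : z ≠ 0) (hx : Real.log ‖z‖ < -p.L) :
    ∃ h : ℝ, 0 < h ∧ h < 1 ∧ p.uu (Real.log ‖z‖) = h ^ p.s ∧
      ‖p.dat.P z‖^2 = h^2 * (1 + (h ^ p.s)^2) := by
  set x := Real.log ‖z‖ with hxdef
  have hneg : HH p.lam p.L (-x) < 0 := by
    have h2 := HH_le p.hlam p.hL (show p.L ≤ -x by linarith)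
    have hlog : 0 < Real.log (-x / p.L) := Real.log_pos (by
      rw [lt_div_iff₀ p.L0]; linarith)
    exact h2.trans_lt (by nlinarith [p.hlam])
  have hu : p.uu x = Real.exp (HH p.lam p.L (-x)) ^ p.s := by
    unfold uu; rw [← Real.exp_mul]; ring_nf
  refine ⟨Real.exp (HH p.lam p.L (-x)), Real.exp_pos _, by rw [← Real.exp_zero]; exact Real.exp_lt_exp.mpr hneg, hu, ?_⟩
  rw [← hu, p.dat.P_norm hz]
  have h1 : p.dat.τ (Real.log ‖z‖) = tau1 p.s p.lam p.L x := by
    show p.tau x = _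
    unfold tau
    rw [gl_le (hx.le.trans p.Lx1.le), gl_le hx.le]
  rw [h1]
  unfold tau1 uu
  set η := HH p.lam p.L (-x) with hη
  have h2 : Real.exp (Real.log (1 + Real.exp (2 * p.s * η))) = 1 + Real.exp (2 * p.s * η) :=
    Real.exp_log (by positivity)
  have h3 : Real.exp (2 * p.s * η) = (Real.exp (p.s * η))^2 := by
    rw [← Real.exp_nat_mul]; congr 1; push_cast; ring
  have h4 : (Real.exp (η + 1/2 * Real.log (1 + Real.exp (2 * p.s * η))))^2 =
      (Real.exp η)^2 * Real.exp (Real.log (1 + Real.exp (2 * p.s * η))) := by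
    rw [← Real.exp_nat_mul, ← Real.exp_nat_mul, ← Real.exp_add]
    congr 1; push_cast; ring
  rw [h4, h2, h3]

lemma far_norm {z : ℂ} (hz : z ≠ 0) (hx : -p.L ≤ Real.log ‖z‖) : 2 ≤ ‖p.dat.P z‖^2 := by
  rw [p.dat.P_norm hz]
  have h1 : 1/2 * Real.log 2 ≤ p.dat.τ (Real.log ‖z‖) := by
    have h2 := p.mono_tau.monotone hx
    have h3 := p.tau_ge le_rfl p.Lx1.le
    rw [h3] at h2
    have h4 := (p.tau2_range le_rfl p.Lx1.le).1
    exact h4.trans h2
  have h2 := Real.exp_le_exp.mpr h1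
  have h3 : (Real.exp (1/2 * Real.log 2))^2 = 2 := by
    rw [← Real.exp_nat_mul]
    push_cast
    rw [show (2:ℝ) * (1/2 * Real.log 2) = Real.log 2 by ring, Real.exp_log (by norm_num)]
  rw [← h3]
  exact pow_le_pow_left₀ (Real.exp_pos _).le h2 2

end Par

/-! ## the domains -/

/-- `Ω_s` -/
def OmDom (s : ℝ) : Set ℂ :=
  {z | 0 < z.re ∧ z.re < 1 ∧ |z.im| < z.re ^ (1 + s)} ∪ ball (((s + 2 : ℝ) : ℂ)) (√((s + 1)^2 + 1))

/-- `G_s` -/
def GDom (s : ℝ) : Set ℂ :=
  ball (((-s : ℝ) : ℂ)) (√((s + 1)^2 + 1)) \ {z | 0 ≤ z.re ∧ |z.im| ≤ z.re ^ (1 + s)}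

lemma norm_sq_eq (w : ℂ) : ‖w‖^2 = w.re^2 + w.im^2 := by
  rw [← Complex.normSq_eq_norm_sq, Complex.normSq_apply]; ring

lemma mem_ball_real (w : ℂ) (c R : ℝ) (hR : 0 < R) :
    w ∈ ball (c : ℂ) (√R) ↔ ‖w‖^2 - 2 * c * w.re + c^2 < R := by
  rw [mem_ball, dist_eq_norm, Real.lt_sqrt (norm_nonneg _), norm_sq_eq, norm_sq_eq]
  simp only [Complex.sub_re, Complex.ofReal_re, Complex.sub_im, Complex.ofReal_im, sub_zero]
  constructor <;> intro h <;> nlinarith

lemma mem_Om_ball {s : ℝ} (w : ℂ) : w ∈ ball (((s + 2 : ℝ) : ℂ)) (√((s + 1)^2 + 1)) ↔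
    ‖w‖^2 + (2 * s + 2) < 2 * (s + 2) * w.re := by
  rw [mem_ball_real _ _ _ (by positivity)]
  constructor <;> intro h <;> nlinarith

lemma mem_G_ball {s : ℝ} (w : ℂ) : w ∈ ball (((-s : ℝ) : ℂ)) (√((s + 1)^2 + 1)) ↔
    ‖w‖^2 + 2 * s * w.re < 2 * s + 2 := by
  rw [mem_ball_real _ _ _ (by positivity)]
  constructor <;> intro h <;> nlinarith

/-- `tan` description of the argument -/
lemma arg_arctan {w : ℂ} (hre : 0 < w.re) (u : ℝ) :
    (|Complex.arg w| < Real.arctan u ↔ |w.im| < u * w.re) ∧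
    (Real.arctan u < |Complex.arg w| ↔ u * w.re < |w.im|) := by
  have h1 : |Complex.arg w| < π / 2 := Complex.abs_arg_lt_pi_div_two_iff.mpr (Or.inl hre)
  have h2 : Real.tan |Complex.arg w| = |w.im| / w.re := by
    rcases abs_cases (Complex.arg w) with ⟨h, h'⟩ | ⟨h, h'⟩
    · rw [h, Complex.tan_arg, abs_of_nonneg (Complex.arg_nonneg_iff.mp h')]
    · rw [h, Real.tan_neg, Complex.tan_arg, abs_of_neg (Complex.arg_neg_iff.mp h')]; ring
  have h3 : Real.arctan (|w.im| / w.re) = |Complex.arg w| := by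
    rw [← h2, Real.arctan_tan (by linarith [abs_nonneg (Complex.arg w), Real.pi_pos]) h1]
  rw [← h3, Real.arctan_strictMono.lt_iff_lt, Real.arctan_strictMono.lt_iff_lt, div_lt_iff₀ hre,
    lt_div_iff₀ hre]
  exact ⟨Iff.rfl, Iff.rfl⟩

lemma arg_big {w : ℂ} (hw : w ≠ 0) (hre : w.re ≤ 0) (u : ℝ) : Real.arctan u < |Complex.arg w| := by
  have h1 : ¬ |Complex.arg w| < π / 2 := by
    rw [Complex.abs_arg_lt_pi_div_two_iff]
    push Not
    exact ⟨hre, hw⟩
  exact (Real.arctan_lt_pi_div_two u).trans_le (not_lt.mp h1)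

lemma rpow_split {x s : ℝ} (hx : 0 < x) : x ^ (1 + s) = x * x ^ s := by
  rw [Real.rpow_add hx, Real.rpow_one]

lemma Om_near {s : ℝ} (hs : 0 < s) {w : ℂ} (hw : w ≠ 0) {h : ℝ} (h0 : 0 < h) (h1 : h < 1)
    (hn : ‖w‖^2 = h^2 * (1 + (h ^ s)^2)) : w ∈ OmDom s ↔ |Complex.arg w| < Real.arctan (h ^ s) := by
  have hu0 : 0 < h ^ s := Real.rpow_pos_of_pos h0 s
  have hu1 : h ^ s < 1 := Real.rpow_lt_one h0.le h1 hs
  rw [norm_sq_eq] at hn
  -- key comparison
  have key : 0 < w.re → |w.im| < h ^ s * w.re ∨ w.re ≤ h := by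
    intro hre
    by_contra hcon
    push Not at hcon
    obtain ⟨c1, c2⟩ := hcon
    have c3 : (h ^ s * w.re)^2 ≤ w.im^2 := by
      rw [← sq_abs w.im]; exact pow_le_pow_left₀ (by positivity) c1 2
    have c4 : h^2 < w.re^2 := pow_lt_pow_left₀ c2 h0.le (by norm_num)
    nlinarith [sq_nonneg (h ^ s)]
  constructor
  · intro hmem
    have hcusp : (0 < w.re ∧ w.re < 1 ∧ |w.im| < w.re ^ (1 + s)) ∨ 1 ≤ w.re := by
      rcases hmem with hm | hm
      · exact Or.inl hm
      · rw [mem_Om_ball, norm_sq_eq] at hm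
        rcases lt_or_ge w.re 1 with hlt | hge
        · left
          have hpos : 0 < w.re := by
            by_contra hcon
            push Not at hcon
            nlinarith [sq_nonneg w.re, sq_nonneg w.im]
          refine ⟨hpos, hlt, ?_⟩
          have hB := one_add_mul_self_le_rpow_one_add (s := w.re - 1) (p := 2 + 2 * s)
            (by linarith) (by linarith)
          rw [show 1 + (w.re - 1) = w.re by ring] at hB
          have hsq : w.re ^ (2 + 2 * s) = (w.re ^ (1 + s))^2 := by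
            rw [← Real.rpow_natCast, ← Real.rpow_mul hpos.le]; congr 1; push_cast; ring
          rw [hsq] at hB
          apply abs_lt_of_sq_lt_sq _ (Real.rpow_nonneg hpos.le _)
          nlinarith [sq_nonneg (w.re - 1)]
        · exact Or.inr hge
    rcases hcusp with ⟨hpos, hlt, hm⟩ | hge
    · rw [(arg_arctan hpos _).1]
      rcases key hpos with hk | hk
      · exact hk
      · rw [rpow_split hpos] at hm
        have := Real.rpow_le_rpow hpos.le hk hs.le
        nlinarith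
    · have hpos : 0 < w.re := by linarith
      rw [(arg_arctan hpos _).1]
      rcases key hpos with hk | hk
      · exact hk
      · linarith
  · intro harg
    have hpos : 0 < w.re := by
      by_contra hcon
      push Not at hcon
      have := arg_big hw hcon (h ^ s)
      linarith
    rw [(arg_arctan hpos _).1] at harg
    have hgt : h < w.re := by
      by_contra hcon
      push Not at hcon
      have c3 : w.im^2 < (h ^ s * w.re)^2 := by
        rw [← sq_abs w.im]; exact pow_lt_pow_left₀ harg (abs_nonneg _) (by norm_num)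
      have c4 : w.re^2 ≤ h^2 := pow_le_pow_left₀ hpos.le hcon 2
      nlinarith [sq_nonneg (h ^ s)]
    rcases lt_or_ge w.re 1 with hlt | hge
    · left
      refine ⟨hpos, hlt, ?_⟩
      rw [rpow_split hpos]
      have := Real.rpow_lt_rpow h0.le hgt hs
      nlinarith
    · right
      rw [mem_Om_ball, norm_sq_eq, hn]
      have c1 : h^2 < 1 := by nlinarith
      have c2 : (h ^ s)^2 < 1 := by nlinarith
      nlinarith

lemma Om_far {s : ℝ} (hs : 0 < s) {w : ℂ} (hn : 2 ≤ ‖w‖^2) :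
    w ∈ OmDom s ↔ ‖w‖^2 + (2 * s + 2) < 2 * (s + 2) * w.re := by
  rw [← mem_Om_ball]
  constructor
  · rintro (⟨h1, h2, h3⟩ | h)
    · exfalso
      have h4 : w.re ^ (1 + s) ≤ 1 := Real.rpow_le_one h1.le h2.le (by linarith)
      have h5 : |w.im| < 1 := h3.trans_le h4
      have h6 : w.im^2 < 1 := by rw [← sq_abs]; nlinarith [abs_nonneg w.im]
      rw [norm_sq_eq] at hn
      nlinarith
    · exact h
  · intro h; exact Or.inr h

lemma G_near {s : ℝ} (hs : 0 < s) {w : ℂ} (hw : w ≠ 0) {h : ℝ} (h0 : 0 < h) (h1 : h < 1)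
    (hn : ‖w‖^2 = h^2 * (1 + (h ^ s)^2)) : w ∈ GDom s ↔ Real.arctan (h ^ s) < |Complex.arg w| := by
  have hu0 : 0 < h ^ s := Real.rpow_pos_of_pos h0 s
  have hu1 : h ^ s < 1 := Real.rpow_lt_one h0.le h1 hs
  have hn2 : ‖w‖^2 < 2 := by
    rw [hn]
    have c1 : h^2 < 1 := by nlinarith
    have c2 : (h ^ s)^2 < 1 := by nlinarith
    nlinarith
  have hiff : (¬ (0 ≤ w.re ∧ |w.im| ≤ w.re ^ (1 + s))) ↔ Real.arctan (h ^ s) < |Complex.arg w| := by
    rw [norm_sq_eq] at hn
    constructor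
    · intro hnot
      rcases le_or_gt w.re 0 with hre | hpos
      · exact arg_big hw hre _
      · rw [(arg_arctan hpos _).2]
        by_contra hcon
        push Not at hcon
        apply hnot
        refine ⟨hpos.le, ?_⟩
        have hge : h ≤ w.re := by
          by_contra hc
          push Not at hc
          have c3 : w.im^2 ≤ (h ^ s * w.re)^2 := by
            rw [← sq_abs w.im]; exact pow_le_pow_left₀ (abs_nonneg _) hcon 2
          have c4 : w.re^2 < h^2 := pow_lt_pow_left₀ hc hpos.le (by norm_num)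
          nlinarith [sq_nonneg (h ^ s)]
        rw [rpow_split hpos]
        have := Real.rpow_le_rpow h0.le hge hs.le
        nlinarith
    · rintro harg ⟨c1, c2⟩
      rcases eq_or_lt_of_le c1 with c0 | hpos
      · rw [← c0, Real.zero_rpow (by linarith)] at c2
        apply hw
        apply Complex.ext
        · exact c0.symm
        · exact abs_eq_zero.mp (le_antisymm c2 (abs_nonneg _))
      · rw [(arg_arctan hpos _).2] at harg
        have hlt : w.re < h := by
          by_contra hc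
          push Not at hc
          have c3 : (h ^ s * w.re)^2 < w.im^2 := by
            rw [← sq_abs w.im]; exact pow_lt_pow_left₀ harg (by positivity) (by norm_num)
          have c4 : h^2 ≤ w.re^2 := pow_le_pow_left₀ h0.le hc 2
          nlinarith [sq_nonneg (h ^ s)]
        rw [rpow_split hpos] at c2
        have := Real.rpow_lt_rpow hpos.le hlt hs
        nlinarith
  rw [← hiff]
  constructor
  · intro hm; exact hm.2
  · intro hnot
    refine ⟨?_, hnot⟩
    rw [mem_G_ball]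
    rcases lt_or_ge w.re 1 with hlt | hge
    · nlinarith
    · exfalso
      apply hnot
      refine ⟨by linarith, ?_⟩
      have c1 : (1:ℝ) ≤ w.re ^ (1 + s) := Real.one_le_rpow hge (by linarith)
      have c2 : |w.im| < 1 := by
        apply abs_lt_of_sq_lt_sq _ (by norm_num)
        rw [norm_sq_eq] at hn2
        nlinarith
      linarith

lemma G_far {s : ℝ} (hs : 0 < s) {w : ℂ} (hn : 2 ≤ ‖w‖^2) :
    w ∈ GDom s ↔ ‖w‖^2 + 2 * s * w.re < 2 * s + 2 := by
  rw [← mem_G_ball]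
  constructor
  · intro h; exact h.1
  · intro h
    refine ⟨h, ?_⟩
    rintro ⟨h1, h2⟩
    rw [mem_G_ball] at h
    have h3 : w.re < 1 := by nlinarith
    have h4 : w.re ^ (1 + s) ≤ 1 := Real.rpow_le_one h1 h3.le (by linarith)
    have h5 : |w.im| ≤ 1 := h2.trans h4
    have h6 : w.im^2 ≤ 1 := by rw [← sq_abs]; nlinarith [abs_nonneg w.im]
    rw [norm_sq_eq] at hn
    nlinarith

lemma mem_ball_one {z : ℂ} (hz : z ≠ 0) : z ∈ ball (1:ℂ) 1 ↔ 1 * ‖z‖ / 2 < Real.cos (Complex.arg z) := by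
  have h := mem_ball_real z 1 1 one_pos
  rw [Real.sqrt_one, Complex.ofReal_one] at h
  rw [h, re_eq z]
  have hp := norm_pos_iff.mpr hz
  constructor
  · intro h; nlinarith
  · intro h; nlinarith

lemma mem_ball_neg_one {z : ℂ} (hz : z ≠ 0) :
    z ∈ ball (-1:ℂ) 1 ↔ Real.cos (Complex.arg z) < -1 * ‖z‖ / 2 := by
  have h := mem_ball_real z (-1) 1 one_pos
  rw [Real.sqrt_one, Complex.ofReal_neg, Complex.ofReal_one] at h
  rw [h, re_eq z]
  have hp := norm_pos_iff.mpr hz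
  constructor
  · intro h; nlinarith
  · intro h; nlinarith

lemma zero_Om {s : ℝ} (hs : 0 < s) : (0:ℂ) ∉ OmDom s := by
  rintro (⟨h, _⟩ | h)
  · simp at h
  · rw [mem_Om_ball] at h
    simp at h; linarith

lemma zero_G {s : ℝ} : (0:ℂ) ∉ GDom s := by
  rintro ⟨_, h⟩
  apply h
  refine ⟨by simp, ?_⟩
  simp only [Complex.zero_im, abs_zero, Complex.zero_re]
  exact Real.rpow_nonneg le_rfl _

namespace Par
variable (p : Par)

theorem Om_iff (hσ : p.σ = 1) (z : ℂ) : z ∈ ball (1:ℂ) 1 ↔ p.dat.P z ∈ OmDom p.s := by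
  by_cases hz : z = 0
  · subst hz
    rw [p.dat.P_zero]
    constructor
    · intro h; simp at h
    · intro h; exact absurd h (zero_Om p.hs)
  · rw [mem_ball_one hz]
    rcases lt_or_ge (Real.log ‖z‖) (-p.L) with hx | hx
    · have h1 := (p.near_case hz hx).1
      rw [hσ] at h1
      obtain ⟨h, h0, hh1, hu, hn⟩ := p.near_norm hz hx
      rw [h1, hu, Om_near p.hs (p.dat.P_ne_zero hz) h0 hh1 hn]
    · have h1 := (p.far_case hz hx).1
      rw [hσ] at h1
      rw [h1, Om_far p.hs (p.far_norm hz hx)]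
      have hp : 0 < ‖p.dat.P z‖ := norm_pos_iff.mpr (p.dat.P_ne_zero hz)
      have hm := p.m_pos
      rw [p.cc_eq hp, re_eq (p.dat.P z), div_lt_iff₀ (by positivity)]
      have em : p.m = p.s + 2 := by unfold m; rw [hσ]; ring
      have en : p.n = 2 * p.s + 2 := rfl
      rw [em, en, hσ]
      constructor <;> intro h <;> nlinarith

theorem G_iff (hσ : p.σ = -1) (z : ℂ) : z ∈ ball (-1:ℂ) 1 ↔ p.dat.P z ∈ GDom p.s := by
  by_cases hz : z = 0
  · subst hz
    rw [p.dat.P_zero]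
    constructor
    · intro h; simp at h
    · intro h; exact absurd h zero_G
  · rw [mem_ball_neg_one hz]
    rcases lt_or_ge (Real.log ‖z‖) (-p.L) with hx | hx
    · have h1 := (p.near_case hz hx).2
      rw [hσ] at h1
      obtain ⟨h, h0, hh1, hu, hn⟩ := p.near_norm hz hx
      rw [h1, hu, G_near p.hs (p.dat.P_ne_zero hz) h0 hh1 hn]
    · have h1 := (p.far_case hz hx).2
      rw [hσ] at h1
      rw [h1, G_far p.hs (p.far_norm hz hx)]
      have hp : 0 < ‖p.dat.P z‖ := norm_pos_iff.mpr (p.dat.P_ne_zero hz)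
      have hm := p.m_pos
      rw [p.cc_eq hp, re_eq (p.dat.P z), lt_div_iff₀ (by positivity)]
      have em : p.m = p.s := by unfold m; rw [hσ]; ring
      have en : p.n = 2 * p.s + 2 := rfl
      rw [em, en, hσ]
      constructor <;> intro h <;> nlinarith

end Par

end Pool.Agent.R435.Cu
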