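import Pool.Agent.R435.Cu.Int

open Set Metric Filter Topology MeasureTheory Real
open scoped ENNReal NNReal

namespace Pool.Agent.R435.Cu

/-- gluing -/
noncomputable def gl (c : ℝ) (f g : ℝ → ℝ) (x : ℝ) : ℝ := if x ≤ c then f x else g x

section
variable {c : ℝ} {f g : ℝ → ℝ}

lemma gl_le {x : ℝ} (h : x ≤ c) : gl c f g x = f x := if_pos h
lemma gl_gt {x : ℝ} (h : c < x) : gl c f g x = g x := if_neg (not_le.mpr h)
lemma gl_ge (hfg : f c = g c) {x : ℝ} (h : c ≤ x) : gl c f g x = g x := by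
  rcases eq_or_lt_of_le h with h | h
  · rw [← h, gl_le le_rfl, hfg]
  · exact gl_gt h

lemma lipAt_of_deriv {df : ℝ → ℝ} {x : ℝ} (h : ∀ᶠ y in 𝓝 x, HasDerivAt f (df y) y)
    (hb : LB df (𝓝 x)) : LipAt f x := by
  obtain ⟨M, hM⟩ := hb
  obtain ⟨ε, hε, hball⟩ := Metric.eventually_nhds_iff_ball.mp (h.and hM)
  have hM0 : 0 ≤ M := (abs_nonneg _).trans (hball x (mem_ball_self hε)).2
  refine ⟨⟨M, hM0⟩, ball x ε, ball_mem_nhds x hε, ?_⟩
  apply Convex.lipschitzOnWith_of_nnnorm_hasDerivWithin_le (convex_ball x ε)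
    (f' := df) (fun y hy => (hball y hy).1.hasDerivWithinAt)
  intro y hy
  rw [← NNReal.coe_le_coe]
  exact (hball y hy).2

lemma gl_lip (h : f c = g c) (hf : ∀ x ≤ c, LipAt f x) (hg : ∀ x, c ≤ x → LipAt g x) (x : ℝ) :
    LipAt (gl c f g) x := by
  have e : gl c f g = fun x => f (min x c) + g (max x c) - g c := by
    funext x
    rcases le_or_gt x c with hx | hx
    · rw [gl_le hx, min_eq_left hx, max_eq_right hx]; ring
    · rw [gl_gt hx, min_eq_right hx.le, max_eq_left hx.le, h]; ring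
  rw [e]
  have hid : LipAt (fun y : ℝ => y) x := LipschitzWith.lipAt LipschitzWith.id x
  have h1 : LipAt (fun y : ℝ => f (min y c)) x :=
    LipAt.comp (g := f) (f := fun y => min y c) (hf _ (min_le_right _ _)) (hid.min (lipAt_const c))
  have h2 : LipAt (fun y : ℝ => g (max y c)) x :=
    LipAt.comp (g := g) (f := fun y => max y c) (hg _ (le_max_right _ _)) (hid.max (lipAt_const c))
  exact (h1.add h2).sub (lipAt_const _)

lemma gl_hd {df dg : ℝ → ℝ} {x : ℝ} (hx : x ≠ c) (hf : x < c → HasDerivAt f (df x) x)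
    (hg : c < x → HasDerivAt g (dg x) x) : HasDerivAt (gl c f g) (gl c df dg x) x := by
  rcases lt_or_gt_of_ne hx with h | h
  · rw [gl_le h.le]
    refine (hf h).congr_of_eventuallyEq ?_
    filter_upwards [gt_mem_nhds h] with y hy
    exact gl_le hy.le
  · rw [gl_gt h]
    refine (hg h).congr_of_eventuallyEq ?_
    filter_upwards [lt_mem_nhds h] with y hy
    exact gl_gt hy

lemma gl_LB (hf : ∀ x ≤ c, LB f (𝓝 x)) (hg : ∀ x, c ≤ x → LB g (𝓝 x)) (x : ℝ) : LB (gl c f g) (𝓝 x) := by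
  rcases lt_trichotomy x c with h | h | h
  · refine (hf x h.le).congr ?_
    filter_upwards [gt_mem_nhds h] with y hy
    exact (gl_le hy.le).symm
  · obtain ⟨M1, h1⟩ := hf x h.le
    obtain ⟨M2, h2⟩ := hg x h.ge
    refine ⟨max M1 M2, ?_⟩
    filter_upwards [h1, h2] with y hy1 hy2
    rcases le_or_gt y c with hy | hy
    · rw [gl_le hy]; exact hy1.trans (le_max_left _ _)
    · rw [gl_gt hy]; exact hy2.trans (le_max_right _ _)
  · refine (hg x h.le).congr ?_
    filter_upwards [lt_mem_nhds h] with y hy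
    exact (gl_gt hy).symm

lemma gl_mono (h : f c = g c) (hf : StrictMonoOn f (Iic c)) (hg : StrictMonoOn g (Ici c)) :
    StrictMono (gl c f g) := by
  apply StrictMonoOn.Iic_union_Ici (a := c)
  · intro x hx y hy hxy
    rw [gl_le hx, gl_le hy]; exact hf hx hy hxy
  · intro x hx y hy hxy
    rw [gl_ge h hx, gl_ge h hy]; exact hg hx hy hxy

lemma gl_mem {p : ℝ → Prop} (hf : ∀ x ≤ c, p (f x)) (hg : ∀ x, c < x → p (g x)) (x : ℝ) :
    p (gl c f g x) := by
  rcases le_or_gt x c with h | h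
  · rw [gl_le h]; exact hf x h
  · rw [gl_gt h]; exact hg x h

end

lemma cont_of_lipAt {f : ℝ → ℝ} (h : ∀ x, LipAt f x) : Continuous f :=
  continuous_iff_continuousAt.mpr fun x => (h x).continuousAt

lemma bdd_of_LB {f : ℝ → ℝ} (h : ∀ x, LB f (𝓝 x)) (hbot : LB f atBot) (A : ℝ) :
    ∃ M, ∀ x ≤ A, |f x| ≤ M := by
  obtain ⟨M0, h0⟩ := hbot
  obtain ⟨a, ha⟩ := eventually_atBot.mp h0
  have hc : ∃ M, ∀ x ∈ Icc a A, |f x| ≤ M := by
    refine isCompact_Icc.induction_on (p := fun s => ∃ M, ∀ x ∈ s, |f x| ≤ M) ⟨0, by simp⟩ ?_ ?_ ?_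
    · rintro s t hst ⟨M, hM⟩
      exact ⟨M, fun x hx => hM x (hst hx)⟩
    · rintro s t ⟨M1, h1⟩ ⟨M2, h2⟩
      refine ⟨max M1 M2, ?_⟩
      rintro x (hx | hx)
      · exact (h1 x hx).trans (le_max_left _ _)
      · exact (h2 x hx).trans (le_max_right _ _)
    · intro x _
      obtain ⟨M, hM⟩ := h x
      exact ⟨_, mem_nhdsWithin_of_mem_nhds hM, M, fun y hy => hy⟩
  obtain ⟨M1, h1⟩ := hc
  refine ⟨max M0 M1, fun x hx => ?_⟩
  rcases le_or_gt x a with h2 | h2
  · exact (ha x h2).trans (le_max_left _ _)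
  · exact (h1 x ⟨h2.le, hx⟩).trans (le_max_right _ _)

/-! ## elementary pieces -/

noncomputable def HH (lam L l : ℝ) : ℝ :=
  -lam * Real.log (l / L) + lam * ((1 + Real.log l) / l - (1 + Real.log L) / L)
noncomputable def H1 (lam l : ℝ) : ℝ := lam / l + lam * Real.log l / l^2

lemma HH_deriv {lam L x : ℝ} (hL : 0 < L) (hx : x < 0) :
    HasDerivAt (fun x => HH lam L (-x)) (H1 lam (-x)) x := by
  have hx' : 0 < -x := by linarith
  have h0 : HasDerivAt (fun l => HH lam L l) (-(H1 lam (-x))) (-x) := by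
    have h1 : HasDerivAt (fun l : ℝ => l / L) (1 / L) (-x) := (hasDerivAt_id (-x)).div_const L
    have h2 : HasDerivAt (fun l : ℝ => Real.log (l / L)) (1 / L / (-x / L)) (-x) :=
      h1.log (by positivity)
    have h3 : HasDerivAt (fun l : ℝ => (1 + Real.log l) / l)
      (((-x)⁻¹ * (-x) - (1 + Real.log (-x)) * 1) / (-x)^2) (-x) :=
      ((Real.hasDerivAt_log hx'.ne').const_add 1).div (hasDerivAt_id (-x)) hx'.ne'
    have h4 := (h2.const_mul (-lam)).add ((h3.sub_const ((1 + Real.log L) / L)).const_mul lam)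
    refine h4.congr_deriv ?_
    unfold H1
    generalize -x = y at hx'
    have := hx'.ne'
    field_simp
    ring
  have h5 := h0.comp x (hasDerivAt_neg x)
  refine h5.congr_deriv ?_
  ring

noncomputable def tau1 (s lam L x : ℝ) : ℝ :=
  HH lam L (-x) + 1/2 * Real.log (1 + Real.exp (2 * s * HH lam L (-x)))
noncomputable def dtau1 (s lam L x : ℝ) : ℝ :=
  H1 lam (-x) * (1 + s * (Real.exp (2 * s * HH lam L (-x)) / (1 + Real.exp (2 * s * HH lam L (-x)))))

lemma tau1_deriv {s lam L x : ℝ} (hL : 0 < L) (hx : x < 0) :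
    HasDerivAt (tau1 s lam L) (dtau1 s lam L x) x := by
  have h1 := HH_deriv (lam := lam) hL hx
  have h2 := ((h1.const_mul (2 * s)).exp.const_add 1).log (by positivity)
  have h3 := h1.add (h2.const_mul (1/2))
  refine h3.congr_deriv ?_
  unfold dtau1
  ring

noncomputable def th1 (s lam L x : ℝ) : ℝ := Real.arctan (Real.exp (s * HH lam L (-x)))
noncomputable def dth1 (s lam L x : ℝ) : ℝ :=
  s * Real.exp (s * HH lam L (-x)) / (1 + (Real.exp (s * HH lam L (-x)))^2) * H1 lam (-x)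

lemma th1_deriv {s lam L x : ℝ} (hL : 0 < L) (hx : x < 0) :
    HasDerivAt (th1 s lam L) (dth1 s lam L x) x := by
  have h1 := HH_deriv (lam := lam) hL hx
  have h2 := (h1.const_mul s).exp.arctan
  refine h2.congr_deriv ?_
  unfold dth1
  ring

lemma HH_cont {lam L x : ℝ} (hL : 0 < L) (hx : x < 0) :
    ContinuousAt (fun x => HH lam L (-x)) x := (HH_deriv hL hx).continuousAt

lemma H1_cont {lam x : ℝ} (hx : x < 0) : ContinuousAt (fun x => H1 lam (-x)) x := by
  unfold H1
  have h1 : ContinuousAt (fun x : ℝ => -x) x := continuous_neg.continuousAt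
  have h2 : ContinuousAt (fun x : ℝ => Real.log (-x)) x := h1.log (by linarith)
  exact (continuousAt_const.div h1 (by linarith)).add
    ((continuousAt_const.mul h2).div (h1.pow 2) (pow_ne_zero 2 (by linarith)))

lemma dtau1_cont {s lam L x : ℝ} (hL : 0 < L) (hx : x < 0) : ContinuousAt (dtau1 s lam L) x := by
  unfold dtau1
  have h1 := H1_cont (lam := lam) hx
  have h2 : ContinuousAt (fun x => Real.exp (2 * s * HH lam L (-x))) x :=
    (continuousAt_const.mul (HH_cont hL hx)).rexp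
  exact h1.mul (continuousAt_const.add (continuousAt_const.mul (h2.div (continuousAt_const.add h2)
    (by positivity))))

lemma dth1_cont {s lam L x : ℝ} (hL : 0 < L) (hx : x < 0) : ContinuousAt (dth1 s lam L) x := by
  unfold dth1
  have h1 := H1_cont (lam := lam) hx
  have h2 : ContinuousAt (fun x => Real.exp (s * HH lam L (-x))) x :=
    (continuousAt_const.mul (HH_cont hL hx)).rexp
  exact ((continuousAt_const.mul h2).div (continuousAt_const.add (h2.pow 2)) (by
    show 1 + (Real.exp (s * HH lam L (-x)))^2 ≠ 0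
    positivity)).mul h1

lemma H1_pos {lam l : ℝ} (hlam : 0 < lam) (hl : 1 ≤ l) : 0 < H1 lam l := by
  unfold H1
  have := Real.log_nonneg hl
  positivity

lemma dtau1_pos {s lam L x : ℝ} (hs : 0 < s) (hlam : 0 < lam) (hx : 1 ≤ -x) : 0 < dtau1 s lam L x := by
  unfold dtau1
  have := H1_pos hlam hx
  exact mul_pos this (by positivity)

end Pool.Agent.R435.Cu
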