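import Pool.Agent.R435.Cu.Reg

open Set Metric Filter Topology MeasureTheory Real
open scoped ENNReal NNReal

namespace Pool.Agent.R435.Cu

lemma tendsto_log_norm_zero : Tendsto (fun z : ℂ => Real.log ‖z‖) (𝓝[≠] 0) atBot := by
  apply Real.tendsto_log_nhdsGT_zero.comp
  rw [tendsto_nhdsWithin_iff]
  constructor
  · have : Tendsto (fun y : ℂ => ‖y‖) (𝓝 0) (𝓝 ‖(0:ℂ)‖) := continuous_norm.tendsto 0
    rw [norm_zero] at this
    exact this.mono_left nhdsWithin_le_nhds
  · filter_upwards [self_mem_nhdsWithin] with y hy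
    exact norm_pos_iff.mpr hy

lemma tendsto_log_norm {z : ℂ} (hz : z ≠ 0) :
    Tendsto (fun z : ℂ => Real.log ‖z‖) (𝓝 z) (𝓝 (Real.log ‖z‖)) :=
  (continuous_norm.continuousAt).log (norm_ne_zero_iff.mpr hz)

/-- bounded functions are locally integrable -/
lemma intAt_of_bdd {F : Type*} [NormedAddCommGroup F] {f : ℂ → F} (hf : AEStronglyMeasurable f) {z : ℂ} {M : ℝ}
    (h : ∀ᵐ y : ℂ, y ∈ ball z 1 → ‖f y‖ ≤ M ∨ False) : IntegrableAtFilter f (𝓝 z) := by
  refine ⟨ball z 1, ball_mem_nhds z one_pos, ?_⟩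
  apply Measure.integrableOn_of_bounded (M := M) measure_ball_lt_top.ne hf
  rw [ae_restrict_iff' measurableSet_ball]
  filter_upwards [h] with y hy hy2
  rcases hy hy2 with h | h
  · exact h
  · exact h.elim

lemma intAt_of_bdd' {F : Type*} [NormedAddCommGroup F] {f : ℂ → F} (hf : AEStronglyMeasurable f) {z : ℂ} {M : ℝ}
    {p : ℂ → Prop} (h : ∀ᶠ y in 𝓝 z, p y) (h2 : ∀ᵐ y : ℂ, p y → ‖f y‖ ≤ M) :
    IntegrableAtFilter f (𝓝 z) := by
  rw [Metric.eventually_nhds_iff_ball] at h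
  obtain ⟨ε, hε, h⟩ := h
  refine ⟨ball z ε, ball_mem_nhds z hε, ?_⟩
  apply Measure.integrableOn_of_bounded (M := M) measure_ball_lt_top.ne hf
  rw [ae_restrict_iff' measurableSet_ball]
  filter_upwards [h2] with y hy hy2
  exact hy (h y hy2)

/-- domination by an integrable function near zero -/
lemma intAt_zero_of_dom {F : Type*} [NormedAddCommGroup F] {f : ℂ → F} (hf : AEStronglyMeasurable f)
    {g : ℝ → ℝ} {p : ℝ → Prop} (hp : ∀ᶠ x in atBot, p x)
    (hg : ∃ r > 0, IntegrableOn (fun y : ℝ => y * g y) (Ioo 0 r))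
    (h2 : ∀ᵐ y : ℂ, p (Real.log ‖y‖) → ‖f y‖ ≤ g ‖y‖) :
    IntegrableAtFilter f (𝓝 (0:ℂ)) := by
  obtain ⟨r, hr, hg⟩ := hg
  have h3 : ∀ᶠ z : ℂ in 𝓝[≠] 0, p (Real.log ‖z‖) := tendsto_log_norm_zero.eventually hp
  rw [eventually_nhdsWithin_iff, Metric.eventually_nhds_iff_ball] at h3
  obtain ⟨ε, hε, h3⟩ := h3
  refine ⟨ball 0 (min r ε), ball_mem_nhds 0 (lt_min hr hε), ?_⟩
  have hI : IntegrableOn (fun x : ℂ => g ‖x‖) (ball (0:ℂ) (min r ε)) := by
    have := (integrableOn_fun_norm_addHaar (E := ℂ) volume (f := g) (r := min r ε)).mpr (by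
      simp only [Complex.finrank_real_complex, smul_eq_mul]
      norm_num
      exact hg.mono_set (Ioo_subset_Ioo_right (min_le_left _ _)))
    exact this
  refine Integrable.mono' hI hf.restrict ?_
  rw [ae_restrict_iff' measurableSet_ball]
  have h0 : ∀ᵐ z : ℂ, z ≠ 0 := by rw [ae_iff]; simp
  filter_upwards [h2, h0] with y hy hy0 hyb
  apply hy
  exact h3 y (ball_subset_ball (min_le_right _ _) hyb) hy0

lemma int_log : ∃ r > 0, IntegrableOn (fun y : ℝ => y * (1 / (y^2 * (Real.log y)^2))) (Ioo 0 r) := by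
  refine ⟨1/2, by norm_num, ?_⟩
  have hlog : ∀ x ∈ Ioc (0:ℝ) (1/2), Real.log x < 0 := by
    intro x hx
    exact Real.log_neg hx.1 (by linarith [hx.2])
  have hcont : ContinuousOn (fun x : ℝ => if x ≤ 0 then (0:ℝ) else -(1 / Real.log x)) (Icc 0 (1/2)) := by
    intro x hx
    rcases eq_or_lt_of_le hx.1 with h | h
    · rw [← h]
      apply ContinuousAt.continuousWithinAt
      rw [ContinuousAt]
      simp only [le_refl, if_true]
      have key : Tendsto (fun x : ℝ => if x ≤ 0 then (0:ℝ) else -(1 / Real.log x)) (𝓝[≤] 0 ⊔ 𝓝[>] 0)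
          (𝓝 0) := by
       rw [tendsto_sup]
       constructor
       · apply tendsto_const_nhds.congr'
         filter_upwards [self_mem_nhdsWithin] with y hy
         rw [if_pos (mem_Iic.mp hy)]
       · have h1 : Tendsto (fun x : ℝ => -(1 / Real.log x)) (𝓝[>] 0) (𝓝 0) := by
           have := (tendsto_inv_atBot_zero.comp Real.tendsto_log_nhdsGT_zero).neg
           rw [neg_zero] at this
           refine this.congr fun x => ?_
           simp
         apply h1.congr'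
         filter_upwards [self_mem_nhdsWithin] with y hy
         rw [if_neg (not_le.mpr hy)]
      rwa [nhdsLE_sup_nhdsGT] at key
    · apply ContinuousAt.continuousWithinAt
      have h1 : ContinuousAt (fun x : ℝ => -(1 / Real.log x)) x := by
        have := (hlog x ⟨h, hx.2⟩).ne
        have h2 : ContinuousAt Real.log x := Real.continuousAt_log h.ne'
        exact (continuousAt_const.div h2 this).neg
      refine h1.congr ?_
      filter_upwards [lt_mem_nhds h] with y hy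
      rw [if_neg (not_le.mpr hy)]
  have hderiv : ∀ x ∈ Ioo (0:ℝ) (1/2), HasDerivAt (fun x : ℝ => if x ≤ 0 then (0:ℝ) else -(1 / Real.log x))
      (x * (1 / (x^2 * (Real.log x)^2))) x := by
    intro x hx
    have hl := (hlog x ⟨hx.1, hx.2.le⟩).ne
    have h1 : HasDerivAt (fun x : ℝ => -(Real.log x)⁻¹) (-(-(x⁻¹) / (Real.log x)^2)) x :=
      ((Real.hasDerivAt_log hx.1.ne').inv hl).neg
    have h2 : -(-(x⁻¹) / (Real.log x)^2) = (x * (1 / (x^2 * (Real.log x)^2))) := by
      have := hx.1.ne'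
      field_simp
    rw [h2] at h1
    refine h1.congr_of_eventuallyEq ?_
    filter_upwards [lt_mem_nhds hx.1] with y hy
    rw [if_neg (not_le.mpr hy), one_div]
  have := intervalIntegral.integrableOn_deriv_of_nonneg hcont hderiv (by
    intro x hx
    have := hx.1
    positivity)
  exact this.mono_set Ioo_subset_Ioc_self

lemma int_inv : ∃ r > 0, IntegrableOn (fun y : ℝ => y * (1 / y)) (Ioo 0 r) := by
  refine ⟨1, one_pos, ?_⟩
  have : IntegrableOn (fun _ : ℝ => (1:ℝ)) (Ioo 0 1) := integrableOn_const (by simp)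
  refine this.congr_fun ?_ measurableSet_Ioo
  intro y hy
  have := hy.1.ne'
  simp only
  field_simp

lemma Kf_measurable (f : ℂ → ℂ) : Measurable (Kf f) := by
  unfold Kf
  have h1 : Measurable (fun z => (fderiv ℝ f z)) := measurable_fderiv ℝ f
  have h2 : Measurable (fun z => (fderiv ℝ f z).det) :=
    (ContinuousLinearMap.continuous_det (𝕜 := ℝ) (E := ℂ)).measurable.comp h1
  exact Measurable.ite (measurableSet_lt measurable_const h2) ((h1.norm.pow_const 2).div h2) measurable_const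

lemma det_le_norm_sq (A : ℂ →L[ℝ] ℂ) : A.det ≤ ‖A‖^2 := by
  rw [det_eq]
  have h1 : ‖A 1‖ ≤ ‖A‖ := by have := A.le_opNorm 1; simpa using this
  have h2 : ‖A Complex.I‖ ≤ ‖A‖ := by have := A.le_opNorm Complex.I; simpa using this
  have e1 : ‖A 1‖^2 = (A 1).re^2 + (A 1).im^2 := by
    rw [← Complex.normSq_eq_norm_sq, Complex.normSq_apply]; ring
  have e2 : ‖A Complex.I‖^2 = (A Complex.I).re^2 + (A Complex.I).im^2 := by
    rw [← Complex.normSq_eq_norm_sq, Complex.normSq_apply]; ring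
  have h3 : ‖A 1‖^2 ≤ ‖A‖^2 := pow_le_pow_left₀ (norm_nonneg _) h1 2
  have h4 : ‖A Complex.I‖^2 ≤ ‖A‖^2 := pow_le_pow_left₀ (norm_nonneg _) h2 2
  nlinarith [sq_nonneg ((A 1).re - (A Complex.I).im), sq_nonneg ((A Complex.I).re + (A 1).im)]

lemma Kf_ge (f : ℂ → ℂ) (z : ℂ) : 1 ≤ Kf f z := by
  unfold Kf
  split_ifs with h
  · rw [le_div_iff₀ h, one_mul]; exact det_le_norm_sq _
  · exact le_rfl

/-- local boundedness along a filter -/
def LB (f : ℝ → ℝ) (l : Filter ℝ) : Prop := ∃ M : ℝ, ∀ᶠ y in l, |f y| ≤ M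

section
variable {f g : ℝ → ℝ} {l : Filter ℝ}

lemma LB.add (hf : LB f l) (hg : LB g l) : LB (fun y => f y + g y) l := by
  obtain ⟨M, hM⟩ := hf
  obtain ⟨M', hM'⟩ := hg
  refine ⟨M + M', ?_⟩
  filter_upwards [hM, hM'] with y h1 h2
  exact (abs_add_le _ _).trans (add_le_add h1 h2)

lemma LB.neg (hf : LB f l) : LB (fun y => - f y) l := by
  obtain ⟨M, hM⟩ := hf
  refine ⟨M, ?_⟩
  filter_upwards [hM] with y h1
  rwa [abs_neg]

lemma LB.sub (hf : LB f l) (hg : LB g l) : LB (fun y => f y - g y) l := by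
  simpa [sub_eq_add_neg] using hf.add hg.neg

lemma LB.mul (hf : LB f l) (hg : LB g l) : LB (fun y => f y * g y) l := by
  obtain ⟨M, hM⟩ := hf
  obtain ⟨M', hM'⟩ := hg
  refine ⟨M * M', ?_⟩
  filter_upwards [hM, hM'] with y h1 h2
  rw [abs_mul]
  exact mul_le_mul h1 h2 (abs_nonneg _) ((abs_nonneg _).trans h1)

lemma LB.pow2 (hf : LB f l) : LB (fun y => (f y)^2) l := by
  simpa [sq] using hf.mul hf

lemma LB.const (c : ℝ) : LB (fun _ => c) l := ⟨|c|, Eventually.of_forall fun _ => le_rfl⟩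

lemma LB.of_bdd {M : ℝ} (h : ∀ y, |f y| ≤ M) : LB f l := ⟨M, Eventually.of_forall h⟩

lemma LB.of_cont {x : ℝ} (h : ContinuousAt f x) : LB f (𝓝 x) := by
  refine ⟨|f x| + 1, ?_⟩
  filter_upwards [h.abs.eventually (gt_mem_nhds (show |f x| < |f x| + 1 by linarith))] with y hy
  exact hy.le

lemma LB.congr (hf : LB f l) (h : ∀ᶠ y in l, f y = g y) : LB g l := by
  obtain ⟨M, hM⟩ := hf
  refine ⟨M, ?_⟩
  filter_upwards [hM, h] with y h1 h2
  rwa [← h2]

lemma LB.mono {l' : Filter ℝ} (hf : LB f l) (h : l' ≤ l) : LB f l' := by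
  obtain ⟨M, hM⟩ := hf
  exact ⟨M, h hM⟩

end

/-- quantitative control -/
structure Ctl {D : Dat} (R : Reg D) : Prop where
  loc : ∀ x, LB R.dτ (𝓝 x) ∧ LB R.dΦ (𝓝 x) ∧ LB R.dΘ (𝓝 x) ∧ LB (fun y => (R.dτ y)⁻¹) (𝓝 x)
  near : LB R.dτ atBot ∧ LB R.dΦ atBot ∧ LB R.dΘ atBot ∧ LB (fun y => (D.Φ y)⁻¹) atBot ∧
    LB (fun y => (π - D.Φ y)⁻¹) atBot

lemma LB_all {D : Dat} (R : Reg D) {l : Filter ℝ} (h2 : LB R.dΦ l) (h3 : LB R.dΘ l)
    (h4 : LB (fun y => (D.Φ y)⁻¹) l) (h5 : LB (fun y => (π - D.Φ y)⁻¹) l) :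
    LB D.aa l ∧ LB D.bb l ∧ LB R.daa l ∧ LB R.dbb l := by
  have hΦ : LB D.Φ l := LB.of_bdd (M := π) (fun y => by
    rw [abs_le]; constructor <;> linarith [D.Φ0 y, D.Φ1 y, Real.pi_pos])
  have hΘ : LB D.Θ l := LB.of_bdd (M := π) (fun y => by
    rw [abs_le]; constructor <;> linarith [D.Θ0 y, D.Θ1 y, Real.pi_pos])
  refine ⟨(hΘ.mul h4).congr (Eventually.of_forall fun y => by simp [Dat.aa, div_eq_mul_inv]),
    (((LB.const π).sub hΘ).mul h5).congr (Eventually.of_forall fun y => by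
      simp [Dat.bb, div_eq_mul_inv]),
    (((h3.mul hΦ).sub (hΘ.mul h2)).mul (h4.pow2)).congr (Eventually.of_forall fun y => by
      simp [Reg.daa, div_eq_mul_inv]),
    (((h3.neg.mul ((LB.const π).sub hΦ)).add (((LB.const π).sub hΘ).mul h2)).mul (h5.pow2)).congr
      (Eventually.of_forall fun y => by simp [Reg.dbb, div_eq_mul_inv])⟩

namespace Ctl
variable {D : Dat} {R : Reg D} (C : Ctl R)

include C in
lemma kloc (x : ℝ) : LB R.kin (𝓝 x) ∧ LB R.kout (𝓝 x) := by
  obtain ⟨h1, h2, h3, h0⟩ := C.loc x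
  have h4 : LB (fun y => (D.Φ y)⁻¹) (𝓝 x) := LB.of_cont ((D.Φc.continuousAt).inv₀ (D.Φ0 x).ne')
  have h5 : LB (fun y => (π - D.Φ y)⁻¹) (𝓝 x) :=
    LB.of_cont ((continuousAt_const.sub D.Φc.continuousAt).inv₀ (by
      show π - D.Φ x ≠ 0; linarith [D.Φ1 x]))
  have h6 : LB (fun y => (D.aa y)⁻¹) (𝓝 x) := by
    apply LB.of_cont
    have : ContinuousAt D.aa x := D.Θc.continuousAt.div D.Φc.continuousAt (D.Φ0 x).ne'
    exact this.inv₀ (D.aa_pos x).ne'
  have h7 : LB (fun y => (D.bb y)⁻¹) (𝓝 x) := by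
    apply LB.of_cont
    have : ContinuousAt D.bb x := (continuousAt_const.sub D.Θc.continuousAt).div
      (continuousAt_const.sub D.Φc.continuousAt) (by show π - D.Φ x ≠ 0; linarith [D.Φ1 x])
    exact this.inv₀ (D.bb_pos x).ne'
  obtain ⟨ha, hb, hda, hdb⟩ := LB_all R h2 h3 h4 h5
  constructor
  · refine (((h1.pow2.add ((LB.const π).mul hda).pow2).add ha.pow2).mul (h0.mul h6)).congr
      (Eventually.of_forall fun y => ?_)
    simp [Reg.kin, div_eq_mul_inv, mul_comm]
  · refine (((h1.pow2.add ((LB.const π).mul hdb).pow2).add hb.pow2).mul (h0.mul h7)).congr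
      (Eventually.of_forall fun y => ?_)
    simp [Reg.kout, div_eq_mul_inv, mul_comm]

include C in
lemma fderiv_locInt : LocallyIntegrable (fderiv ℝ D.P) := by
  have hm : AEStronglyMeasurable (fderiv ℝ D.P) volume :=
    (measurable_fderiv ℝ D.P).aestronglyMeasurable
  intro z
  by_cases hz : z = 0
  · subst hz
    obtain ⟨h1, h2, h3, h4, h5⟩ := C.near
    obtain ⟨ha, hb, hda, hdb⟩ := LB_all R h2 h3 h4 h5
    obtain ⟨M, hM⟩ := (h1.pow2.add (((LB.const π).mul hda).pow2.add ((LB.const π).mul hdb).pow2)).add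
      (ha.pow2.add hb.pow2)
    obtain ⟨r, hr, hint⟩ := int_inv
    have hτ : ∀ᶠ x in atBot, D.τ x ≤ 0 := D.τbot.eventually (eventually_le_atBot 0)
    refine intAt_zero_of_dom hm (g := fun y => Real.sqrt M * (1 / y)) (hM.and hτ) ⟨r, hr, ?_⟩ ?_
    · have : IntegrableOn (fun x => Real.sqrt M * (x * (1 / x))) (Ioo 0 r) := hint.const_mul (Real.sqrt M)
      refine this.congr_fun ?_ measurableSet_Ioo
      intro y _; simp only; ring
    · filter_upwards [R.ae_good] with y ⟨hy0, hyE, hyne⟩ hp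
      obtain ⟨hpM, hpτ⟩ := hp
      obtain ⟨_, _, hb3⟩ := R.good_bounds hy0 hyE hyne
      refine hb3.trans ?_
      have e1 : ‖D.P y‖ ≤ 1 := by rw [D.P_norm hy0]; exact Real.exp_le_one_iff.mpr hpτ
      have e2 := Real.sqrt_le_sqrt ((le_abs_self _).trans hpM)
      calc _ ≤ 1 * Real.sqrt M / ‖y‖ := by gcongr
        _ = _ := by ring
  · obtain ⟨K, t, ht, hK⟩ := R.P_lipAt hz
    refine intAt_of_bdd' hm (p := fun y => t ∈ 𝓝 y) (eventually_mem_nhds_iff.mpr ht) (M := K) ?_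
    refine Eventually.of_forall fun y hy => ?_
    exact norm_fderiv_le_of_lipschitzOn ℝ hy hK

include R in
lemma ae_diff : ∀ᵐ z : ℂ, DifferentiableAt ℝ D.P z := by
  filter_upwards [R.ae_good] with y ⟨hy0, hyE, hyne⟩
  obtain ⟨_, _, h, _⟩ := R.deriv_good hy0 hyE hyne
  exact h.differentiableAt

include R in
lemma det_locInt : LocallyIntegrable (fun z => (fderiv ℝ D.P z).det) := by
  have hm : Measurable (fun z => (fderiv ℝ D.P z).det) :=
    (ContinuousLinearMap.continuous_det (𝕜 := ℝ) (E := ℂ)).measurable.comp (measurable_fderiv ℝ D.P)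
  intro z
  refine ⟨ball z 1, ball_mem_nhds z one_pos, ?_⟩
  set s := ball z 1 ∩ {y | DifferentiableAt ℝ D.P y} with hs
  have hsm : MeasurableSet s := measurableSet_ball.inter (measurableSet_of_differentiableAt ℝ D.P)
  have hae : ball z 1 =ᵐ[volume] s := by
    have h0 := ae_diff (R := R)
    filter_upwards [h0] with y hy
    apply propext
    show y ∈ ball z 1 ↔ y ∈ s
    rw [hs]
    exact ⟨fun h => ⟨h, hy⟩, fun h => h.1⟩
  rw [IntegrableOn, Measure.restrict_congr_set hae]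
  refine ⟨hm.aestronglyMeasurable, ?_⟩
  rw [hasFiniteIntegral_iff_norm]
  have hkey := lintegral_abs_det_fderiv_eq_addHaar_image volume hsm
    (f := D.P) (f' := fderiv ℝ D.P) (fun x hx => hx.2.hasFDerivAt.hasFDerivWithinAt)
    (D.homeo.injective.injOn)
  simp only [Real.norm_eq_abs]
  rw [hkey]
  have hsub : D.P '' s ⊆ D.P '' closedBall z 1 :=
    image_mono (inter_subset_left.trans ball_subset_closedBall)
  exact (measure_mono hsub).trans_lt (((isCompact_closedBall z 1).image D.P_cont).measure_lt_top)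

include C in
lemma exp_locInt {lam : ℝ} (hlam : 0 ≤ lam)
    (h2 : ∃ C : ℝ, ∀ᶠ x in atBot, lam * R.kin x ≤ -2 * x - 2 * Real.log (-x) + C ∧
      lam * R.kout x ≤ -2 * x - 2 * Real.log (-x) + C) :
    LocallyIntegrable (fun z => Real.exp (lam * Kf D.P z)) := by
  have hm : AEStronglyMeasurable (fun z => Real.exp (lam * Kf D.P z)) volume :=
    (Real.measurable_exp.comp ((Kf_measurable D.P).const_mul lam)).aestronglyMeasurable
  intro z
  by_cases hz : z = 0
  · subst hz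
    obtain ⟨B, hB⟩ := h2
    obtain ⟨r, hr, hint⟩ := int_log
    have hneg : ∀ᶠ x : ℝ in atBot, x < 0 := eventually_lt_atBot 0
    refine intAt_zero_of_dom hm (g := fun y => Real.exp B * (1 / (y^2 * (Real.log y)^2)))
      (hB.and hneg) ⟨r, hr, ?_⟩ ?_
    · have : IntegrableOn (fun x => Real.exp B * (x * (1 / (x^2 * (Real.log x)^2)))) (Ioo 0 r) :=
        hint.const_mul (Real.exp B)
      refine this.congr_fun ?_ measurableSet_Ioo
      intro y _; simp only; ring
    · filter_upwards [R.ae_good] with y ⟨hy0, hyE, hyne⟩ hp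
      obtain ⟨⟨hp1, hp2⟩, hp3⟩ := hp
      obtain ⟨_, hb, _⟩ := R.good_bounds hy0 hyE hyne
      have hK : lam * Kf D.P y ≤ -2 * Real.log ‖y‖ - 2 * Real.log (-Real.log ‖y‖) + B := by
        rcases hb with ⟨_, hb⟩ | ⟨_, hb⟩
        · exact (mul_le_mul_of_nonneg_left hb hlam).trans hp1
        · exact (mul_le_mul_of_nonneg_left hb hlam).trans hp2
      rw [Real.norm_eq_abs, abs_of_pos (Real.exp_pos _)]
      refine (Real.exp_le_exp.mpr hK).trans (le_of_eq ?_)
      have hy := norm_pos_iff.mpr hy0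
      have e1 : Real.exp (-2 * Real.log ‖y‖) = 1 / ‖y‖^2 := by
        rw [show -2 * Real.log ‖y‖ = -(Real.log (‖y‖^2)) by rw [Real.log_pow]; ring,
          Real.exp_neg, Real.exp_log (by positivity), one_div]
      have e2 : Real.exp (- (2 * Real.log (-Real.log ‖y‖))) = 1 / (Real.log ‖y‖)^2 := by
        rw [show -(2 * Real.log (-Real.log ‖y‖)) = -(Real.log ((-Real.log ‖y‖)^2)) by
          rw [Real.log_pow]; ring,
          Real.exp_neg, Real.exp_log (by have : 0 < -Real.log ‖y‖ := by linarith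
                                         positivity), one_div, neg_sq]
      rw [Real.exp_add, sub_eq_add_neg, Real.exp_add, e1, e2]
      ring
  · obtain ⟨⟨M1, hM1⟩, ⟨M2, hM2⟩⟩ := C.kloc (Real.log ‖z‖)
    refine intAt_of_bdd' hm (p := fun y => |R.kin (Real.log ‖y‖)| ≤ M1 ∧ |R.kout (Real.log ‖y‖)| ≤ M2)
      (((tendsto_log_norm hz).eventually hM1).and ((tendsto_log_norm hz).eventually hM2))
      (M := Real.exp (lam * max M1 M2)) ?_
    filter_upwards [R.ae_good] with y ⟨hy0, hyE, hyne⟩ ⟨hp1, hp2⟩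
    obtain ⟨_, hb, _⟩ := R.good_bounds hy0 hyE hyne
    rw [Real.norm_eq_abs, abs_of_pos (Real.exp_pos _)]
    apply Real.exp_le_exp.mpr
    apply mul_le_mul_of_nonneg_left _ hlam
    rcases hb with ⟨_, hb⟩ | ⟨_, hb⟩
    · exact hb.trans (((le_abs_self _).trans hp1).trans (le_max_left _ _))
    · exact hb.trans (((le_abs_self _).trans hp2).trans (le_max_right _ _))

end Ctl

end Pool.Agent.R435.Cu
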