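import Pool.Agent.R435.Cu.Polar

open Set Metric Filter Topology MeasureTheory Real
open scoped ENNReal NNReal

namespace Pool.Agent.R435.Cu

/-! ## linear algebra -/

noncomputable def N (p y w : ℝ) : ℂ →L[ℝ] ℂ :=
  Complex.ofRealCLM.comp (p • Complex.reCLM) +
   (ContinuousLinearMap.mul ℝ ℂ Complex.I).comp
    (Complex.ofRealCLM.comp (y • Complex.reCLM + w • Complex.imCLM))

lemma N_apply (p y w : ℝ) (h : ℂ) :
    N p y w h = ((p * h.re : ℝ) : ℂ) + Complex.I * ((y * h.re + w * h.im : ℝ) : ℂ) := by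
  simp [N]; ring

noncomputable def LG (c z : ℂ) (A : ℂ →L[ℝ] ℂ) : ℂ →L[ℝ] ℂ :=
  (ContinuousLinearMap.mul ℝ ℂ c).comp (A.comp (ContinuousLinearMap.mul ℝ ℂ z⁻¹))

lemma LG_apply (c z : ℂ) (A : ℂ →L[ℝ] ℂ) (h : ℂ) : LG c z A h = c * A (z⁻¹ * h) := rfl

lemma N_norm_sq (p y w : ℝ) (h : ℂ) : ‖N p y w h‖^2 ≤ (p^2 + y^2 + w^2) * ‖h‖^2 := by
  have h1 : ‖N p y w h‖^2 = (p * h.re)^2 + (y * h.re + w * h.im)^2 := by
    rw [N_apply, ← Complex.normSq_eq_norm_sq, Complex.normSq_apply]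
    simp; ring
  have h2 : ‖h‖^2 = h.re^2 + h.im^2 := by
    rw [← Complex.normSq_eq_norm_sq, Complex.normSq_apply]; ring
  rw [h1, h2]
  nlinarith [sq_nonneg (y * h.im - w * h.re), sq_nonneg (p * h.im)]

lemma N_norm (p y w : ℝ) : ‖N p y w‖ ≤ Real.sqrt (p^2 + y^2 + w^2) := by
  apply ContinuousLinearMap.opNorm_le_bound _ (Real.sqrt_nonneg _)
  intro h
  have h1 := N_norm_sq p y w h
  have h2 := Real.sqrt_le_sqrt h1
  rw [Real.sqrt_sq (norm_nonneg _), Real.sqrt_mul (by positivity), Real.sqrt_sq (norm_nonneg _)] at h2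
  exact h2

lemma LG_norm (c z : ℂ) (p y w : ℝ) :
    ‖LG c z (N p y w)‖ ≤ ‖c‖ * Real.sqrt (p^2 + y^2 + w^2) / ‖z‖ := by
  apply ContinuousLinearMap.opNorm_le_bound _ (by positivity)
  intro h
  rw [LG_apply, norm_mul]
  have h1 := ((N p y w).le_opNorm (z⁻¹ * h)).trans
    (mul_le_mul_of_nonneg_right (N_norm p y w) (norm_nonneg _))
  rw [norm_mul, norm_inv] at h1
  calc ‖c‖ * ‖N p y w (z⁻¹ * h)‖ ≤ ‖c‖ * (Real.sqrt (p^2 + y^2 + w^2) * (‖z‖⁻¹ * ‖h‖)) := by gcongr
    _ = _ := by ring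

lemma LG_norm_sq (c z : ℂ) (p y w : ℝ) :
    ‖LG c z (N p y w)‖^2 ≤ ‖c‖^2 * (p^2 + y^2 + w^2) / ‖z‖^2 := by
  have h := LG_norm c z p y w
  calc ‖LG c z (N p y w)‖^2 ≤ (‖c‖ * Real.sqrt (p^2 + y^2 + w^2) / ‖z‖)^2 := by gcongr
    _ = _ := by rw [div_pow, mul_pow, Real.sq_sqrt (by positivity)]

lemma det_eq (A : ℂ →L[ℝ] ℂ) :
    A.det = (A 1).re * (A Complex.I).im - (A Complex.I).re * (A 1).im := by
  rw [ContinuousLinearMap.det, ← LinearMap.det_toMatrix Complex.basisOneI, Matrix.det_fin_two]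
  simp [LinearMap.toMatrix_apply, Complex.basisOneI]

lemma LG_det (c z : ℂ) (hz : z ≠ 0) (p y w : ℝ) :
    (LG c z (N p y w)).det = ‖c‖^2 * (p * w) / ‖z‖^2 := by
  have hn : ‖z‖^2 ≠ 0 := by
    have := norm_pos_iff.mpr hz; positivity
  have hc : ‖c‖^2 = c.re^2 + c.im^2 := by
    rw [← Complex.normSq_eq_norm_sq, Complex.normSq_apply]; ring
  have hzi : (z⁻¹).re^2 + (z⁻¹).im^2 = 1 / ‖z‖^2 := by
    have : (z⁻¹).re^2 + (z⁻¹).im^2 = ‖z⁻¹‖^2 := by
      rw [← Complex.normSq_eq_norm_sq, Complex.normSq_apply]; ring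
    rw [this, norm_inv, inv_pow, one_div]
  rw [det_eq, LG_apply, LG_apply, N_apply, N_apply]
  simp only [mul_one, Complex.mul_re, Complex.mul_im, Complex.add_re, Complex.add_im,
    Complex.ofReal_re, Complex.ofReal_im, Complex.I_re, Complex.I_im]
  rw [hc, mul_div_assoc, mul_div_assoc]
  have h2 : w / ‖z‖^2 = w * ((z⁻¹).re^2 + (z⁻¹).im^2) := by rw [hzi]; ring
  rw [h2]; ring

/-! ## derivative in charts -/

lemma hasFDerivAt_chart {g : ℂ → ℂ} {A : ℂ →L[ℝ] ℂ} {z : ℂ} (hg : HasFDerivAt g A (Complex.log z))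
    (hz : z ∈ Complex.slitPlane) :
    HasFDerivAt (fun y => Complex.exp (g (Complex.log y))) (LG (Complex.exp (g (Complex.log z))) z A) z := by
  have h1 : HasFDerivAt Complex.log (ContinuousLinearMap.mul ℝ ℂ z⁻¹) z := by
    refine (((Complex.hasDerivAt_log hz).hasFDerivAt).restrictScalars ℝ).congr_fderiv ?_
    apply ContinuousLinearMap.ext; intro h; simp [mul_comm]
  have h2 : HasFDerivAt Complex.exp (ContinuousLinearMap.mul ℝ ℂ (Complex.exp (g (Complex.log z))))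
      (g (Complex.log z)) := by
    refine (((Complex.hasDerivAt_exp (g (Complex.log z))).hasFDerivAt).restrictScalars ℝ).congr_fderiv ?_
    apply ContinuousLinearMap.ext; intro h; simp [mul_comm]
  exact h2.comp z (hg.comp z h1)

/-- derivative of `w ↦ τ(re w) + α(re w) (im w) i` -/
lemma hasFDerivAt_G {τ α : ℝ → ℝ} {w : ℂ} {p a' : ℝ} (h1 : HasDerivAt τ p w.re)
    (h2 : HasDerivAt α a' w.re) :
    HasFDerivAt (fun u : ℂ => (τ u.re : ℂ) + ((α u.re * u.im : ℝ) : ℂ) * Complex.I)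
      (N p (a' * w.im) (α w.re)) w := by
  have hre : HasFDerivAt (fun u : ℂ => u.re) Complex.reCLM w := Complex.reCLM.hasFDerivAt
  have him : HasFDerivAt (fun u : ℂ => u.im) Complex.imCLM w := Complex.imCLM.hasFDerivAt
  have hof : ∀ x : ℝ, HasFDerivAt (fun u : ℝ => (u:ℂ)) Complex.ofRealCLM x :=
    fun x => Complex.ofRealCLM.hasFDerivAt
  have a1 : HasFDerivAt (fun u : ℂ => τ u.re) (p • Complex.reCLM) w := h1.comp_hasFDerivAt w hre
  have a2 : HasFDerivAt (fun u : ℂ => α u.re) (a' • Complex.reCLM) w := h2.comp_hasFDerivAt w hre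
  have a3 : HasFDerivAt (fun u : ℂ => α u.re * u.im)
      (α w.re • Complex.imCLM + w.im • (a' • Complex.reCLM)) w := a2.mul him
  have a4 := (hof (τ w.re)).comp w a1
  have a5 := (hof (α w.re * w.im)).comp w a3
  have a6 := a4.add (a5.mul_const Complex.I)
  have a7 : HasFDerivAt (fun u : ℂ => (τ u.re : ℂ) + ((α u.re * u.im : ℝ) : ℂ) * Complex.I)
    (Complex.ofRealCLM.comp (p • Complex.reCLM) +
      Complex.I • Complex.ofRealCLM.comp (α w.re • Complex.imCLM + w.im • (a' • Complex.reCLM))) w := a6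
  refine a7.congr_fderiv ?_
  apply ContinuousLinearMap.ext; intro h
  simp [N]; ring

namespace Dat

variable (D : Dat)

lemma deriv_inner {z : ℂ} (hz : z ≠ 0) (h : |Complex.arg z| < D.Φ (Real.log ‖z‖)) {p a' : ℝ}
    (h1 : HasDerivAt D.τ p (Real.log ‖z‖)) (h2 : HasDerivAt D.aa a' (Real.log ‖z‖)) :
    HasFDerivAt D.P (LG (D.P z) z (N p (a' * Complex.arg z) (D.aa (Real.log ‖z‖)))) z := by
  have hsl : z ∈ Complex.slitPlane := by
    rw [Complex.mem_slitPlane_iff_arg]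
    refine ⟨fun h' => ?_, hz⟩
    rw [h', abs_of_pos Real.pi_pos] at h
    linarith [D.Φ1 (Real.log ‖z‖)]
  have hG : HasFDerivAt (fun u : ℂ => (D.τ u.re : ℂ) + ((D.aa u.re * u.im : ℝ) : ℂ) * Complex.I)
      (N p (a' * Complex.arg z) (D.aa (Real.log ‖z‖))) (Complex.log z) := by
    have := hasFDerivAt_G (τ := D.τ) (α := D.aa) (w := Complex.log z) (p := p) (a' := a')
      (by rw [Complex.log_re]; exact h1) (by rw [Complex.log_re]; exact h2)
    rw [Complex.log_im, Complex.log_re] at this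
    exact this
  have hch := hasFDerivAt_chart hG hsl
  have hval : D.P z = Complex.exp ((fun u : ℂ => (D.τ u.re : ℂ) +
      ((D.aa u.re * u.im : ℝ) : ℂ) * Complex.I) (Complex.log z)) := by
    rw [D.P_ne hz, D.th_in h.le]
    simp only [Complex.log_re, Complex.log_im]
  rw [← hval] at hch
  refine hch.congr_of_eventuallyEq ?_
  have hc : ContinuousAt (fun y : ℂ => D.Φ (Real.log ‖y‖) - |Complex.arg y|) z := by
    have h3 : ContinuousAt (fun y : ℂ => Real.log ‖y‖) z :=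
      (continuous_norm.continuousAt).log (norm_ne_zero_iff.mpr hz)
    exact (D.Φc.continuousAt.comp h3).sub (Complex.continuousAt_arg hsl).abs
  filter_upwards [hc.eventually (lt_mem_nhds (show 0 < D.Φ (Real.log ‖z‖) - |Complex.arg z| by linarith)),
    isOpen_compl_singleton.mem_nhds hz] with y hy hy0
  rw [D.P_ne hy0, D.th_in (by linarith)]
  simp only [Complex.log_re, Complex.log_im]

lemma deriv_outer {z : ℂ} (hz : z ≠ 0) (h : D.Φ (Real.log ‖z‖) < |Complex.arg z|) {p b' : ℝ}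
    (h1 : HasDerivAt D.τ p (Real.log ‖z‖)) (h2 : HasDerivAt D.bb b' (Real.log ‖z‖)) :
    HasFDerivAt D.P (LG (D.P z) z (N p (b' * Complex.arg (-z)) (D.bb (Real.log ‖z‖)))) z := by
  have hz' : -z ≠ 0 := neg_ne_zero.mpr hz
  have hsl : -z ∈ Complex.slitPlane := by
    rw [Complex.mem_slitPlane_iff_arg]
    refine ⟨fun h' => ?_, hz'⟩
    have h3 := abs_arg_neg hz
    rw [h', abs_of_pos Real.pi_pos] at h3
    linarith [D.Φ0 (Real.log ‖z‖)]
  have hG : HasFDerivAt (fun u : ℂ => (D.τ u.re : ℂ) + ((D.bb u.re * u.im : ℝ) : ℂ) * Complex.I)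
      (N p (b' * Complex.arg (-z)) (D.bb (Real.log ‖z‖))) (Complex.log (-z)) := by
    have := hasFDerivAt_G (τ := D.τ) (α := D.bb) (w := Complex.log (-z)) (p := p) (a' := b')
      (by rw [Complex.log_re, norm_neg]; exact h1) (by rw [Complex.log_re, norm_neg]; exact h2)
    rw [Complex.log_im, Complex.log_re, norm_neg] at this
    exact this
  have hch := hasFDerivAt_chart hG hsl
  have hval : D.P z = -Complex.exp ((fun u : ℂ => (D.τ u.re : ℂ) +
      ((D.bb u.re * u.im : ℝ) : ℂ) * Complex.I) (Complex.log (-z))) := by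
    rw [D.P_outer hz h.le]
    simp only [Complex.log_re, Complex.log_im, norm_neg]
  have hneg : HasFDerivAt (fun y : ℂ => -y) (-(ContinuousLinearMap.id ℝ ℂ)) z := (hasFDerivAt_id z).neg
  have hcomp := (hch.comp z hneg).neg
  have hA : LG (D.P z) z (N p (b' * Complex.arg (-z)) (D.bb (Real.log ‖z‖))) =
      -((LG (Complex.exp ((fun u : ℂ => (D.τ u.re : ℂ) +
      ((D.bb u.re * u.im : ℝ) : ℂ) * Complex.I) (Complex.log (-z)))) (-z)
        (N p (b' * Complex.arg (-z)) (D.bb (Real.log ‖z‖)))).comp (-(ContinuousLinearMap.id ℝ ℂ))) := by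
    rw [hval]
    apply ContinuousLinearMap.ext
    intro h
    simp only [LG_apply, neg_apply, ContinuousLinearMap.comp_apply,
      ContinuousLinearMap.id_apply]
    rw [show (-z)⁻¹ * -h = z⁻¹ * h by rw [inv_neg]; ring]
    ring
  rw [hA]
  refine hcomp.congr_of_eventuallyEq ?_
  have hc : ContinuousAt (fun y : ℂ => (π - |Complex.arg (-y)|) - D.Φ (Real.log ‖y‖)) z := by
    have h3 : ContinuousAt (fun y : ℂ => Real.log ‖y‖) z :=
      (continuous_norm.continuousAt).log (norm_ne_zero_iff.mpr hz)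
    have h4 : ContinuousAt (fun y : ℂ => Complex.arg (-y)) z :=
      (Complex.continuousAt_arg hsl).comp (f := fun y : ℂ => -y) continuous_neg.continuousAt
    exact (continuousAt_const.sub h4.abs).sub (D.Φc.continuousAt.comp h3)
  have hpos : 0 < (π - |Complex.arg (-z)|) - D.Φ (Real.log ‖z‖) := by
    rw [abs_arg_neg hz]; linarith
  filter_upwards [hc.eventually (lt_mem_nhds hpos), isOpen_compl_singleton.mem_nhds hz] with y hy hy0
  have h5 := abs_arg_neg (z := y) hy0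
  show D.P y = - Complex.exp ((D.τ (Complex.log (-y)).re : ℂ) +
    ((D.bb (Complex.log (-y)).re * (Complex.log (-y)).im : ℝ) : ℂ) * Complex.I)
  rw [D.P_outer hy0 (by linarith), Complex.log_re, Complex.log_im, norm_neg]

end Dat

end Pool.Agent.R435.Cu
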