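import Pool.Agent.R435.Cu.Build

open Set Metric Filter Topology MeasureTheory Real
open scoped ENNReal NNReal

namespace Pool.Agent.R435.Cu

lemma LB.of_tendsto {f : ℝ → ℝ} {l : Filter ℝ} {a : ℝ} (h : Tendsto f l (𝓝 a)) : LB f l := by
  refine ⟨|a| + 1, ?_⟩
  filter_upwards [h.abs.eventually (gt_mem_nhds (show |a| < |a| + 1 by linarith))] with y hy
  exact hy.le

lemma H1_bd {lam l : ℝ} (hlam : 0 < lam) (hl : 1 ≤ l) : lam / l ≤ H1 lam l ∧ H1 lam l ≤ 2 * lam / l := by
  have hl0 : 0 < l := by linarith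
  have h1 := Real.log_nonneg hl
  have h2 := Real.log_le_sub_one_of_pos hl0
  unfold H1
  constructor
  · have : 0 ≤ lam * Real.log l / l^2 := by positivity
    linarith
  · have h3 : lam * Real.log l / l^2 ≤ lam / l := by
      rw [div_le_div_iff₀ (by positivity) hl0]
      nlinarith [mul_pos hlam hl0]
    have h4 : 2 * lam / l = lam / l + lam / l := by ring
    linarith

lemma arctan_bd {u : ℝ} (h0 : 0 < u) (h1 : u ≤ 1) : u / 2 ≤ Real.arctan u ∧ Real.arctan u ≤ u := by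
  constructor
  · rw [Real.arctan_eq_arcsin]
    have h2 : 0 < √(1 + u^2) := by positivity
    have h3 : √(1 + u^2) ≤ 2 := by
      rw [Real.sqrt_le_left (by norm_num)]
      nlinarith
    have h4 : u / 2 ≤ u / √(1 + u^2) := by gcongr
    refine h4.trans ?_
    have h5 : u / √(1 + u^2) ≤ 1 := by
      rw [div_le_one h2]
      apply Real.le_sqrt_of_sq_le
      linarith
    have h6 : 0 ≤ u / √(1 + u^2) := by positivity
    have h7 := Real.sin_le (Real.arcsin_nonneg.mpr h6)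
    rwa [Real.sin_arcsin (by linarith) h5] at h7
  · have h2 := Real.le_tan (Real.arctan_pos.mpr h0).le (Real.arctan_lt_pi_div_two u)
    rwa [Real.tan_arctan] at h2

lemma log_sq_le {l : ℝ} (hl : 1 ≤ l) : (Real.log l)^2 ≤ 4 * l := by
  have hl0 : 0 < l := by linarith
  have h1 : Real.log l = 2 * Real.log (√l) := by rw [Real.log_sqrt hl0.le]; ring
  have h2 := Real.log_le_sub_one_of_pos (Real.sqrt_pos.mpr hl0)
  have h3 := Real.log_nonneg hl
  have h4 : Real.log l ≤ 2 * √l := by linarith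
  calc (Real.log l)^2 ≤ (2 * √l)^2 := pow_le_pow_left₀ h3 h4 2
    _ = 4 * l := by rw [mul_pow, Real.sq_sqrt hl0.le]; ring

lemma two_log_le {l : ℝ} (hl : 0 < l) : 2 * Real.log l ≤ l := by
  have h1 := Real.log_le_sub_one_of_pos (show 0 < l / 2 by positivity)
  rw [Real.log_div hl.ne' (by norm_num)] at h1
  have h2 : Real.log 2 ≤ 1 := by
    have := Real.log_le_sub_one_of_pos (show (0:ℝ) < 2 by norm_num)
    linarith
  linarith

lemma exp_mul_neg_le (x : ℝ) : Real.exp x * (-x) ≤ 1 := by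
  have h1 := Real.add_one_le_exp (-x)
  have h2 : Real.exp x * Real.exp (-x) = 1 := by rw [← Real.exp_add]; simp
  have h3 := Real.exp_pos x
  nlinarith

namespace Par
variable (p : Par)

noncomputable def uu (x : ℝ) : ℝ := Real.exp (p.s * HH p.lam p.L (-x))

variable {x : ℝ}

lemma uu_pos (x : ℝ) : 0 < p.uu x := Real.exp_pos _

lemma dtau_eq (hx : x ≤ -p.L) : p.dtau x = dtau1 p.s p.lam p.L x := by
  unfold dtau; rw [gl_le (hx.trans p.Lx1.le), gl_le hx]
lemma Th_eq (hx : x ≤ -p.L) : p.Th x = Real.arctan (p.uu x) := by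
  unfold Th; rw [gl_le (hx.trans p.Lx1.le), gl_le hx]; rfl
lemma dTh_eq (hx : x ≤ -p.L) : p.dTh x = dth1 p.s p.lam p.L x := by
  unfold dTh; rw [gl_le (hx.trans p.Lx1.le), gl_le hx]
lemma Ph_eq (hx : x ≤ -p.L) : p.Ph x = p.phi1 x := by
  unfold Ph; rw [gl_le (hx.trans p.Lx1.le)]
lemma dPh_eq (hx : x ≤ -p.L) : p.dPh x = p.dphi1 x := by
  unfold dPh; rw [gl_le (hx.trans p.Lx1.le)]

lemma HH_np (hx : x ≤ -p.L) : HH p.lam p.L (-x) ≤ 0 := by
  have h2 := HH_le p.hlam p.hL (show p.L ≤ -x by linarith)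
  have hlog : 0 ≤ Real.log (-x / p.L) := Real.log_nonneg (by
    rw [le_div_iff₀ p.L0]; linarith)
  exact h2.trans (by nlinarith [p.hlam])

lemma uu_le_one (hx : x ≤ -p.L) : p.uu x ≤ 1 := by
  unfold uu
  apply Real.exp_le_one_iff.mpr
  nlinarith [p.hs, p.HH_np hx]

lemma dtau_bd (hx : x ≤ -p.L) : H1 p.lam (-x) ≤ p.dtau x ∧ p.dtau x ≤ (1 + p.s) * H1 p.lam (-x) := by
  rw [p.dtau_eq hx]
  unfold dtau1
  have h1 := H1_pos p.hlam (p.one_le_neg hx)
  have hs := p.hs
  set E := Real.exp (2 * p.s * HH p.lam p.L (-x)) with hE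
  have hE0 : 0 < E := Real.exp_pos _
  have h2 : 0 ≤ E / (1 + E) := by positivity
  have h3 : E / (1 + E) ≤ 1 := by rw [div_le_one (by positivity)]; linarith
  constructor
  · have : 0 ≤ p.s * (E / (1 + E)) := by positivity
    nlinarith
  · have : p.s * (E / (1 + E)) ≤ p.s := by nlinarith
    nlinarith

lemma dtau_lb (hx : x ≤ -p.L) : p.lam / (-x) ≤ p.dtau x :=
  (H1_bd p.hlam (p.one_le_neg hx)).1.trans (p.dtau_bd hx).1

lemma dtau_ub (hx : x ≤ -p.L) : p.dtau x ≤ (1 + p.s) * (2 * p.lam / (-x)) := by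
  have := p.hs
  exact (p.dtau_bd hx).2.trans (mul_le_mul_of_nonneg_left (H1_bd p.hlam (p.one_le_neg hx)).2 (by linarith))

lemma dtau_pos (hx : x ≤ -p.L) : 0 < p.dtau x := by
  have h1 := p.dtau_lb hx
  have h2 := p.one_le_neg hx
  have h3 : 0 < p.lam / (-x) := div_pos p.hlam (by linarith)
  linarith

lemma ev : ∀ᶠ x : ℝ in atBot, x ≤ -p.L := eventually_le_atBot _

lemma LB_dtau : LB p.dtau atBot := by
  refine ⟨(1 + p.s) * (2 * p.lam), ?_⟩
  filter_upwards [p.ev] with x hx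
  rw [abs_of_pos (p.dtau_pos hx)]
  refine (p.dtau_ub hx).trans ?_
  have h1 := p.one_le_neg hx
  have := p.hs
  have := p.hlam
  apply mul_le_mul_of_nonneg_left _ (by linarith)
  apply div_le_self (by positivity) h1

lemma LB_dtau_l : LB (fun x => p.dtau x * (-x)) atBot := by
  refine ⟨(1 + p.s) * (2 * p.lam), ?_⟩
  filter_upwards [p.ev] with x hx
  have h1 := p.one_le_neg hx
  have h0 : 0 < -x := by linarith
  rw [abs_of_pos (mul_pos (p.dtau_pos hx) h0)]
  have h2 := mul_le_mul_of_nonneg_right (p.dtau_ub hx) h0.le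
  refine h2.trans (le_of_eq ?_)
  rw [mul_assoc, div_mul_cancel₀ _ h0.ne']

lemma LB_inv_dtau_l : LB (fun x => (p.dtau x * (-x))⁻¹) atBot := by
  refine ⟨(p.lam)⁻¹, ?_⟩
  filter_upwards [p.ev] with x hx
  have h1 := p.one_le_neg hx
  have h0 : 0 < -x := by linarith
  have h3 := p.hlam
  rw [abs_of_pos (inv_pos.mpr (mul_pos (p.dtau_pos hx) h0))]
  apply inv_anti₀ h3
  have h2 := mul_le_mul_of_nonneg_right (p.dtau_lb hx) h0.le
  rwa [div_mul_cancel₀ _ h0.ne'] at h2

lemma exp_le (hx : x ≤ -p.L) : Real.exp x ≤ 1 := Real.exp_le_one_iff.mpr (by linarith [p.L0])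

lemma dphi_bd (hx : x ≤ -p.L) : |p.dphi1 x| ≤ Real.exp x := by
  have h1 := p.exp_le hx
  have h2 := Real.exp_pos x
  unfold dphi1
  have h4 : (p.σ * Real.exp x / 2)^2 = (Real.exp x)^2 / 4 := by
    have := p.σσ
    linear_combination (Real.exp x)^2 / 4 * this
  have h3 : 1/2 ≤ √(1 - (p.σ * Real.exp x / 2)^2) := by
    apply Real.le_sqrt_of_sq_le
    rw [h4]; nlinarith
  have h6 : |p.σ * Real.exp x / 2| = 1 * Real.exp x / 2 := by
    rw [abs_div, abs_mul, p.abs_σ, abs_of_pos h2, abs_of_pos (by norm_num : (0:ℝ) < 2)]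
  rw [abs_mul, abs_neg, h6, abs_of_pos (by positivity :
    0 < 1 / √(1 - (p.σ * Real.exp x / 2)^2))]
  have h5 : 1 / √(1 - (p.σ * Real.exp x / 2)^2) ≤ 2 := by
    rw [div_le_iff₀ (by linarith)]; linarith
  calc 1 / √(1 - (p.σ * Real.exp x / 2)^2) * (1 * Real.exp x / 2) ≤ 2 * (1 * Real.exp x / 2) := by
        gcongr
    _ = _ := by ring

/-- `dPh / dtau` -/
lemma LB_Q : LB (fun x => p.dPh x / p.dtau x) atBot := by
  refine ⟨(p.lam)⁻¹, ?_⟩
  filter_upwards [p.ev] with x hx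
  have h1 := p.one_le_neg hx
  have h0 : 0 < -x := by linarith
  have h3 := p.hlam
  have h4 := p.dtau_pos hx
  rw [p.dPh_eq hx, abs_div, abs_of_pos h4, div_le_iff₀ h4]
  refine (p.dphi_bd hx).trans ?_
  have h5 := p.dtau_lb hx
  rw [div_le_iff₀ h0] at h5
  have h6 := exp_mul_neg_le x
  rw [inv_mul_eq_div, le_div_iff₀ h3]
  have h7 : Real.exp x * p.lam ≤ Real.exp x * (p.dtau x * (-x)) := by gcongr
  nlinarith

lemma LB_dPh : LB p.dPh atBot := by
  refine ⟨1, ?_⟩
  filter_upwards [p.ev] with x hx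
  rw [p.dPh_eq hx]
  exact (p.dphi_bd hx).trans (p.exp_le hx)

/-- `dTh / (uu * dtau)` -/
lemma LB_R : LB (fun x => p.dTh x / (p.uu x * p.dtau x)) atBot := by
  refine ⟨p.s, ?_⟩
  filter_upwards [p.ev] with x hx
  have hu := p.uu_pos x
  have h4 := p.dtau_pos hx
  have hH := H1_pos p.hlam (p.one_le_neg hx)
  have hs := p.hs
  have e : p.dTh x = p.s * p.uu x / (1 + (p.uu x)^2) * H1 p.lam (-x) := by
    rw [p.dTh_eq hx]; rfl
  rw [e, abs_of_pos (by positivity), div_le_iff₀ (by positivity)]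
  have h5 : p.s * p.uu x / (1 + (p.uu x)^2) ≤ p.s * p.uu x := by
    apply div_le_self (by positivity)
    nlinarith
  calc p.s * p.uu x / (1 + (p.uu x)^2) * H1 p.lam (-x) ≤ p.s * p.uu x * p.dtau x := by
        apply mul_le_mul h5 (p.dtau_bd hx).1 hH.le (by positivity)
    _ = _ := by ring

lemma LB_uu : LB p.uu atBot := by
  refine ⟨1, ?_⟩
  filter_upwards [p.ev] with x hx
  rw [abs_of_pos (p.uu_pos x)]
  exact p.uu_le_one hx

lemma LB_dTh : LB p.dTh atBot := by
  refine ((p.LB_R.mul p.LB_uu).mul p.LB_dtau).congr ?_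
  filter_upwards [p.ev] with x hx
  have hu := (p.uu_pos x).ne'
  have h4 := (p.dtau_pos hx).ne'
  field_simp

lemma LB_Th_uu : LB (fun x => p.Th x / p.uu x) atBot := by
  refine ⟨1, ?_⟩
  filter_upwards [p.ev] with x hx
  have hu := p.uu_pos x
  have h := arctan_bd hu (p.uu_le_one hx)
  have h1 := (p.Th_range x).1
  rw [abs_of_pos (by positivity), div_le_one hu, p.Th_eq hx]
  exact h.2

lemma LB_uu_Th : LB (fun x => p.uu x / p.Th x) atBot := by
  refine ⟨2, ?_⟩
  filter_upwards [p.ev] with x hx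
  have hu := p.uu_pos x
  have h := arctan_bd hu (p.uu_le_one hx)
  have h1 := (p.Th_range x).1
  rw [abs_of_pos (by positivity), div_le_iff₀ h1, p.Th_eq hx]
  linarith [h.1]

lemma tendsto_Ph : Tendsto p.Ph atBot (𝓝 (π / 2)) := by
  have h1 : Tendsto (fun x => Real.arccos (p.σ * Real.exp x / 2)) atBot (𝓝 (Real.arccos 0)) := by
    apply Real.continuous_arccos.continuousAt.tendsto.comp
    have := (Real.tendsto_exp_atBot.const_mul p.σ).div_const 2
    simpa using this
  rw [Real.arccos_zero] at h1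
  refine h1.congr' ?_
  filter_upwards [p.ev] with x hx
  rw [p.Ph_eq hx]; rfl

lemma LB_inv_Ph : LB (fun x => (p.Ph x)⁻¹) atBot :=
  LB.of_tendsto (p.tendsto_Ph.inv₀ (by positivity))

lemma LB_inv_pPh : LB (fun x => (π - p.Ph x)⁻¹) atBot :=
  LB.of_tendsto ((p.tendsto_Ph.const_sub π).inv₀ (by
    have := Real.pi_pos
    apply ne_of_gt; linarith))

lemma LB_inv_pTh : LB (fun x => (π - p.Th x)⁻¹) atBot := by
  refine ⟨1, ?_⟩
  filter_upwards [p.ev] with x hx
  have h := Real.arctan_lt_pi_div_two (p.uu x)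
  have hp := Real.pi_gt_three
  rw [p.Th_eq hx]
  have h2 : 1 ≤ π - Real.arctan (p.uu x) := by linarith
  rw [abs_of_pos (by positivity)]
  exact inv_le_one_of_one_le₀ h2

lemma ctl : Ctl p.reg where
  loc := p.loc
  near := ⟨p.LB_dtau, p.LB_dPh, p.LB_dTh, p.LB_inv_Ph, p.LB_inv_pPh⟩

lemma LB_Ph : LB p.Ph atBot := LB.of_bdd (M := π) (fun y => by
    rw [abs_le]; constructor <;> linarith [(p.Ph_range y).1, (p.Ph_range y).2, Real.pi_pos])
lemma LB_Th : LB p.Th atBot := LB.of_bdd (M := π) (fun y => by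
    rw [abs_le]; constructor <;> linarith [(p.Th_range y).1, (p.Th_range y).2, Real.pi_pos])

/-- the regular part of `kin` -/
lemma kin_reg (hW : LB (fun x => p.uu x * (-x)) atBot) :
    LB (fun x => p.reg.kin x - p.dtau x * p.Ph x / p.Th x) atBot := by
  have hA := p.LB_Th_uu
  have hA' := p.LB_uu_Th
  have hiP := p.LB_inv_Ph
  -- daa / (uu dtau)
  have h1 : LB (fun x => (p.dTh x / (p.uu x * p.dtau x) * p.Ph x - p.Th x / p.uu x *
      (p.dPh x / p.dtau x)) * ((p.Ph x)⁻¹)^2) atBot :=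
    ((p.LB_R.mul p.LB_Ph).sub (hA.mul p.LB_Q)).mul hiP.pow2
  have h2 := ((((LB.const (π^2)).mul h1.pow2).mul p.LB_uu).mul p.LB_dtau).mul (hA'.mul p.LB_Ph)
  have h3 := ((hA.mul hiP).mul hW).mul p.LB_inv_dtau_l
  refine (h2.add h3).congr ?_
  filter_upwards [p.ev] with x hx
  have e1 : p.reg.kin x = ((p.dtau x)^2 + (π * ((p.dTh x * p.Ph x - p.Th x * p.dPh x) / (p.Ph x)^2))^2
    + (p.Th x / p.Ph x)^2) / (p.dtau x * (p.Th x / p.Ph x)) := rfl
  rw [e1]
  have n1 := (p.dtau_pos hx).ne'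
  have n2 := (p.uu_pos x).ne'
  have n3 := (p.Th_range x).1.ne'
  have n4 := (p.Ph_range x).1.ne'
  have n5 : -x ≠ 0 := by have := p.one_le_neg hx; linarith
  generalize -x = l at n5
  field_simp
  ring

/-- the regular part of `kout` -/
lemma kout_reg :
    LB (fun x => p.reg.kout x - (π - p.Th x) / (π - p.Ph x) / p.dtau x) atBot := by
  have hiP := p.LB_inv_pPh
  have hiT := p.LB_inv_pTh
  have hP : LB (fun x => π - p.Ph x) atBot := (LB.const π).sub p.LB_Ph
  have hT : LB (fun x => π - p.Th x) atBot := (LB.const π).sub p.LB_Th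
  -- dbb / dtau
  have h1 : LB (fun x => (-(p.dTh x / (p.uu x * p.dtau x) * p.uu x) * (π - p.Ph x) + (π - p.Th x) *
      (p.dPh x / p.dtau x)) * ((π - p.Ph x)⁻¹)^2) atBot :=
    (((p.LB_R.mul p.LB_uu).neg.mul hP).add (hT.mul p.LB_Q)).mul hiP.pow2
  have h2 := (((LB.const (π^2)).mul h1.pow2).mul p.LB_dtau).mul (hP.mul hiT)
  have h3 := p.LB_dtau.mul (hP.mul hiT)
  refine (h2.add h3).congr ?_
  filter_upwards [p.ev] with x hx
  have e1 : p.reg.kout x = ((p.dtau x)^2 + (π * ((-(p.dTh x) * (π - p.Ph x) + (π - p.Th x) * p.dPh x)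
    / (π - p.Ph x)^2))^2
    + ((π - p.Th x) / (π - p.Ph x))^2) / (p.dtau x * ((π - p.Th x) / (π - p.Ph x))) := rfl
  rw [e1]
  have n1 := (p.dtau_pos hx).ne'
  have n2 := (p.uu_pos x).ne'
  have n3 : π - p.Th x ≠ 0 := by linarith [(p.Th_range x).2]
  have n4 : π - p.Ph x ≠ 0 := by linarith [(p.Ph_range x).2]
  generalize π - p.Th x = T at n3
  generalize π - p.Ph x = F at n4
  field_simp
  ring

/-! ## main terms -/

lemma uu_upper (hx : x ≤ -p.L) : p.uu x ≤ Real.exp (-(p.s * p.lam) * Real.log (-x / p.L)) := by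
  unfold uu
  apply Real.exp_le_exp.mpr
  have h := HH_le p.hlam p.hL (show p.L ≤ -x by linarith)
  have := mul_le_mul_of_nonneg_left h p.hs.le
  linarith

lemma uu_lower (hx : x ≤ -p.L) :
    Real.exp (-(p.s * p.lam) * Real.log (-x / p.L)) * Real.exp (-(p.s * p.lam)) ≤ p.uu x := by
  unfold uu
  rw [← Real.exp_add]
  apply Real.exp_le_exp.mpr
  have h := HH_ge p.hlam p.hL (show p.L ≤ -x by linarith)
  have := mul_le_mul_of_nonneg_left h p.hs.le
  linarith

lemma exp_neg_log (hx : x ≤ -p.L) : Real.exp (-Real.log (-x / p.L)) = p.L / (-x) := by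
  have h1 := p.one_le_neg hx
  have h2 := p.L0
  rw [Real.exp_neg, Real.exp_log (div_pos (by linarith) h2), inv_div]

lemma uu_one (hk : p.s * p.lam = 1) (hx : x ≤ -p.L) :
    p.uu x ≤ p.L / (-x) ∧ p.L / (-x) * Real.exp (-1) ≤ p.uu x := by
  have h1 := p.uu_upper hx
  have h2 := p.uu_lower hx
  rw [hk, neg_one_mul, p.exp_neg_log hx] at h1 h2
  exact ⟨h1, h2⟩

lemma uu_two (hk : p.s * p.lam = 2) (hx : x ≤ -p.L) :
    p.uu x ≤ (p.L / (-x))^2 ∧ (p.L / (-x))^2 * Real.exp (-2) ≤ p.uu x := by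
  have h1 := p.uu_upper hx
  have h2 := p.uu_lower hx
  have e : Real.exp (-2 * Real.log (-x / p.L)) = (p.L / (-x))^2 := by
    rw [show -2 * Real.log (-x / p.L) = -Real.log (-x / p.L) + -Real.log (-x / p.L) by ring,
      Real.exp_add, p.exp_neg_log hx]; ring
  rw [hk, e] at h1 h2
  exact ⟨h1, h2⟩

lemma LB_W (hk : p.s * p.lam = 1 ∨ p.s * p.lam = 2) : LB (fun x => p.uu x * (-x)) atBot := by
  refine ⟨p.L, ?_⟩
  filter_upwards [p.ev] with x hx
  have h1 := p.one_le_neg hx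
  have h0 : 0 < -x := by linarith
  have hu := p.uu_pos x
  have hL := p.L0
  have hb : p.uu x ≤ p.L / (-x) := by
    rcases hk with hk | hk
    · exact (p.uu_one hk hx).1
    · refine (p.uu_two hk hx).1.trans ?_
      have h2 : p.L / (-x) ≤ 1 := by rw [div_le_one h0]; linarith
      have h3 : 0 ≤ p.L / (-x) := by positivity
      nlinarith
  rw [abs_of_pos (mul_pos hu h0)]
  rwa [le_div_iff₀ h0] at hb

lemma LB_main_one (hk : p.s * p.lam = 1) : LB (fun x => p.dtau x * p.Ph x / p.Th x) atBot := by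
  have h1 : LB (fun x => (p.uu x * (-x))⁻¹) atBot := by
    refine ⟨Real.exp 1 / p.L, ?_⟩
    filter_upwards [p.ev] with x hx
    have h1 := p.one_le_neg hx
    have h0 : 0 < -x := by linarith
    have hu := p.uu_pos x
    have hL := p.L0
    have hb := (p.uu_one hk hx).2
    rw [abs_of_pos (inv_pos.mpr (mul_pos hu h0)), show Real.exp 1 / p.L = (p.L * Real.exp (-1))⁻¹ by
      rw [mul_inv, ← Real.exp_neg]; simp; ring]
    apply inv_anti₀ (by positivity)
    have h2 := mul_le_mul_of_nonneg_right hb h0.le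
    have h3 : p.L / (-x) * Real.exp (-1) * (-x) = p.L * Real.exp (-1) := by
      have := h0.ne'
      rw [mul_right_comm, div_mul_cancel₀ _ h0.ne']
    rwa [h3] at h2
  refine (((p.LB_dtau_l.mul p.LB_Ph).mul p.LB_uu_Th).mul h1).congr ?_
  filter_upwards [p.ev] with x hx
  have n1 := (p.dtau_pos hx).ne'
  have n2 := (p.uu_pos x).ne'
  have n3 := (p.Th_range x).1.ne'
  have n5 : -x ≠ 0 := by have := p.one_le_neg hx; linarith
  generalize -x = l at n5
  field_simp

lemma main_two (hk : p.s * p.lam = 2) (hL2 : 16 * (1 + p.s) * p.lam^2 * Real.exp 2 ≤ p.L^2)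
    (hx : x ≤ -p.L) : p.lam * (p.dtau x * p.Ph x / p.Th x) ≤ -x := by
  have h1 := p.one_le_neg hx
  have h0 : 0 < -x := by linarith
  have hu := p.uu_pos x
  have hL := p.L0
  have hs := p.hs
  have hlam := p.hlam
  have hb := (p.uu_two hk hx).2
  have ht := (arctan_bd hu (p.uu_le_one hx)).1
  rw [← p.Th_eq hx] at ht
  have hT := (p.Th_range x).1
  have hd := p.dtau_ub hx
  have hd0 := p.dtau_pos hx
  have hP : p.Ph x ≤ 4 := by linarith [(p.Ph_range x).2, Real.pi_lt_four]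
  have hP0 := (p.Ph_range x).1
  generalize -x = l at *
  have hT2 : (p.L / l)^2 * Real.exp (-2) / 2 ≤ p.Th x := by linarith
  rw [← mul_div_assoc, div_le_iff₀ hT]
  have key : p.lam * (((1 + p.s) * (2 * p.lam / l)) * 4) ≤ l * ((p.L / l)^2 * Real.exp (-2) / 2) := by
    have e1 : Real.exp 2 * Real.exp (-2) = 1 := by rw [← Real.exp_add]; simp
    have e2 : l * ((p.L / l)^2 * Real.exp (-2) / 2) = p.L^2 * Real.exp (-2) / (2 * l) := by
      have := h0.ne'
      field_simp
    have e3 : p.lam * (((1 + p.s) * (2 * p.lam / l)) * 4) =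
        (16 * (1 + p.s) * p.lam^2 * Real.exp 2) * Real.exp (-2) / (2 * l) := by
      have := h0.ne'
      rw [mul_assoc _ (Real.exp 2), e1]
      field_simp
      ring
    rw [e2, e3]
    gcongr
  calc p.lam * (p.dtau x * p.Ph x) ≤ p.lam * (((1 + p.s) * (2 * p.lam / l)) * 4) := by gcongr
    _ ≤ _ := key
    _ ≤ l * p.Th x := by gcongr

lemma ratio_bd (hx : x ≤ -p.L) : (π - p.Th x) / (π - p.Ph x) ≤ 2 + 4 * Real.exp x := by
  have hr1 : Real.exp x ≤ 1 := p.exp_le hx
  have hr0 := Real.exp_pos x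
  have hpi := Real.pi_gt_three
  have hP : π / 2 - Real.exp x ≤ π - p.Ph x := by
    rw [p.Ph_eq hx]
    unfold phi1
    have h1 : Real.arccos (p.σ * Real.exp x / 2) ≤ Real.arccos (-(Real.exp x / 2)) := by
      apply Real.antitone_arccos
      rcases p.hσ with h | h <;> rw [h] <;> linarith
    rw [Real.arccos_neg] at h1
    have h2 : Real.arccos (Real.exp x / 2) = π / 2 - Real.arcsin (Real.exp x / 2) := rfl
    have h3 : Real.arcsin (Real.exp x / 2) ≤ Real.exp x := by
      have h4 := Real.mul_le_sin (Real.arcsin_nonneg.mpr (show 0 ≤ Real.exp x / 2 by positivity))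
        (Real.arcsin_le_pi_div_two _)
      rw [Real.sin_arcsin (by linarith) (by linarith)] at h4
      rw [div_mul_eq_mul_div, div_le_iff₀ Real.pi_pos] at h4
      nlinarith [Real.pi_lt_four]
    linarith
  have h0 : 0 < π / 2 - Real.exp x := by linarith
  have h5 : 0 < π - p.Ph x := by linarith
  rw [div_le_iff₀ h5]
  have hT := (p.Th_range x).1
  calc π - p.Th x ≤ (2 + 4 * Real.exp x) * (π / 2 - Real.exp x) := by nlinarith
    _ ≤ _ := by gcongr

lemma main_out (hx : x ≤ -p.L) : p.lam * ((π - p.Th x) / (π - p.Ph x) / p.dtau x) ≤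
    -2 * x - 2 * Real.log (-x) + 12 := by
  have h1 := p.one_le_neg hx
  have h0 : 0 < -x := by linarith
  have hlam := p.hlam
  have hH := H1_pos p.hlam h1
  have h2 := (p.dtau_bd hx).1
  have h3 := p.ratio_bd hx
  have h4 := p.dtau_pos hx
  have hr0 := Real.exp_pos x
  have hre := exp_mul_neg_le x
  have hlog := Real.log_nonneg h1
  have hlog2 := log_sq_le h1
  have h5 : (π - p.Th x) / (π - p.Ph x) / p.dtau x ≤ (2 + 4 * Real.exp x) / H1 p.lam (-x) := by
    have : 0 ≤ 2 + 4 * Real.exp x := by positivity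
    gcongr
  refine (mul_le_mul_of_nonneg_left h5 hlam.le).trans ?_
  unfold H1
  rw [show -2 * x = 2 * (-x) by ring]
  generalize -x = l at *
  have e : p.lam * ((2 + 4 * Real.exp x) / (p.lam / l + p.lam * Real.log l / l^2)) =
      (2 + 4 * Real.exp x) * l^2 / (l + Real.log l) := by
    have n1 : p.lam / l + p.lam * Real.log l / l^2 ≠ 0 := by positivity
    have n2 : l + Real.log l ≠ 0 := by positivity
    have n3 : p.lam / l + p.lam * Real.log l / l^2 = p.lam * (l + Real.log l) / l^2 := by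
      field_simp
    rw [n3]
    field_simp
  rw [e, div_le_iff₀ (by positivity)]
  nlinarith [mul_pos h0 h0]

theorem near2 (hk : p.s * p.lam = 1 ∨ (p.s * p.lam = 2 ∧
    16 * (1 + p.s) * p.lam^2 * Real.exp 2 ≤ p.L^2)) :
    ∃ C : ℝ, ∀ᶠ x in atBot, p.lam * p.reg.kin x ≤ -2 * x - 2 * Real.log (-x) + C ∧
      p.lam * p.reg.kout x ≤ -2 * x - 2 * Real.log (-x) + C := by
  have hlam := p.hlam
  obtain ⟨C1, hC1⟩ := p.kin_reg (p.LB_W (hk.imp id And.left))
  obtain ⟨C2, hC2⟩ := p.kout_reg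
  have h3 : ∃ C3, ∀ᶠ x in atBot, p.lam * (p.dtau x * p.Ph x / p.Th x) ≤ -x + C3 := by
    rcases hk with hk | ⟨hk, hL2⟩
    · obtain ⟨M, hM⟩ := p.LB_main_one hk
      refine ⟨p.lam * M, ?_⟩
      filter_upwards [hM, p.ev] with x h1 hx
      have h2 := p.one_le_neg hx
      have := mul_le_mul_of_nonneg_left ((le_abs_self _).trans h1) hlam.le
      linarith
    · refine ⟨0, ?_⟩
      filter_upwards [p.ev] with x hx
      have := p.main_two hk hL2 hx
      linarith
  obtain ⟨C3, hC3⟩ := h3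
  refine ⟨max (p.lam * C1 + C3) (p.lam * C2 + 12), ?_⟩
  filter_upwards [hC1, hC2, hC3, p.ev] with x h1 h2 h3 hx
  constructor
  · have h4 := mul_le_mul_of_nonneg_left ((le_abs_self _).trans h1) hlam.le
    have h5 := two_log_le (show 0 < -x by linarith [p.one_le_neg hx])
    have h6 := le_max_left (p.lam * C1 + C3) (p.lam * C2 + 12)
    rw [mul_sub] at h4
    linarith
  · have h4 := mul_le_mul_of_nonneg_left ((le_abs_self _).trans h2) hlam.le
    have h5 := p.main_out hx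
    have h6 := le_max_right (p.lam * C1 + C3) (p.lam * C2 + 12)
    rw [mul_sub] at h4
    linarith

theorem kin_bot (hk : p.s * p.lam = 1) : LB p.reg.kin atBot := by
  refine ((p.kin_reg (p.LB_W (Or.inl hk))).add (p.LB_main_one hk)).congr
    (Eventually.of_forall fun x => ?_)
  ring

end Par

end Pool.Agent.R435.Cu
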