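import Mathlib

open Set Metric Filter Topology MeasureTheory Real
open scoped ENNReal NNReal

namespace Pool.Agent.R435.Cu

structure Dat where
  τ : ℝ → ℝ
  Φ : ℝ → ℝ
  Θ : ℝ → ℝ
  hτ : StrictMono τ
  τc : Continuous τ
  τtop : Tendsto τ atTop atTop
  τbot : Tendsto τ atBot atBot
  Φc : Continuous Φ
  Θc : Continuous Θ
  Φ0 : ∀ x, 0 < Φ x
  Φ1 : ∀ x, Φ x < π
  Θ0 : ∀ x, 0 < Θ x
  Θ1 : ∀ x, Θ x < π

namespace Dat

variable (D : Dat)

noncomputable def aa (x : ℝ) : ℝ := D.Θ x / D.Φ x
noncomputable def bb (x : ℝ) : ℝ := (π - D.Θ x) / (π - D.Φ x)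
noncomputable def th (x φ : ℝ) : ℝ :=
  D.bb x * φ + (D.aa x - D.bb x) * max (-D.Φ x) (min (D.Φ x) φ)

lemma aa_pos (x : ℝ) : 0 < D.aa x := div_pos (D.Θ0 x) (D.Φ0 x)
lemma bb_pos (x : ℝ) : 0 < D.bb x := div_pos (by linarith [D.Θ1 x]) (by linarith [D.Φ1 x])

lemma aa_mul (x : ℝ) : D.aa x * D.Φ x = D.Θ x := by
  unfold aa; have := (D.Φ0 x).ne'; field_simp

lemma bb_mul (x : ℝ) : D.bb x * (π - D.Φ x) = π - D.Θ x := by
  unfold bb; have : π - D.Φ x ≠ 0 := by linarith [D.Φ1 x]
  field_simp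

lemma th_in {x φ : ℝ} (h : |φ| ≤ D.Φ x) : D.th x φ = D.aa x * φ := by
  rw [abs_le] at h
  unfold th
  rw [min_eq_right h.2, max_eq_right h.1]; ring

lemma th_pos {x φ : ℝ} (h : D.Φ x ≤ φ) : D.th x φ = π - D.bb x * (π - φ) := by
  unfold th
  rw [min_eq_left h, max_eq_right (by linarith [D.Φ0 x])]
  have h1 := D.aa_mul x
  have h2 := D.bb_mul x
  linear_combination h1 + h2

lemma th_neg {x φ : ℝ} (h : φ ≤ - D.Φ x) : D.th x φ = -(π - D.bb x * (π + φ)) := by
  unfold th
  rw [min_eq_right (by linarith [D.Φ0 x]), max_eq_left (by linarith [D.Φ0 x])]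
  have h1 := D.aa_mul x
  have h2 := D.bb_mul x
  linear_combination -h1 - h2

lemma th_mem {x φ : ℝ} (h1 : -π < φ) (h2 : φ ≤ π) : -π < D.th x φ ∧ D.th x φ ≤ π := by
  have hp := Real.pi_pos
  have hb := D.bb_pos x
  have ha := D.aa_pos x
  rcases le_or_gt (|φ|) (D.Φ x) with h | h
  · rw [D.th_in h]
    rw [abs_le] at h
    have h3 := D.aa_mul x
    have := D.Θ1 x
    constructor <;> nlinarith
  · rcases lt_abs.mp h with h' | h'
    · rw [D.th_pos h'.le]
      have h3 := D.bb_mul x
      have := D.Θ0 x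
      constructor
      · nlinarith
      · nlinarith
    · rw [D.th_neg (by linarith)]
      have h3 := D.bb_mul x
      have := D.Θ0 x
      constructor
      · nlinarith
      · nlinarith

/-- region is preserved -/
lemma th_abs {x φ : ℝ} (h1 : -π < φ) (h2 : φ ≤ π) :
    (|φ| < D.Φ x ↔ |D.th x φ| < D.Θ x) ∧ (|φ| ≤ D.Φ x ↔ |D.th x φ| ≤ D.Θ x) := by
  have hp := Real.pi_pos
  have hb := D.bb_pos x
  have ha := D.aa_pos x
  rcases le_or_gt (|φ|) (D.Φ x) with h | h
  · rw [D.th_in h, abs_mul, abs_of_pos ha]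
    have h3 := D.aa_mul x
    rw [← h3]
    constructor
    · constructor
      · intro h4; exact mul_lt_mul_of_pos_left h4 ha
      · intro h4; exact lt_of_mul_lt_mul_left h4 ha.le
    · constructor
      · intro h4; exact mul_le_mul_of_nonneg_left h4 ha.le
      · intro _; exact h
  · have key : D.Θ x < |D.th x φ| := by
      rcases lt_abs.mp h with h' | h'
      · rw [D.th_pos h'.le]
        have h3 := D.bb_mul x
        apply lt_of_lt_of_le _ (le_abs_self _)
        nlinarith
      · rw [D.th_neg (by linarith)]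
        have h3 := D.bb_mul x
        apply lt_of_lt_of_le _ (neg_le_abs _)
        nlinarith
    exact ⟨⟨fun h4 => absurd h4 (not_lt.mpr h.le), fun h4 => absurd h4 (not_lt.mpr key.le)⟩,
      ⟨fun h4 => absurd h4 (not_le.mpr h), fun h4 => absurd h4 (not_le.mpr key)⟩⟩

lemma th_cont : Continuous (fun p : ℝ × ℝ => D.th p.1 p.2) := by
  unfold th aa bb
  have h1 := D.Φc
  have h2 := D.Θc
  have h3 : ∀ p : ℝ × ℝ, D.Φ p.1 ≠ 0 := fun p => (D.Φ0 p.1).ne'
  have h4 : ∀ p : ℝ × ℝ, π - D.Φ p.1 ≠ 0 := fun p => by linarith [D.Φ1 p.1]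
  fun_prop (disch := assumption)

open Complex in
/-- the polar map -/
noncomputable def P (z : ℂ) : ℂ :=
  if z = 0 then 0 else Complex.exp ((D.τ (Real.log ‖z‖) : ℂ) + (D.th (Real.log ‖z‖) (arg z) : ℂ) * I)

lemma P_zero : D.P 0 = 0 := by simp [P]

lemma P_ne {z : ℂ} (hz : z ≠ 0) : D.P z =
    Complex.exp ((D.τ (Real.log ‖z‖) : ℂ) + (D.th (Real.log ‖z‖) (Complex.arg z) : ℂ) * Complex.I) := by
  simp [P, hz]

lemma P_norm {z : ℂ} (hz : z ≠ 0) : ‖D.P z‖ = Real.exp (D.τ (Real.log ‖z‖)) := by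
  rw [D.P_ne hz, Complex.norm_exp]; simp

lemma P_ne_zero {z : ℂ} (hz : z ≠ 0) : D.P z ≠ 0 := by
  rw [D.P_ne hz]; exact Complex.exp_ne_zero _

lemma P_log {z : ℂ} (hz : z ≠ 0) : Real.log ‖D.P z‖ = D.τ (Real.log ‖z‖) := by
  rw [D.P_norm hz, Real.log_exp]

lemma P_arg {z : ℂ} (hz : z ≠ 0) : Complex.arg (D.P z) = D.th (Real.log ‖z‖) (Complex.arg z) := by
  have h := D.th_mem (x := Real.log ‖z‖) (Complex.neg_pi_lt_arg z) (Complex.arg_le_pi z)
  have h1 : Complex.log (D.P z) = (D.τ (Real.log ‖z‖) : ℂ) +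
      (D.th (Real.log ‖z‖) (Complex.arg z) : ℂ) * Complex.I := by
    rw [D.P_ne hz, Complex.log_exp] <;> simp [h.1, h.2]
  have h2 := congrArg Complex.im h1
  rw [Complex.log_im] at h2
  simpa using h2

/-- the outer formula -/
lemma P_outer {z : ℂ} (hz : z ≠ 0) (h : D.Φ (Real.log ‖z‖) ≤ |Complex.arg z|) :
    D.P z = - Complex.exp ((D.τ (Real.log ‖z‖) : ℂ) +
      (D.bb (Real.log ‖z‖) * Complex.arg (-z) : ℝ) * Complex.I) := by
  rw [D.P_ne hz]
  set x := Real.log ‖z‖
  have hΦ := D.Φ0 x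
  have hneg : ∀ t : ℝ, - Complex.exp ((D.τ x : ℂ) + (t : ℂ) * Complex.I) =
      Complex.exp ((D.τ x : ℂ) + ((t + π : ℝ) : ℂ) * Complex.I) ∧
      - Complex.exp ((D.τ x : ℂ) + (t : ℂ) * Complex.I) =
      Complex.exp ((D.τ x : ℂ) + ((t - π : ℝ) : ℂ) * Complex.I) := by
    intro t
    constructor
    · rw [show ((D.τ x : ℂ) + ((t + π : ℝ) : ℂ) * Complex.I) =
        ((D.τ x : ℂ) + (t : ℂ) * Complex.I) + (π : ℂ) * Complex.I by push_cast; ring,
        Complex.exp_add _ ((π : ℂ) * Complex.I), Complex.exp_pi_mul_I]; ring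
    · rw [show ((D.τ x : ℂ) + (t : ℂ) * Complex.I) =
        ((D.τ x : ℂ) + ((t - π : ℝ) : ℂ) * Complex.I) + (π : ℂ) * Complex.I by push_cast; ring,
        Complex.exp_add _ ((π : ℂ) * Complex.I), Complex.exp_pi_mul_I]; ring
  rcases le_abs.mp h with h' | h'
  · -- arg z > 0
    have hpos : 0 < Complex.arg z := by linarith
    have harg : Complex.arg (-z) = Complex.arg z - π := by
      rcases lt_trichotomy z.im 0 with hi | hi | hi
      · have := Complex.arg_neg_iff.mpr hi; linarith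
      · have hre : z.re < 0 := by
          by_contra hcon
          rw [not_lt] at hcon
          have : Complex.arg z = 0 := Complex.arg_eq_zero_iff.mpr ⟨hcon, hi⟩
          linarith
        have h1 : Complex.arg z = π := Complex.arg_eq_pi_iff.mpr ⟨hre, hi⟩
        have h2 : Complex.arg (-z) = 0 := Complex.arg_eq_zero_iff.mpr ⟨by simp; linarith, by simp [hi]⟩
        rw [h1, h2]; ring
      · exact Complex.arg_neg_eq_arg_sub_pi_of_im_pos hi
    rw [D.th_pos h', (hneg _).1, harg]
    congr 3; push_cast; ring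
  · have hneg' : Complex.arg z < 0 := by linarith
    have hi : z.im < 0 := Complex.arg_neg_iff.mp hneg'
    have harg : Complex.arg (-z) = Complex.arg z + π := Complex.arg_neg_eq_arg_add_pi_of_im_neg hi
    rw [D.th_neg (by linarith), (hneg _).2, harg]
    congr 3; push_cast; ring

lemma abs_arg_neg {z : ℂ} (hz : z ≠ 0) : |Complex.arg (-z)| = π - |Complex.arg z| := by
  have hp := Real.pi_pos
  rcases lt_trichotomy z.im 0 with hi | hi | hi
  · have h1 := Complex.arg_neg_iff.mpr hi
    have h2 := Complex.arg_neg_eq_arg_add_pi_of_im_neg hi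
    have h3 := Complex.neg_pi_lt_arg z
    rw [h2, abs_of_neg h1, abs_of_nonneg (by linarith)]; ring
  · rcases lt_or_ge z.re 0 with hr | hr
    · have h1 : Complex.arg z = π := Complex.arg_eq_pi_iff.mpr ⟨hr, hi⟩
      have h2 : Complex.arg (-z) = 0 := Complex.arg_eq_zero_iff.mpr ⟨by simp; linarith, by simp [hi]⟩
      rw [h1, h2, abs_zero, abs_of_pos hp]; ring
    · have hr' : 0 < z.re := by
        rcases eq_or_lt_of_le hr with h | h
        · exact absurd (Complex.ext h.symm hi) hz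
        · exact h
      have h1 : Complex.arg z = 0 := Complex.arg_eq_zero_iff.mpr ⟨hr, hi⟩
      have h2 : Complex.arg (-z) = π := Complex.arg_eq_pi_iff.mpr ⟨by simp; linarith, by simp [hi]⟩
      rw [h1, h2, abs_zero, abs_of_pos hp]; ring
  · have h1 : 0 ≤ Complex.arg z := Complex.arg_nonneg_iff.mpr hi.le
    have h2 := Complex.arg_neg_eq_arg_sub_pi_of_im_pos hi
    have h3 := Complex.arg_le_pi z
    rw [h2, abs_of_nonneg h1, abs_of_nonpos (by linarith)]; ring

/-- points on the negative axis have a neighbourhood in the outer region -/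
lemma outer_nhds {z : ℂ} (hz : z ≠ 0) (h : z ∉ Complex.slitPlane) :
    ∀ᶠ y in 𝓝 z, y ≠ 0 ∧ D.Φ (Real.log ‖y‖) < |Complex.arg y| := by
  have hz2 : -z ∈ Complex.slitPlane := by
    rw [Complex.mem_slitPlane_iff] at h ⊢
    push Not at h
    left
    have h1 : z.re ≠ 0 := fun h' => hz (Complex.ext h' h.2)
    have := lt_of_le_of_ne h.1 h1
    simp; exact this
  have hz3 : Complex.arg z = π := by
    rw [Complex.mem_slitPlane_iff] at h
    push Not at h
    exact Complex.arg_eq_pi_iff.mpr ⟨lt_of_le_of_ne h.1 (fun h' => hz (Complex.ext h' h.2)), h.2⟩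
  have hz4 : |Complex.arg (-z)| = 0 := by
    rw [abs_arg_neg hz, hz3, abs_of_pos Real.pi_pos]; ring
  have hc : ContinuousAt (fun y : ℂ => π - |Complex.arg (-y)| - D.Φ (Real.log ‖y‖)) z := by
    have h1 : ContinuousAt (fun y : ℂ => Complex.arg (-y)) z :=
      (Complex.continuousAt_arg hz2).comp (f := fun y : ℂ => -y) continuous_neg.continuousAt
    have h2 : ContinuousAt (fun y : ℂ => Real.log ‖y‖) z :=
      (continuous_norm.continuousAt).log (norm_ne_zero_iff.mpr hz)
    exact (continuousAt_const.sub h1.abs).sub (D.Φc.continuousAt.comp h2)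
  have hpos : 0 < π - |Complex.arg (-z)| - D.Φ (Real.log ‖z‖) := by
    rw [hz4]; linarith [D.Φ1 (Real.log ‖z‖)]
  filter_upwards [hc.eventually (lt_mem_nhds hpos), isOpen_compl_singleton.mem_nhds hz] with y hy hy0
  refine ⟨hy0, ?_⟩
  have := abs_arg_neg (z := y) hy0
  linarith

lemma P_cont : Continuous D.P := by
  rw [continuous_iff_continuousAt]
  intro z
  by_cases hz : z = 0
  · subst hz
    rw [ContinuousAt, D.P_zero, tendsto_zero_iff_norm_tendsto_zero]
    have h1 : Tendsto (fun y : ℂ => Real.exp (D.τ (Real.log ‖y‖))) (𝓝[≠] 0) (𝓝 0) := by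
      apply Real.tendsto_exp_atBot.comp
      apply D.τbot.comp
      apply Real.tendsto_log_nhdsGT_zero.comp
      rw [tendsto_nhdsWithin_iff]
      constructor
      · have : Tendsto (fun y : ℂ => ‖y‖) (𝓝 0) (𝓝 ‖(0:ℂ)‖) := continuous_norm.tendsto 0
        rw [norm_zero] at this
        exact this.mono_left nhdsWithin_le_nhds
      · filter_upwards [self_mem_nhdsWithin] with y hy
        exact norm_pos_iff.mpr hy
    have h2 : Tendsto (fun y : ℂ => ‖D.P y‖) (𝓝[≠] 0) (𝓝 0) := by
      refine h1.congr' ?_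
      filter_upwards [self_mem_nhdsWithin] with y hy
      exact (D.P_norm hy).symm
    rw [← nhdsNE_sup_pure (0:ℂ), tendsto_sup]
    refine ⟨h2, ?_⟩
    rw [tendsto_pure_left]
    intro s hs
    rw [D.P_zero, norm_zero]
    exact mem_of_mem_nhds hs
  · by_cases hs : z ∈ Complex.slitPlane
    · have h1 : ContinuousAt (fun y : ℂ => Complex.exp ((D.τ (Real.log ‖y‖) : ℂ) +
          (D.th (Real.log ‖y‖) (Complex.arg y) : ℂ) * Complex.I)) z := by
        have hn : ContinuousAt (fun y : ℂ => Real.log ‖y‖) z :=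
          (continuous_norm.continuousAt).log (norm_ne_zero_iff.mpr hz)
        have ha := Complex.continuousAt_arg hs
        have ht : ContinuousAt (fun y : ℂ => D.th (Real.log ‖y‖) (Complex.arg y)) z :=
          D.th_cont.continuousAt.comp (f := fun y : ℂ => (Real.log ‖y‖, Complex.arg y)) (hn.prodMk ha)
        have hτ : ContinuousAt (fun y : ℂ => D.τ (Real.log ‖y‖)) z := D.τc.continuousAt.comp hn
        apply Complex.continuous_exp.continuousAt.comp
        exact (Complex.continuous_ofReal.continuousAt.comp hτ).add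
          ((Complex.continuous_ofReal.continuousAt.comp ht).mul continuousAt_const)
      refine h1.congr ?_
      filter_upwards [isOpen_compl_singleton.mem_nhds hz] with y hy
      exact (D.P_ne hy).symm
    · have hz2 : -z ∈ Complex.slitPlane := by
        rw [Complex.mem_slitPlane_iff] at hs ⊢
        push Not at hs
        left
        have h1 : z.re ≠ 0 := fun h' => hz (Complex.ext h' hs.2)
        have := lt_of_le_of_ne hs.1 h1
        simp; exact this
      have h1 : ContinuousAt (fun y : ℂ => - Complex.exp ((D.τ (Real.log ‖y‖) : ℂ) +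
          (D.bb (Real.log ‖y‖) * Complex.arg (-y) : ℝ) * Complex.I)) z := by
        have hn : ContinuousAt (fun y : ℂ => Real.log ‖y‖) z :=
          (continuous_norm.continuousAt).log (norm_ne_zero_iff.mpr hz)
        have ha : ContinuousAt (fun y : ℂ => Complex.arg (-y)) z :=
          (Complex.continuousAt_arg hz2).comp (f := fun y : ℂ => -y) continuous_neg.continuousAt
        have hbb : Continuous D.bb := by
          unfold bb
          exact (continuous_const.sub D.Θc).div (continuous_const.sub D.Φc)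
            (fun x => by linarith [D.Φ1 x])
        have ht : ContinuousAt (fun y : ℂ => D.bb (Real.log ‖y‖) * Complex.arg (-y)) z :=
          (hbb.continuousAt.comp hn).mul ha
        have hτ : ContinuousAt (fun y : ℂ => D.τ (Real.log ‖y‖)) z := D.τc.continuousAt.comp hn
        apply ContinuousAt.neg
        apply Complex.continuous_exp.continuousAt.comp
        exact (Complex.continuous_ofReal.continuousAt.comp hτ).add
          ((Complex.continuous_ofReal.continuousAt.comp ht).mul continuousAt_const)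
      refine h1.congr ?_
      filter_upwards [D.outer_nhds hz hs] with y hy
      exact (D.P_outer hy.1 hy.2.le).symm

lemma τ_surj : Function.Surjective D.τ := D.τc.surjective D.τtop D.τbot

noncomputable def ord : ℝ ≃o ℝ := D.hτ.orderIsoOfSurjective D.τ D.τ_surj

lemma ord_apply (x : ℝ) : D.ord x = D.τ x := rfl

/-- inverse data -/
noncomputable def inv : Dat where
  τ := D.ord.symm
  Φ := fun x => D.Θ (D.ord.symm x)
  Θ := fun x => D.Φ (D.ord.symm x)
  hτ := D.ord.symm.strictMono
  τc := D.ord.symm.continuous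
  τtop := D.ord.symm.tendsto_atTop
  τbot := D.ord.symm.tendsto_atBot
  Φc := D.Θc.comp D.ord.symm.continuous
  Θc := D.Φc.comp D.ord.symm.continuous
  Φ0 := fun x => D.Θ0 _
  Φ1 := fun x => D.Θ1 _
  Θ0 := fun x => D.Φ0 _
  Θ1 := fun x => D.Φ1 _

lemma th_inv {x φ : ℝ} (h1 : -π < φ) (h2 : φ ≤ π) : D.inv.th (D.τ x) (D.th x φ) = φ := by
  have e : D.ord.symm (D.τ x) = x := D.ord.symm_apply_apply x
  have eΦ : D.inv.Φ (D.τ x) = D.Θ x := by show D.Θ (D.ord.symm (D.τ x)) = _; rw [e]
  have eΘ : D.inv.Θ (D.τ x) = D.Φ x := by show D.Φ (D.ord.symm (D.τ x)) = _; rw [e]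
  have ea : D.inv.aa (D.τ x) = D.Φ x / D.Θ x := by unfold aa; rw [eΦ, eΘ]
  have eb : D.inv.bb (D.τ x) = (π - D.Φ x) / (π - D.Θ x) := by unfold bb; rw [eΦ, eΘ]
  have n1 := (D.Φ0 x).ne'
  have n2 := (D.Θ0 x).ne'
  have n3 : π - D.Φ x ≠ 0 := by linarith [D.Φ1 x]
  have n4 : π - D.Θ x ≠ 0 := by linarith [D.Θ1 x]
  have hb := D.bb_pos x
  have hbm := D.bb_mul x
  rcases le_or_gt (|φ|) (D.Φ x) with h | h
  · have h3 := ((D.th_abs h1 h2).2.mp h)
    rw [D.inv.th_in (by rw [eΦ]; exact h3), ea, D.th_in h]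
    unfold aa; field_simp
  · rcases lt_abs.mp h with h' | h'
    · have h3 : D.Θ x ≤ D.th x φ := by rw [D.th_pos h'.le]; nlinarith
      rw [D.inv.th_pos (by rw [eΦ]; exact h3), eb, D.th_pos h'.le]
      unfold bb; field_simp; ring
    · have h3 : D.th x φ ≤ - D.Θ x := by rw [D.th_neg (by linarith)]; nlinarith
      rw [D.inv.th_neg (by rw [eΦ]; exact h3), eb, D.th_neg (by linarith)]
      unfold bb; field_simp; ring

lemma P_left_inv (z : ℂ) : D.inv.P (D.P z) = z := by
  by_cases hz : z = 0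
  · subst hz; rw [D.P_zero, P_zero]
  · rw [D.inv.P_ne (D.P_ne_zero hz), D.P_log hz, D.P_arg hz,
      D.th_inv (Complex.neg_pi_lt_arg z) (Complex.arg_le_pi z)]
    have e : D.inv.τ (D.τ (Real.log ‖z‖)) = Real.log ‖z‖ := D.ord.symm_apply_apply _
    rw [e]
    have h := Complex.exp_log hz
    conv_rhs => rw [← h]
    congr 1

lemma inv_inv_eq : D.inv.inv.P = D.P := by
  have e : D.inv.inv = D := by
    have h1 : ∀ x, D.inv.ord.symm x = D.τ x := by
      intro x
      apply D.inv.ord.injective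
      rw [OrderIso.apply_symm_apply]
      show x = D.ord.symm (D.τ x)
      exact (D.ord.symm_apply_apply x).symm
    have h2 : D.inv.inv.τ = D.τ := funext h1
    have h3 : D.inv.inv.Φ = D.Φ := by
      funext x
      show D.Φ (D.ord.symm (D.inv.ord.symm x)) = D.Φ x
      rw [h1]; exact congrArg D.Φ (D.ord.symm_apply_apply x)
    have h4 : D.inv.inv.Θ = D.Θ := by
      funext x
      show D.Θ (D.ord.symm (D.inv.ord.symm x)) = D.Θ x
      rw [h1]; exact congrArg D.Θ (D.ord.symm_apply_apply x)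
    cases hD : D.inv.inv with
    | mk t p q _ _ _ _ _ _ _ _ _ _ =>
      rw [hD] at h2 h3 h4
      cases D
      simp only at h2 h3 h4
      subst h2; subst h3; subst h4
      rfl
  rw [e]

/-- the polar homeomorphism -/
noncomputable def homeo : ℂ ≃ₜ ℂ where
  toFun := D.P
  invFun := D.inv.P
  left_inv := D.P_left_inv
  right_inv := fun w => by
    have := D.inv.P_left_inv w
    rw [D.inv_inv_eq] at this
    exact this
  continuous_toFun := D.P_cont
  continuous_invFun := D.inv.P_cont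

end Dat

end Pool.Agent.R435.Cu
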