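import Mathlib

open Set Metric Filter Topology MeasureTheory
open scoped RealInnerProductSpace ENNReal NNReal ContDiff

namespace Pool.Agent.R435.Cu

/-- `G` is a weak differential of `f` on the plane. -/
def HasWeakDeriv (f : ℂ → ℂ) (G : ℂ → ℂ →L[ℝ] ℂ) : Prop :=
  ∀ φ : ℂ → ℝ, ContDiff ℝ ∞ φ → HasCompactSupport φ →
    ∀ v : ℂ, ∫ x, φ x • G x v = - ∫ x, (fderiv ℝ φ x v) • f x

lemma weak_of_lipschitz {f : ℂ → ℂ} {C : ℝ≥0} (hf : LipschitzWith C f) :
    HasWeakDeriv f (fderiv ℝ f) := by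
  intro φ hφ hφc v
  have hbd : ∀ x, ‖fderiv ℝ f x‖ ≤ C := fun x => norm_fderiv_le_of_lipschitz ℝ hf
  have hφ1 : ContDiff ℝ 1 φ := hφ.of_le (by exact_mod_cast le_top)
  obtain ⟨D, hD⟩ := hφ1.lipschitzWith_of_hasCompactSupport hφc one_ne_zero
  have hmeas : Measurable (fun x => fderiv ℝ f x v) := measurable_fderiv_apply_const ℝ f v
  have hint1 : Integrable (fun x => φ x • fderiv ℝ f x v) := by
    have hi : Integrable (fun x => ‖φ x‖ * (C * ‖v‖)) :=
      ((hφ.continuous.integrable_of_hasCompactSupport hφc).norm.mul_const _)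
    refine hi.mono' (hφ.continuous.measurable.smul hmeas).aestronglyMeasurable
      (Eventually.of_forall fun x => ?_)
    rw [norm_smul]
    apply mul_le_mul_of_nonneg_left _ (norm_nonneg _)
    exact ((fderiv ℝ f x).le_opNorm v).trans (mul_le_mul_of_nonneg_right (hbd x) (norm_nonneg _))
  have hcs : HasCompactSupport (fun x => (fderiv ℝ φ x v)) := hφc.fderiv_apply (𝕜 := ℝ) v
  have hcont : Continuous (fun x => fderiv ℝ φ x v) :=
    (hφ1.continuous_fderiv one_ne_zero).clm_apply continuous_const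
  have hint2 : Integrable (fun x => (fderiv ℝ φ x v) • f x) :=
    (hcont.smul hf.continuous).integrable_of_hasCompactSupport hcs.smul_right
  apply ext_inner_left ℝ
  intro w
  rw [inner_neg_right, ← integral_inner hint1, ← integral_inner hint2, ← integral_neg]
  have hfw : LipschitzWith (‖innerSL ℝ w‖₊ * C) (fun x => ⟪w, f x⟫) :=
    (innerSL ℝ w).lipschitz.comp hf
  have hkey := hfw.integral_lineDeriv_mul_eq (μ := volume) hD hφc v
  have hdiff : ∀ᵐ x, DifferentiableAt ℝ f x := hf.ae_differentiableAt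
  calc ∫ x, ⟪w, φ x • fderiv ℝ f x v⟫ = ∫ x, lineDeriv ℝ (fun x => ⟪w, f x⟫) x v * φ x := by
        apply integral_congr_ae
        filter_upwards [hdiff] with x hx
        have h1 : HasFDerivAt (fun x => ⟪w, f x⟫) ((innerSL ℝ w).comp (fderiv ℝ f x)) x :=
          (innerSL ℝ w).hasFDerivAt.comp x hx.hasFDerivAt
        rw [(h1.hasLineDerivAt v).lineDeriv, inner_smul_right]
        simp [mul_comm]
    _ = ∫ x, lineDeriv ℝ φ x (-v) * ⟪w, f x⟫ := hkey
    _ = ∫ x, - ⟪w, (fderiv ℝ φ x v) • f x⟫ := by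
        apply integral_congr_ae
        refine Eventually.of_forall fun x => ?_
        simp only
        rw [(hφ1.differentiable one_ne_zero x).lineDeriv_eq_fderiv, inner_smul_right, map_neg]
        ring

/-- extension of Lipschitz maps into `ℂ` -/
lemma extend_complex {f : ℂ → ℂ} {s : Set ℂ} {K : ℝ≥0} (hf : LipschitzOnWith K f s) :
    ∃ (K' : ℝ≥0) (g : ℂ → ℂ), LipschitzWith K' g ∧ EqOn f g s := by
  have h1 : LipschitzOnWith (1 * K) (fun z => (f z).re) s := by
    have hre : LipschitzWith 1 Complex.re := by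
      apply LipschitzWith.of_dist_le_mul
      intro x y
      rw [NNReal.coe_one, one_mul, Real.dist_eq, ← Complex.sub_re, dist_eq_norm]
      exact Complex.abs_re_le_norm _
    exact hre.comp_lipschitzOnWith hf
  have h2 : LipschitzOnWith (1 * K) (fun z => (f z).im) s := by
    have him : LipschitzWith 1 Complex.im := by
      apply LipschitzWith.of_dist_le_mul
      intro x y
      rw [NNReal.coe_one, one_mul, Real.dist_eq, ← Complex.sub_im, dist_eq_norm]
      exact Complex.abs_im_le_norm _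
    exact him.comp_lipschitzOnWith hf
  obtain ⟨g1, hg1, he1⟩ := h1.extend_real
  obtain ⟨g2, hg2, he2⟩ := h2.extend_real
  refine ⟨1 * K + 1 * K, fun z => (g1 z : ℂ) + (g2 z : ℂ) * Complex.I, ?_, ?_⟩
  · apply LipschitzWith.of_dist_le_mul
    intro x y
    rw [dist_eq_norm]
    have e : (g1 x : ℂ) + (g2 x : ℂ) * Complex.I - ((g1 y : ℂ) + (g2 y : ℂ) * Complex.I) =
      ((g1 x - g1 y : ℝ) : ℂ) + ((g2 x - g2 y : ℝ) : ℂ) * Complex.I := by push_cast; ring
    rw [e]
    refine (norm_add_le _ _).trans ?_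
    rw [norm_mul, Complex.norm_I, mul_one, Complex.norm_real, Complex.norm_real]
    have a1 := hg1.dist_le_mul x y
    have a2 := hg2.dist_le_mul x y
    rw [Real.dist_eq] at a1 a2
    rw [Real.norm_eq_abs, Real.norm_eq_abs]
    push_cast at a1 a2 ⊢
    nlinarith
  · intro z hz
    have b1 := he1 hz
    have b2 := he2 hz
    simp only at b1 b2
    show f z = (g1 z : ℂ) + (g2 z : ℂ) * Complex.I
    rw [← b1, ← b2, Complex.re_add_im]

lemma weak_away {f : ℂ → ℂ} (hlip : LocallyLipschitzOn ({0}ᶜ : Set ℂ) f)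
    {φ : ℂ → ℝ} (hφ : ContDiff ℝ ∞ φ) (hφc : HasCompactSupport φ) (h0 : tsupport φ ⊆ {0}ᶜ) (v : ℂ) :
    ∫ x, φ x • fderiv ℝ f x v = - ∫ x, (fderiv ℝ φ x v) • f x := by
  obtain ⟨K', hK', hK1, hK2⟩ := exists_compact_between hφc isOpen_compl_singleton h0
  obtain ⟨K, hK⟩ := (hlip.mono hK2).exists_lipschitzOnWith_of_compact hK'
  obtain ⟨K'', g, hg, hfg⟩ := extend_complex hK
  have hw := weak_of_lipschitz hg φ hφ hφc v
  have e1 : ∀ x, φ x • fderiv ℝ f x v = φ x • fderiv ℝ g x v := by
    intro x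
    by_cases hx : x ∈ tsupport φ
    · have hx' : x ∈ interior K' := hK1 hx
      have : f =ᶠ[𝓝 x] g := by
        filter_upwards [isOpen_interior.mem_nhds hx'] with y hy
        exact hfg (interior_subset hy)
      rw [this.fderiv_eq]
    · rw [image_eq_zero_of_notMem_tsupport hx, zero_smul, zero_smul]
  have e2 : ∀ x, (fderiv ℝ φ x v) • f x = (fderiv ℝ φ x v) • g x := by
    intro x
    by_cases hx : x ∈ tsupport φ
    · rw [hfg (interior_subset (hK1 hx))]
    · have : fderiv ℝ φ x = 0 := by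
        apply image_eq_zero_of_notMem_tsupport
        exact fun h => hx (tsupport_fderiv_subset ℝ h)
      rw [this]; simp
  simp_rw [e1, e2]
  exact hw

/-- Weak differentiability across an isolated point. -/
theorem weak_main {f : ℂ → ℂ} (hc : Continuous f) (hlip : LocallyLipschitzOn ({0}ᶜ : Set ℂ) f)
    (hint : LocallyIntegrable (fun z => ‖fderiv ℝ f z‖)) : HasWeakDeriv f (fderiv ℝ f) := by
  intro φ hφ hφc v
  have hφ1 : ContDiff ℝ 1 φ := hφ.of_le (by exact_mod_cast le_top)
  -- a fixed bump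
  let β : ContDiffBump (0:ℂ) := ⟨1, 2, one_pos, one_lt_two⟩
  have hβ : ContDiff ℝ ∞ β := β.contDiff
  have hβ1 : ContDiff ℝ 1 β := hβ.of_le (by exact_mod_cast le_top)
  have hβc : HasCompactSupport β := β.hasCompactSupport
  obtain ⟨C, hC⟩ := ((hβ1.continuous_fderiv one_ne_zero).bounded_above_of_compact_support
    (hβc.fderiv (𝕜 := ℝ)))
  have hC0 : 0 ≤ C := (norm_nonneg _).trans (hC 0)
  -- scaled cutoffs
  let n1 : ℕ → ℝ := fun k => (k:ℝ) + 1
  have hn1 : ∀ k, 0 < n1 k := fun k => by positivity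
  let η : ℕ → ℂ → ℝ := fun k z => β ((n1 k) • z)
  have hη : ∀ k, ContDiff ℝ ∞ (η k) := fun k => hβ.comp (contDiff_const_smul (n1 k))
  have hη1 : ∀ k, ContDiff ℝ 1 (η k) := fun k => (hη k).of_le (by exact_mod_cast le_top)
  have hη01 : ∀ k z, 0 ≤ η k z ∧ η k z ≤ 1 := fun k z => ⟨β.nonneg, β.le_one⟩
  have hηone : ∀ k z, ‖z‖ ≤ 1 / n1 k → η k z = 1 := by
    intro k z hz
    apply β.one_of_mem_closedBall
    rw [mem_closedBall_zero_iff, norm_smul, Real.norm_of_nonneg (hn1 k).le]
    rw [le_div_iff₀ (hn1 k)] at hz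
    show n1 k * ‖z‖ ≤ 1
    linarith
  have hηzero : ∀ k z, 2 / n1 k ≤ ‖z‖ → η k z = 0 := by
    intro k z hz
    apply β.zero_of_le_dist
    rw [dist_zero_right, norm_smul, Real.norm_of_nonneg (hn1 k).le]
    rw [div_le_iff₀ (hn1 k)] at hz
    show 2 ≤ n1 k * ‖z‖
    linarith
  have hηD : ∀ k z, ‖fderiv ℝ (η k) z‖ ≤ C * n1 k := by
    intro k z
    have h1 : HasFDerivAt (η k) ((fderiv ℝ β ((n1 k) • z)).comp ((n1 k) • ContinuousLinearMap.id ℝ ℂ)) z := by
      have h2 : HasFDerivAt (fun z : ℂ => (n1 k) • z) ((n1 k) • ContinuousLinearMap.id ℝ ℂ) z :=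
        (hasFDerivAt_id z).const_smul (n1 k)
      exact ((hβ1.differentiable one_ne_zero) _).hasFDerivAt.comp z h2
    rw [h1.fderiv]
    refine (ContinuousLinearMap.opNorm_comp_le _ _).trans ?_
    rw [norm_smul, Real.norm_of_nonneg (hn1 k).le]
    have h3 := hC ((n1 k) • z)
    have h4 := ContinuousLinearMap.norm_id_le (𝕜 := ℝ) (E := ℂ)
    calc _ ≤ C * (n1 k * 1) := by
          apply mul_le_mul h3 (mul_le_mul_of_nonneg_left h4 (hn1 k).le) (by positivity) hC0
      _ = C * n1 k := by ring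
  have hηD0 : ∀ k z, 2 / n1 k < ‖z‖ → fderiv ℝ (η k) z = 0 := by
    intro k z hz
    have : η k =ᶠ[𝓝 z] fun _ => 0 := by
      filter_upwards [(isOpen_lt continuous_const continuous_norm).mem_nhds hz] with y hy
      exact hηzero k y hy.le
    rw [this.fderiv_eq]; simp
  -- test functions
  let ψ : ℕ → ℂ → ℝ := fun k z => φ z * (1 - η k z)
  have hψ : ∀ k, ContDiff ℝ ∞ (ψ k) := fun k => hφ.mul (contDiff_const.sub (hη k))
  have hψc : ∀ k, HasCompactSupport (ψ k) := fun k => hφc.mul_right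
  have hψ0 : ∀ k, tsupport (ψ k) ⊆ {0}ᶜ := by
    intro k z hz hz0
    rw [mem_singleton_iff] at hz0
    subst hz0
    have : ψ k =ᶠ[𝓝 0] 0 := by
      filter_upwards [Metric.ball_mem_nhds (0:ℂ) (show 0 < 1 / n1 k from div_pos one_pos (hn1 k))] with y hy
      rw [mem_ball_zero_iff] at hy
      show φ y * (1 - η k y) = 0
      rw [hηone k y hy.le]; ring
    exact (notMem_tsupport_iff_eventuallyEq.mpr this) hz
  have hk : ∀ k, ∫ x, ψ k x • fderiv ℝ f x v = - ∫ x, (fderiv ℝ (ψ k) x v) • f x :=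
    fun k => weak_away hlip (hψ k) (hψc k) (hψ0 k) v
  have hDψ : ∀ k z, fderiv ℝ (ψ k) z v = (1 - η k z) * fderiv ℝ φ z v - φ z * fderiv ℝ (η k) z v := by
    intro k z
    have h1 := (hφ1.differentiable one_ne_zero z).hasFDerivAt
    have h2 := ((hη1 k).differentiable one_ne_zero z).hasFDerivAt
    have h3 : HasFDerivAt (ψ k) (φ z • (0 - fderiv ℝ (η k) z) + (1 - η k z) • fderiv ℝ φ z) z :=
      h1.mul ((hasFDerivAt_const 1 z).sub h2)
    rw [h3.fderiv]
    simp; ring
  -- integrability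
  have hmeas : Measurable (fun x => fderiv ℝ f x v) := measurable_fderiv_apply_const ℝ f v
  have hI1 : Integrable (fun x => ‖φ x‖ * (‖fderiv ℝ f x‖ * ‖v‖)) := by
    have h1 : Integrable (fun x => ‖φ x‖ • ‖fderiv ℝ f x‖) :=
      hint.integrable_smul_left_of_hasCompactSupport hφ.continuous.norm hφc.norm
    have h2 := h1.mul_const ‖v‖
    refine h2.congr (Eventually.of_forall fun x => ?_)
    simp only [smul_eq_mul]; ring
  have hL : Tendsto (fun k => ∫ x, ψ k x • fderiv ℝ f x v) atTop (𝓝 (∫ x, φ x • fderiv ℝ f x v)) := by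
    apply tendsto_integral_of_dominated_convergence (fun x => ‖φ x‖ * (‖fderiv ℝ f x‖ * ‖v‖))
    · intro k
      exact ((hψ k).continuous.measurable.smul hmeas).aestronglyMeasurable
    · exact hI1
    · intro k
      refine Eventually.of_forall fun x => ?_
      rw [norm_smul]
      have h1 : ‖ψ k x‖ ≤ ‖φ x‖ := by
        show ‖φ x * (1 - η k x)‖ ≤ _
        rw [norm_mul]
        have h2 : ‖1 - η k x‖ ≤ 1 := by
          rw [Real.norm_eq_abs, abs_le]
          constructor <;> linarith [(hη01 k x).1, (hη01 k x).2]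
        nlinarith [norm_nonneg (φ x)]
      exact mul_le_mul h1 ((fderiv ℝ f x).le_opNorm v) (norm_nonneg _) (norm_nonneg _)
    · have hne : ∀ᵐ x : ℂ, x ≠ 0 := by
        rw [ae_iff]; simp
      filter_upwards [hne] with x hx
      apply Tendsto.smul_const
      have : ∀ᶠ k : ℕ in atTop, ψ k x = φ x := by
        have hpos : 0 < ‖x‖ := norm_pos_iff.mpr hx
        obtain ⟨N, hN⟩ := exists_nat_gt (2 / ‖x‖)
        filter_upwards [eventually_ge_atTop N] with k hkN
        have h1 : 2 / n1 k ≤ ‖x‖ := by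
          rw [div_le_iff₀ (hn1 k)]
          rw [div_lt_iff₀ hpos] at hN
          have h2 : (N:ℝ) ≤ k := by exact_mod_cast hkN
          show 2 ≤ ‖x‖ * ((k:ℝ) + 1)
          nlinarith
        show φ x * (1 - η k x) = φ x
        rw [hηzero k x h1]; ring
      exact tendsto_const_nhds.congr' (this.mono fun k hk => hk.symm)
  -- first part of the right side
  have hDφcont : Continuous (fun x => fderiv ℝ φ x v) :=
    (hφ1.continuous_fderiv one_ne_zero).clm_apply continuous_const
  have hDφcs : HasCompactSupport (fun x => (fderiv ℝ φ x v)) := hφc.fderiv_apply (𝕜 := ℝ) v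
  have hI2 : Integrable (fun x => ‖(fderiv ℝ φ x v) • f x‖) :=
    ((hDφcont.smul hc).integrable_of_hasCompactSupport hDφcs.smul_right).norm
  have hR1 : Tendsto (fun k => ∫ x, ((1 - η k x) * fderiv ℝ φ x v) • f x) atTop
      (𝓝 (∫ x, (fderiv ℝ φ x v) • f x)) := by
    apply tendsto_integral_of_dominated_convergence (fun x => ‖(fderiv ℝ φ x v) • f x‖)
    · intro k
      exact (((continuous_const.sub (hη k).continuous).mul hDφcont).smul hc).aestronglyMeasurable
    · exact hI2
    · intro k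
      refine Eventually.of_forall fun x => ?_
      rw [norm_smul, norm_smul, norm_mul]
      have h2 : ‖1 - η k x‖ ≤ 1 := by
        rw [Real.norm_eq_abs, abs_le]
        constructor <;> linarith [(hη01 k x).1, (hη01 k x).2]
      have h3 : ‖1 - η k x‖ * ‖fderiv ℝ φ x v‖ ≤ ‖fderiv ℝ φ x v‖ := by
        nlinarith [norm_nonneg (fderiv ℝ φ x v)]
      exact mul_le_mul_of_nonneg_right h3 (norm_nonneg _)
    · have hne : ∀ᵐ x : ℂ, x ≠ 0 := by
        rw [ae_iff]; simp
      filter_upwards [hne] with x hx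
      apply Tendsto.smul_const
      have : ∀ᶠ k : ℕ in atTop, (1 - η k x) * fderiv ℝ φ x v = fderiv ℝ φ x v := by
        have hpos : 0 < ‖x‖ := norm_pos_iff.mpr hx
        obtain ⟨N, hN⟩ := exists_nat_gt (2 / ‖x‖)
        filter_upwards [eventually_ge_atTop N] with k hkN
        have h1 : 2 / n1 k ≤ ‖x‖ := by
          rw [div_le_iff₀ (hn1 k)]
          rw [div_lt_iff₀ hpos] at hN
          have h2 : (N:ℝ) ≤ k := by exact_mod_cast hkN
          show 2 ≤ ‖x‖ * ((k:ℝ) + 1)
          nlinarith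
        rw [hηzero k x h1]; ring
      exact tendsto_const_nhds.congr' (this.mono fun k hk => hk.symm)
  -- second part
  obtain ⟨B, hB⟩ := (isCompact_closedBall (0:ℂ) 2).exists_bound_of_continuousOn
    ((hφ.continuous.smul hc).continuousOn (s := closedBall (0:ℂ) 2))
  have hB0 : 0 ≤ B := (norm_nonneg _).trans (hB 0 (by simp))
  have hηcont : ∀ k, Continuous (fun x => fderiv ℝ (η k) x v) := fun k =>
    ((hη1 k).continuous_fderiv one_ne_zero).clm_apply continuous_const
  have hI3 : ∀ k, Integrable (fun x => (φ x * fderiv ℝ (η k) x v) • f x) := fun k =>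
    ((hφ.continuous.mul (hηcont k)).smul hc).integrable_of_hasCompactSupport
      ((hφc.mul_right (f' := fun x => fderiv ℝ (η k) x v)).smul_right)
  have hI4 : ∀ k, Integrable (fun x => ((1 - η k x) * fderiv ℝ φ x v) • f x) := fun k =>
    (((continuous_const.sub (hη k).continuous).mul hDφcont).smul hc).integrable_of_hasCompactSupport
      ((hDφcs.mul_left (f := fun x => 1 - η k x)).smul_right)
  have hR2 : Tendsto (fun k => ∫ x, (φ x * fderiv ℝ (η k) x v) • f x) atTop (𝓝 0) := by
    have hbound : ∀ k, ‖∫ x, (φ x * fderiv ℝ (η k) x v) • f x‖ ≤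
        (B * (C * ‖v‖) * (volume (closedBall (0:ℂ) 2)).toReal) * (1 / n1 k) := by
      intro k
      have hsupp : ∀ x, x ∉ closedBall (0:ℂ) (2 / n1 k) → (φ x * fderiv ℝ (η k) x v) • f x = 0 := by
        intro x hx
        rw [mem_closedBall_zero_iff, not_le] at hx
        rw [hηD0 k x hx]; simp
      rw [← setIntegral_eq_integral_of_forall_compl_eq_zero hsupp]
      have hn1' : 1 ≤ n1 k := by show 1 ≤ (k:ℝ) + 1; linarith [Nat.cast_nonneg (α := ℝ) k]
      have h1 : ∀ x ∈ closedBall (0:ℂ) (2 / n1 k),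
          ‖(φ x * fderiv ℝ (η k) x v) • f x‖ ≤ B * (C * n1 k * ‖v‖) := by
        intro x hx
        have hx2 : x ∈ closedBall (0:ℂ) 2 := by
          rw [mem_closedBall_zero_iff] at hx ⊢
          refine hx.trans ?_
          rw [div_le_iff₀ (hn1 k)]; linarith
        have h2 := hB x hx2
        have h3 : ‖fderiv ℝ (η k) x v‖ ≤ C * n1 k * ‖v‖ :=
          ((fderiv ℝ (η k) x).le_opNorm v).trans (mul_le_mul_of_nonneg_right (hηD k x) (norm_nonneg _))
        have h4 : (φ x * fderiv ℝ (η k) x v) • f x = (fderiv ℝ (η k) x v) • (φ x • f x) := by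
          rw [smul_smul, mul_comm]
        rw [h4, norm_smul, mul_comm]
        exact mul_le_mul h2 h3 (norm_nonneg _) hB0
      have h5 := norm_setIntegral_le_of_norm_le_const
        (measure_closedBall_lt_top (μ := (volume : Measure ℂ)) (x := 0) (r := 2 / n1 k)) h1
      refine h5.trans ?_
      have hvol : volume.real (closedBall (0:ℂ) (2 / n1 k)) =
          (1 / n1 k)^2 * (volume (closedBall (0:ℂ) 2)).toReal := by
        have h6 : closedBall (0:ℂ) (2 / n1 k) = closedBall (0:ℂ) ((1 / n1 k) * 2) := by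
          congr 1; ring
        rw [h6, Measure.real, Measure.addHaar_closedBall_mul volume (0:ℂ)
          (by have := hn1 k; positivity : 0 ≤ 1 / n1 k) (by norm_num : (0:ℝ) ≤ 2)]
        rw [ENNReal.toReal_mul, ENNReal.toReal_ofReal (by have := hn1 k; positivity)]
        simp [Complex.finrank_real_complex]
      rw [hvol]
      have hnk := (hn1 k).ne'
      apply le_of_eq
      field_simp
    rw [tendsto_zero_iff_norm_tendsto_zero]
    have hlim : Tendsto (fun k => (B * (C * ‖v‖) * (volume (closedBall (0:ℂ) 2)).toReal) * (1 / n1 k))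
        atTop (𝓝 0) := by
      have := (tendsto_one_div_add_atTop_nhds_zero_nat (𝕜 := ℝ)).const_mul
        (B * (C * ‖v‖) * (volume (closedBall (0:ℂ) 2)).toReal)
      rwa [mul_zero] at this
    exact squeeze_zero (fun k => norm_nonneg _) hbound hlim
  have hR : Tendsto (fun k => - ∫ x, (fderiv ℝ (ψ k) x v) • f x) atTop
      (𝓝 (- ((∫ x, (fderiv ℝ φ x v) • f x) - 0))) := by
    apply Tendsto.neg
    have : ∀ k, ∫ x, (fderiv ℝ (ψ k) x v) • f x =
        (∫ x, ((1 - η k x) * fderiv ℝ φ x v) • f x) - ∫ x, (φ x * fderiv ℝ (η k) x v) • f x := by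
      intro k
      rw [← integral_sub (hI4 k) (hI3 k)]
      congr 1
      funext x
      rw [hDψ, sub_smul]
    simp_rw [this]
    exact hR1.sub hR2
  rw [sub_zero] at hR
  refine tendsto_nhds_unique hL ?_
  simp_rw [hk]
  exact hR

end Pool.Agent.R435.Cu
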