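import Pool.Agent.R435.Cu.Lin
import Pool.Agent.R435.Cu.Weak

open Set Metric Filter Topology MeasureTheory Real
open scoped ENNReal NNReal

namespace Pool.Agent.R435.Cu

/-! ## local Lipschitz toolbox -/

def LipAt {α β : Type*} [PseudoEMetricSpace α] [PseudoEMetricSpace β] (f : α → β) (x : α) : Prop :=
  ∃ K : ℝ≥0, ∃ t ∈ 𝓝 x, LipschitzOnWith K f t

section
variable {α β γ : Type*} [PseudoEMetricSpace α] [PseudoEMetricSpace β] [PseudoEMetricSpace γ]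

lemma LipAt.continuousAt {f : α → β} {x : α} (h : LipAt f x) : ContinuousAt f x := by
  obtain ⟨K, t, ht, hK⟩ := h
  exact hK.continuousOn.continuousAt ht

lemma LipAt.comp {g : β → γ} {f : α → β} {x : α} (hg : LipAt g (f x)) (hf : LipAt f x) :
    LipAt (fun y => g (f y)) x := by
  have hc := hf.continuousAt
  obtain ⟨Kg, u, hu, hg⟩ := hg
  obtain ⟨Kf, t, ht, hf⟩ := hf
  refine ⟨Kg * Kf, t ∩ f ⁻¹' u, inter_mem ht (hc hu), ?_⟩
  exact hg.comp (hf.mono inter_subset_left) ((mapsTo_preimage f u).mono_left inter_subset_right)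

lemma LipAt.prodMk {f : α → β} {g : α → γ} {x : α} (hf : LipAt f x) (hg : LipAt g x) :
    LipAt (fun y => (f y, g y)) x := by
  obtain ⟨Kf, t, ht, hf⟩ := hf
  obtain ⟨Kg, u, hu, hg⟩ := hg
  exact ⟨max Kf Kg, t ∩ u, inter_mem ht hu,
    (hf.mono inter_subset_left).prodMk (hg.mono inter_subset_right)⟩

lemma LipAt.congr {f g : α → β} {x : α} (hf : LipAt f x) (h : f =ᶠ[𝓝 x] g) : LipAt g x := by
  obtain ⟨K, t, ht, hf⟩ := hf
  obtain ⟨u, hu, hu2⟩ := h.exists_mem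
  refine ⟨K, t ∩ u, inter_mem ht hu, ?_⟩
  intro a ha b hb
  rw [← hu2 ha.2, ← hu2 hb.2]
  exact hf ha.1 hb.1

lemma LipschitzWith.lipAt {f : α → β} {K : ℝ≥0} (h : LipschitzWith K f) (x : α) : LipAt f x :=
  ⟨K, univ, univ_mem, h.lipschitzOnWith⟩

end

lemma lipAt_of_contDiffAt {E F : Type*} [NormedAddCommGroup E] [NormedSpace ℝ E]
    [NormedAddCommGroup F] [NormedSpace ℝ F] {f : E → F} {x : E} (h : ContDiffAt ℝ 1 f x) :
    LipAt f x := h.exists_lipschitzOnWith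

section
variable {α : Type*} [PseudoEMetricSpace α] {f g : α → ℝ} {x : α}

lemma LipAt.mul (hf : LipAt f x) (hg : LipAt g x) : LipAt (fun y => f y * g y) x :=
  LipAt.comp (g := fun p : ℝ × ℝ => p.1 * p.2)
    (lipAt_of_contDiffAt (contDiff_fst.mul contDiff_snd).contDiffAt) (hf.prodMk hg)

lemma LipAt.add (hf : LipAt f x) (hg : LipAt g x) : LipAt (fun y => f y + g y) x :=
  LipAt.comp (g := fun p : ℝ × ℝ => p.1 + p.2)
    (lipAt_of_contDiffAt (contDiff_fst.add contDiff_snd).contDiffAt) (hf.prodMk hg)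

lemma LipAt.sub (hf : LipAt f x) (hg : LipAt g x) : LipAt (fun y => f y - g y) x :=
  LipAt.comp (g := fun p : ℝ × ℝ => p.1 - p.2)
    (lipAt_of_contDiffAt (contDiff_fst.sub contDiff_snd).contDiffAt) (hf.prodMk hg)

lemma LipAt.neg (hf : LipAt f x) : LipAt (fun y => - f y) x :=
  LipAt.comp (g := fun p : ℝ => -p) (lipAt_of_contDiffAt contDiff_neg.contDiffAt) hf

lemma LipAt.div (hf : LipAt f x) (hg : LipAt g x) (h0 : g x ≠ 0) : LipAt (fun y => f y / g y) x :=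
  LipAt.comp (g := fun p : ℝ × ℝ => p.1 / p.2)
    (lipAt_of_contDiffAt (contDiffAt_fst.div contDiffAt_snd h0)) (hf.prodMk hg)

lemma LipAt.max (hf : LipAt f x) (hg : LipAt g x) : LipAt (fun y => max (f y) (g y)) x :=
  LipAt.comp (g := fun p : ℝ × ℝ => Max.max p.1 p.2) (LipschitzWith.lipAt lipschitzWith_max _)
    (hf.prodMk hg)

lemma LipAt.min (hf : LipAt f x) (hg : LipAt g x) : LipAt (fun y => min (f y) (g y)) x :=
  LipAt.comp (g := fun p : ℝ × ℝ => Min.min p.1 p.2) (LipschitzWith.lipAt lipschitzWith_min _)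
    (hf.prodMk hg)

lemma lipAt_const (c : ℝ) : LipAt (fun _ : α => c) x := LipschitzWith.lipAt (LipschitzWith.const c) x

end

/-! ## regularity of the polar map -/

structure Reg (D : Dat) where
  E : Set ℝ
  Ec : E.Countable
  dτ : ℝ → ℝ
  dΦ : ℝ → ℝ
  dΘ : ℝ → ℝ
  hτ' : ∀ x ∉ E, HasDerivAt D.τ (dτ x) x
  hΦ' : ∀ x ∉ E, HasDerivAt D.Φ (dΦ x) x
  hΘ' : ∀ x ∉ E, HasDerivAt D.Θ (dΘ x) x
  lτ : ∀ x, LipAt D.τ x
  lΦ : ∀ x, LipAt D.Φ x
  lΘ : ∀ x, LipAt D.Θ x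
  pos : ∀ x ∉ E, 0 < dτ x

namespace Reg

variable {D : Dat} (R : Reg D)

noncomputable def daa (x : ℝ) : ℝ := (R.dΘ x * D.Φ x - D.Θ x * R.dΦ x) / (D.Φ x)^2
noncomputable def dbb (x : ℝ) : ℝ :=
  (-(R.dΘ x) * (π - D.Φ x) + (π - D.Θ x) * R.dΦ x) / (π - D.Φ x)^2

lemma haa {x : ℝ} (hx : x ∉ R.E) : HasDerivAt D.aa (R.daa x) x :=
  (R.hΘ' x hx).div (R.hΦ' x hx) (D.Φ0 x).ne'

lemma hbb {x : ℝ} (hx : x ∉ R.E) : HasDerivAt D.bb (R.dbb x) x := by
  have h := ((hasDerivAt_const x π).sub (R.hΘ' x hx)).div ((hasDerivAt_const x π).sub (R.hΦ' x hx))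
    (by show (π : ℝ) - D.Φ x ≠ 0; linarith [D.Φ1 x])
  refine h.congr_deriv ?_
  show ((0 - R.dΘ x) * (π - D.Φ x) - (π - D.Θ x) * (0 - R.dΦ x)) / (π - D.Φ x)^2 = _
  unfold dbb
  congr 1; ring

noncomputable def kin (x : ℝ) : ℝ :=
  ((R.dτ x)^2 + (π * R.daa x)^2 + (D.aa x)^2) / (R.dτ x * D.aa x)
noncomputable def kout (x : ℝ) : ℝ :=
  ((R.dτ x)^2 + (π * R.dbb x)^2 + (D.bb x)^2) / (R.dτ x * D.bb x)

/-- The derivative at good points. -/
lemma deriv_good {z : ℂ} (hz : z ≠ 0) (hE : Real.log ‖z‖ ∉ R.E)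
    (hne : |Complex.arg z| ≠ D.Φ (Real.log ‖z‖)) :
    ∃ y w : ℝ, HasFDerivAt D.P (LG (D.P z) z (N (R.dτ (Real.log ‖z‖)) y w)) z ∧
      ((|Complex.arg z| < D.Φ (Real.log ‖z‖) ∧ y^2 ≤ (π * R.daa (Real.log ‖z‖))^2 ∧
          w = D.aa (Real.log ‖z‖)) ∨
       (D.Φ (Real.log ‖z‖) < |Complex.arg z| ∧ y^2 ≤ (π * R.dbb (Real.log ‖z‖))^2 ∧
          w = D.bb (Real.log ‖z‖))) := by
  have hpi : ∀ (d : ℝ) (u : ℂ), (d * Complex.arg u)^2 ≤ (π * d)^2 := by
    intro d u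
    have h1 := Complex.abs_arg_le_pi u
    rw [mul_pow, mul_pow]
    have h2 : (Complex.arg u)^2 ≤ π^2 := by
      rw [← sq_abs]
      exact pow_le_pow_left₀ (abs_nonneg _) h1 2
    nlinarith [sq_nonneg d]
  rcases lt_or_gt_of_ne hne with h | h
  · exact ⟨_, _, D.deriv_inner hz h (R.hτ' _ hE) (R.haa hE), Or.inl ⟨h, hpi _ _, rfl⟩⟩
  · exact ⟨_, _, D.deriv_outer hz h (R.hτ' _ hE) (R.hbb hE), Or.inr ⟨h, hpi _ _, rfl⟩⟩

lemma volume_graph {g : ℝ → ℝ} (hg : Continuous g) : volume {w : ℂ | w.im = g w.re} = 0 := by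
  have h1 : {w : ℂ | w.im = g w.re} = Complex.measurableEquivRealProd ⁻¹' {p : ℝ × ℝ | p.2 = g p.1} := by
    ext w; rfl
  have hm : MeasurableSet {p : ℝ × ℝ | p.2 = g p.1} :=
    measurableSet_eq_fun measurable_snd (hg.measurable.comp measurable_fst)
  rw [h1, Complex.volume_preserving_equiv_real_prod.measure_preimage hm.nullMeasurableSet]
  rw [Measure.volume_eq_prod, Measure.measure_prod_null hm]
  refine Eventually.of_forall fun x => ?_
  have : Prod.mk x ⁻¹' {p : ℝ × ℝ | p.2 = g p.1} = {g x} := by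
    ext y; simp
  show volume (Prod.mk x ⁻¹' {p : ℝ × ℝ | p.2 = g p.1}) = 0
  rw [this]; simp

lemma ae_good : ∀ᵐ z : ℂ, z ≠ 0 ∧ Real.log ‖z‖ ∉ R.E ∧ |Complex.arg z| ≠ D.Φ (Real.log ‖z‖) := by
  have h0 : ∀ᵐ z : ℂ, z ≠ 0 := by rw [ae_iff]; simp
  have h1 : ∀ᵐ z : ℂ, ∀ c ∈ R.E, ‖z‖ ≠ Real.exp c := by
    rw [ae_ball_iff R.Ec]
    intro c _
    rw [ae_iff]
    have : {a : ℂ | ¬ ‖a‖ ≠ Real.exp c} = sphere (0:ℂ) (Real.exp c) := by
      ext a; simp
    rw [this]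
    exact Measure.addHaar_sphere volume (0:ℂ) (Real.exp c)
  have h2 : ∀ᵐ z : ℂ, z ∉ Complex.exp '' ({w : ℂ | w.im = D.Φ w.re} ∪ {w : ℂ | w.im = - D.Φ w.re}) := by
    rw [ae_iff]
    simp only [not_not]
    apply addHaar_image_eq_zero_of_differentiableOn_of_addHaar_eq_zero
    · have he0 : Differentiable ℂ Complex.exp := Complex.differentiable_exp
      have he : Differentiable ℝ Complex.exp := he0.restrictScalars ℝ
      exact he.differentiableOn
    · apply measure_union_null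
      · exact volume_graph D.Φc
      · exact volume_graph D.Φc.neg
  filter_upwards [h0, h1, h2] with z hz0 hz1 hz2
  refine ⟨hz0, ?_, ?_⟩
  · intro hE
    exact hz1 _ hE (Real.exp_log (norm_pos_iff.mpr hz0)).symm
  · intro h
    apply hz2
    refine ⟨Complex.log z, ?_, Complex.exp_log hz0⟩
    rcases abs_choice (Complex.arg z) with h3 | h3
    · left
      show (Complex.log z).im = D.Φ (Complex.log z).re
      rw [Complex.log_im, Complex.log_re, ← h, h3]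
    · right
      show (Complex.log z).im = - D.Φ (Complex.log z).re
      rw [Complex.log_im, Complex.log_re, ← h, h3]; ring

/-- distortion function of a map -/
noncomputable def _root_.Pool.Agent.R435.Cu.Kf (f : ℂ → ℂ) (z : ℂ) : ℝ :=
  if 0 < (fderiv ℝ f z).det then ‖fderiv ℝ f z‖^2 / (fderiv ℝ f z).det else 1

lemma good_bounds {z : ℂ} (hz : z ≠ 0) (hE : Real.log ‖z‖ ∉ R.E)
    (hne : |Complex.arg z| ≠ D.Φ (Real.log ‖z‖)) :
    0 < (fderiv ℝ D.P z).det ∧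
    ((|Complex.arg z| < D.Φ (Real.log ‖z‖) ∧ Kf D.P z ≤ R.kin (Real.log ‖z‖)) ∨
     (D.Φ (Real.log ‖z‖) < |Complex.arg z| ∧ Kf D.P z ≤ R.kout (Real.log ‖z‖))) ∧
    ‖fderiv ℝ D.P z‖ ≤ ‖D.P z‖ * Real.sqrt ((R.dτ (Real.log ‖z‖))^2 +
      ((π * R.daa (Real.log ‖z‖))^2 + (π * R.dbb (Real.log ‖z‖))^2) +
      ((D.aa (Real.log ‖z‖))^2 + (D.bb (Real.log ‖z‖))^2)) / ‖z‖ := by
  obtain ⟨y, w, hd, hcase⟩ := R.deriv_good hz hE hne
  rw [hd.fderiv]
  set x := Real.log ‖z‖ with hx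
  have hp := R.pos x hE
  have hw : 0 < w := by
    rcases hcase with ⟨_, _, h⟩ | ⟨_, _, h⟩
    · rw [h]; exact D.aa_pos x
    · rw [h]; exact D.bb_pos x
  have hPz : 0 < ‖D.P z‖ := norm_pos_iff.mpr (D.P_ne_zero hz)
  have hzz : 0 < ‖z‖ := norm_pos_iff.mpr hz
  have hdet := LG_det (D.P z) z hz (R.dτ x) y w
  have hdpos : 0 < (LG (D.P z) z (N (R.dτ x) y w)).det := by rw [hdet]; positivity
  have hK : Kf D.P z ≤ ((R.dτ x)^2 + y^2 + w^2) / (R.dτ x * w) := by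
    unfold Kf
    rw [hd.fderiv, if_pos hdpos, hdet, div_le_div_iff₀ (by positivity) (by positivity)]
    have h1 := LG_norm_sq (D.P z) z (R.dτ x) y w
    calc ‖LG (D.P z) z (N (R.dτ x) y w)‖^2 * (R.dτ x * w) ≤
        (‖D.P z‖^2 * ((R.dτ x)^2 + y^2 + w^2) / ‖z‖^2) * (R.dτ x * w) := by gcongr
      _ = _ := by ring
  refine ⟨hdpos, ?_, ?_⟩
  · rcases hcase with ⟨h1, h2, h3⟩ | ⟨h1, h2, h3⟩
    · left
      refine ⟨h1, hK.trans ?_⟩
      unfold kin
      rw [← h3]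
      gcongr
    · right
      refine ⟨h1, hK.trans ?_⟩
      unfold kout
      rw [← h3]
      gcongr
  · refine (LG_norm _ _ _ _ _).trans ?_
    gcongr
    · rcases hcase with ⟨_, h2, _⟩ | ⟨_, h2, _⟩
      · exact h2.trans (le_add_of_nonneg_right (sq_nonneg _))
      · exact h2.trans (le_add_of_nonneg_left (sq_nonneg _))
    · rcases hcase with ⟨_, _, h3⟩ | ⟨_, _, h3⟩
      · rw [h3]; exact le_add_of_nonneg_right (sq_nonneg _)
      · rw [h3]; exact le_add_of_nonneg_left (sq_nonneg _)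

include R in
lemma P_lipAt {z : ℂ} (hz : z ≠ 0) : LipAt D.P z := by
  have hlog : ∀ u ∈ Complex.slitPlane, LipAt (fun y : ℂ => Real.log ‖y‖) u ∧
      LipAt (fun y : ℂ => Complex.arg y) u := by
    intro u hu
    have h1 : LipAt Complex.log u :=
      lipAt_of_contDiffAt ((Complex.contDiffAt_log hu (n := 1)).restrict_scalars ℝ)
    have h2 : LipAt (fun y : ℂ => (Complex.log y).re) u :=
      LipAt.comp (g := Complex.re) (lipAt_of_contDiffAt Complex.reCLM.contDiff.contDiffAt) h1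
    have h3 : LipAt (fun y : ℂ => (Complex.log y).im) u :=
      LipAt.comp (g := Complex.im) (lipAt_of_contDiffAt Complex.imCLM.contDiff.contDiffAt) h1
    simp only [Complex.log_re, Complex.log_im] at h2 h3
    exact ⟨h2, h3⟩
  have hexp : ∀ p : ℝ × ℝ, LipAt (fun p : ℝ × ℝ => Complex.exp ((p.1 : ℂ) + (p.2 : ℂ) * Complex.I)) p := by
    intro p
    apply lipAt_of_contDiffAt
    apply ContDiff.contDiffAt
    have h1 : ContDiff ℝ 1 (fun p : ℝ × ℝ => (p.1 : ℂ)) := Complex.ofRealCLM.contDiff.comp contDiff_fst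
    have h2 : ContDiff ℝ 1 (fun p : ℝ × ℝ => (p.2 : ℂ)) := Complex.ofRealCLM.contDiff.comp contDiff_snd
    exact (h1.add (h2.mul contDiff_const)).cexp
  by_cases hs : z ∈ Complex.slitPlane
  · obtain ⟨h1, h2⟩ := hlog z hs
    have hτ : LipAt (fun y : ℂ => D.τ (Real.log ‖y‖)) z := LipAt.comp (R.lτ _) h1
    have hΦ : LipAt (fun y : ℂ => D.Φ (Real.log ‖y‖)) z := LipAt.comp (R.lΦ _) h1
    have hΘ : LipAt (fun y : ℂ => D.Θ (Real.log ‖y‖)) z := LipAt.comp (R.lΘ _) h1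
    have haa : LipAt (fun y : ℂ => D.aa (Real.log ‖y‖)) z := hΘ.div hΦ (D.Φ0 _).ne'
    have hbb : LipAt (fun y : ℂ => D.bb (Real.log ‖y‖)) z :=
      ((lipAt_const π).sub hΘ).div ((lipAt_const π).sub hΦ) (by linarith [D.Φ1 (Real.log ‖z‖)])
    have hth : LipAt (fun y : ℂ => D.th (Real.log ‖y‖) (Complex.arg y)) z :=
      (hbb.mul h2).add ((haa.sub hbb).mul ((hΦ.neg).max (hΦ.min h2)))
    have := LipAt.comp (g := fun p : ℝ × ℝ => Complex.exp ((p.1 : ℂ) + (p.2 : ℂ) * Complex.I))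
      (f := fun y : ℂ => (D.τ (Real.log ‖y‖), D.th (Real.log ‖y‖) (Complex.arg y)))
      (hexp _) (hτ.prodMk hth)
    refine this.congr ?_
    filter_upwards [isOpen_compl_singleton.mem_nhds hz] with y hy
    exact (D.P_ne hy).symm
  · have hz2 : -z ∈ Complex.slitPlane := by
      rw [Complex.mem_slitPlane_iff] at hs ⊢
      push Not at hs
      left
      have h1 : z.re ≠ 0 := fun h' => hz (Complex.ext h' hs.2)
      have := lt_of_le_of_ne hs.1 h1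
      simp; exact this
    have hng : LipAt (fun y : ℂ => -y) z := lipAt_of_contDiffAt contDiff_neg.contDiffAt
    obtain ⟨h1', h2'⟩ := hlog (-z) hz2
    have h1 : LipAt (fun y : ℂ => Real.log ‖y‖) z := by
      have := LipAt.comp (f := fun y : ℂ => -y) h1' hng
      simpa using this
    have h2 : LipAt (fun y : ℂ => Complex.arg (-y)) z := LipAt.comp (f := fun y : ℂ => -y) h2' hng
    have hτ : LipAt (fun y : ℂ => D.τ (Real.log ‖y‖)) z := LipAt.comp (R.lτ _) h1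
    have hΦ : LipAt (fun y : ℂ => D.Φ (Real.log ‖y‖)) z := LipAt.comp (R.lΦ _) h1
    have hΘ : LipAt (fun y : ℂ => D.Θ (Real.log ‖y‖)) z := LipAt.comp (R.lΘ _) h1
    have hbb : LipAt (fun y : ℂ => D.bb (Real.log ‖y‖)) z :=
      ((lipAt_const π).sub hΘ).div ((lipAt_const π).sub hΦ) (by linarith [D.Φ1 (Real.log ‖z‖)])
    have hth := hbb.mul h2
    have h3 := LipAt.comp (g := fun p : ℝ × ℝ => Complex.exp ((p.1 : ℂ) + (p.2 : ℂ) * Complex.I))
      (f := fun y : ℂ => (D.τ (Real.log ‖y‖), D.bb (Real.log ‖y‖) * Complex.arg (-y)))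
      (hexp _) (hτ.prodMk hth)
    have h4 : LipAt (fun y : ℂ => - Complex.exp ((D.τ (Real.log ‖y‖) : ℂ) +
          (D.bb (Real.log ‖y‖) * Complex.arg (-y) : ℝ) * Complex.I)) z :=
      LipAt.comp (g := fun w : ℂ => -w) (lipAt_of_contDiffAt contDiff_neg.contDiffAt) h3
    refine h4.congr ?_
    filter_upwards [D.outer_nhds hz hs] with y hy
    exact (D.P_outer hy.1 hy.2.le).symm

include R in
lemma P_locLip : LocallyLipschitzOn ({0}ᶜ : Set ℂ) D.P := by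
  intro z hz
  obtain ⟨K, t, ht, hK⟩ := R.P_lipAt hz
  exact ⟨K, t, mem_nhdsWithin_of_mem_nhds ht, hK⟩

end Reg

end Pool.Agent.R435.Cu
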